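import Pool.Agent.H138R3.NCNear

/-!
# The base group is convex cocompact
-/

set_option autoImplicit false
set_option linter.unusedSectionVars false
set_option linter.unusedVariables false

namespace Pool.Agent.H138R3.NC

open scoped LinearAlgebra.Projectivization MatrixGroups Topology
open Filter

/-- The invariant domain of the base group. -/
def Bcone : Set (Fin 4 → ℝ) :=
  {v | 0 < v 0 * v 1 ∧ v 2 ^ 2 < v 0 * v 1 ∧ v 3 ^ 2 < v 0 * v 1}

theorem Bcone_scale : ScaleInv Bcone := by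
  rintro v ⟨h1, h2, h3⟩ c hc
  have hc2 : 0 < c ^ 2 := by positivity
  have e : (c • v) 0 * (c • v) 1 = c ^ 2 * (v 0 * v 1) := by
    simp only [Pi.smul_apply, smul_eq_mul]; ring
  refine ⟨?_, ?_, ?_⟩
  · rw [e]; positivity
  · rw [e]
    simp only [Pi.smul_apply, smul_eq_mul, mul_pow]
    exact mul_lt_mul_of_pos_left h2 hc2
  · rw [e]
    simp only [Pi.smul_apply, smul_eq_mul, mul_pow]
    exact mul_lt_mul_of_pos_left h3 hc2

theorem isOpen_Bcone : IsOpen Bcone := by
  have c0 : Continuous (fun v : Fin 4 → ℝ => v 0) := continuous_apply 0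
  have c1 : Continuous (fun v : Fin 4 → ℝ => v 1) := continuous_apply 1
  have c2 : Continuous (fun v : Fin 4 → ℝ => v 2) := continuous_apply 2
  have c3 : Continuous (fun v : Fin 4 → ℝ => v 3) := continuous_apply 3
  exact (isOpen_lt continuous_const (c0.mul c1)).inter
    ((isOpen_lt (c2.pow 2) (c0.mul c1)).inter (isOpen_lt (c3.pow 2) (c0.mul c1)))

theorem closure_Bcone : closure (PS Bcone) ⊆ chart φ0 := by
  apply closure_chart Bcone_scale
  intro v hv h
  have c0 : Continuous (fun v : Fin 4 → ℝ => v 0) := continuous_apply 0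
  have c1 : Continuous (fun v : Fin 4 → ℝ => v 1) := continuous_apply 1
  have c2 : Continuous (fun v : Fin 4 → ℝ => v 2) := continuous_apply 2
  have c3 : Continuous (fun v : Fin 4 → ℝ => v 3) := continuous_apply 3
  have hcl : IsClosed {v : Fin 4 → ℝ | 0 ≤ v 0 * v 1 ∧ v 2 ^ 2 ≤ v 0 * v 1 ∧
      v 3 ^ 2 ≤ v 0 * v 1} :=
    (isClosed_le continuous_const (c0.mul c1)).inter
      ((isClosed_le (c2.pow 2) (c0.mul c1)).inter (isClosed_le (c3.pow 2) (c0.mul c1)))
  have hsub : Bcone ⊆ {v : Fin 4 → ℝ | 0 ≤ v 0 * v 1 ∧ v 2 ^ 2 ≤ v 0 * v 1 ∧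
      v 3 ^ 2 ≤ v 0 * v 1} := fun w hw => ⟨hw.1.le, hw.2.1.le, hw.2.2.le⟩
  obtain ⟨a1, a2, a3⟩ := closure_minimal hsub hcl hv
  rw [φ0_apply] at h
  have h10 : v 1 = - v 0 := by linarith
  rw [h10] at a1 a2 a3
  have h00 : v 0 = 0 := by nlinarith [sq_nonneg (v 0)]
  rw [h00] at a2 a3
  have h2 : v 2 = 0 := by nlinarith [sq_nonneg (v 2)]
  have h3 : v 3 = 0 := by nlinarith [sq_nonneg (v 3)]
  funext i
  fin_cases i
  · exact h00
  · show v 1 = 0
    rw [h10, h00, neg_zero]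
  · exact h2
  · exact h3

theorem slice_Bcone : Convex ℝ (slice φ0 (PS Bcone)) := by
  rintro v ⟨hv1, hv, hvm⟩ w ⟨hw1, hw, hwm⟩ s t hs ht hst
  rw [mk_mem_PS Bcone_scale] at hvm hwm
  obtain ⟨a1, a2, a3⟩ := hvm
  obtain ⟨b1, b2, b3⟩ := hwm
  have hv0 := pos_of_slice hv1 a1
  have hw0 := pos_of_slice hw1 b1
  have hpos : ∀ x y : ℝ, 0 < x → 0 < y → 0 < s * x + t * y := by
    intro x y hx hy
    rcases eq_or_lt_of_le hs with h | h
    · rw [← h] at hst ⊢; simp at hst; rw [hst]; simpa using hy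
    · have : 0 ≤ t * y := by positivity
      have : 0 < s * x := by positivity
      linarith
  have key : ∀ x y : ℝ, x ^ 2 < v 0 * v 1 → y ^ 2 < w 0 * w 1 →
      (s * x + t * y) ^ 2 < (s * v 0 + t * w 0) * (s * v 1 + t * w 1) := by
    intro x y hx hy
    obtain ⟨p0, p1⟩ := hv0
    obtain ⟨q0, q1⟩ := hw0
    have k1 : (x * y) ^ 2 ≤ (v 0 * v 1) * (w 0 * w 1) := by
      rw [mul_pow]
      exact mul_le_mul hx.le hy.le (sq_nonneg _) (by positivity)
    have k2 : (2 * (x * y)) ^ 2 ≤ (v 0 * w 1 + v 1 * w 0) ^ 2 := by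
      nlinarith [sq_nonneg (v 0 * w 1 - v 1 * w 0)]
    have k3 : 2 * (x * y) ≤ v 0 * w 1 + v 1 * w 0 :=
      le_of_sq_le_sq k2 (by positivity)
    have k4 : s * (s * x ^ 2) + t * (t * y ^ 2) <
        s * (s * (v 0 * v 1)) + t * (t * (w 0 * w 1)) := by
      rcases eq_or_lt_of_le hs with h | h
      · rw [← h] at hst ⊢; simp at hst; rw [hst]; simpa using hy
      · have e1 : s * (s * x ^ 2) < s * (s * (v 0 * v 1)) :=
          mul_lt_mul_of_pos_left (mul_lt_mul_of_pos_left hx h) h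
        have e2 : t * (t * y ^ 2) ≤ t * (t * (w 0 * w 1)) :=
          mul_le_mul_of_nonneg_left (mul_le_mul_of_nonneg_left hy.le ht) ht
        linarith
    have k5 : s * t * (2 * (x * y)) ≤ s * t * (v 0 * w 1 + v 1 * w 0) :=
      mul_le_mul_of_nonneg_left k3 (by positivity)
    nlinarith
  have hm : s • v + t • w ∈ Bcone := by
    refine ⟨?_, ?_, ?_⟩
    · simp only [Pi.add_apply, Pi.smul_apply, smul_eq_mul]
      exact mul_pos (hpos _ _ hv0.1 hw0.1) (hpos _ _ hv0.2 hw0.2)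
    · simp only [Pi.add_apply, Pi.smul_apply, smul_eq_mul]
      exact key _ _ a2 b2
    · simp only [Pi.add_apply, Pi.smul_apply, smul_eq_mul]
      exact key _ _ a3 b3
  refine ⟨?_, ne_zero_of_prod hm.1, ?_⟩
  · rw [map_add, map_smul, map_smul, hv1, hw1]
    simpa using hst
  · rw [mk_mem_PS Bcone_scale]; exact hm

/-- The values of the quadratic functions are invariant. -/
theorem dih_inv_gen {A : Set (Fin 4 → ℝ)}
    (h : ∀ v w : Fin 4 → ℝ, v ∈ A → w 0 * w 1 = v 0 * v 1 →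
      ((w 2 ^ 2 = v 2 ^ 2 ∧ w 3 ^ 2 = v 3 ^ 2) ∨ (w 2 ^ 2 = v 3 ^ 2 ∧ w 3 ^ 2 = v 2 ^ 2)) →
      w ∈ A) (a : ℝˣ) : ∀ x, ∀ v ∈ A, (dih a 1 x).1.mulVec v ∈ A := by
  apply dih_inv
  · intro k v hv
    obtain ⟨e0, e1, e2, e3⟩ := uu_zpow_val a 1 k
    have hA : (a : ℝ) ^ k ≠ 0 := zpow_ne_zero _ a.ne_zero
    have hs : ((-((1 : ℝˣ) : ℝ)) ^ k) ^ 2 = 1 := by
      rw [Units.val_one, ← zpow_natCast, ← zpow_mul, mul_comm, zpow_mul]
      norm_num
    apply h v _ hv
    · simp only [e0, e1]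
      field_simp
    · left
      constructor
      · simp only [e2, mul_pow, hs, one_mul]
      · simp only [e3, mul_pow, inv_pow, hs, inv_one, one_mul]
  · intro v hv
    apply h v _ hv
    · simp [mul_comm]
    · right
      simp

theorem Bcone_inv (a : ℝˣ) : ∀ x, ∀ v ∈ Bcone, (dih a 1 x).1.mulVec v ∈ Bcone := by
  apply dih_inv_gen
  rintro v w ⟨h1, h2, h3⟩ e1 (⟨e2, e3⟩ | ⟨e2, e3⟩)
  · exact ⟨by rw [e1]; exact h1, by rw [e1, e2]; exact h2, by rw [e1, e3]; exact h3⟩
  · exact ⟨by rw [e1]; exact h1, by rw [e1, e2]; exact h3, by rw [e1, e3]; exact h2⟩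

/-- An auxiliary closed invariant set. -/
def Kcone (κ : ℝ) : Set (Fin 4 → ℝ) :=
  {v | 0 ≤ v 0 * v 1 ∧ v 2 ^ 2 ≤ κ * (v 0 * v 1) ∧ v 3 ^ 2 ≤ κ * (v 0 * v 1)}

theorem Kcone_scale (κ : ℝ) : ScaleInv (Kcone κ) := by
  rintro v ⟨h1, h2, h3⟩ c hc
  have hc2 : 0 < c ^ 2 := by positivity
  have e : (c • v) 0 * (c • v) 1 = c ^ 2 * (v 0 * v 1) := by
    simp only [Pi.smul_apply, smul_eq_mul]; ring
  refine ⟨?_, ?_, ?_⟩
  · rw [e]; positivity
  · rw [e]
    simp only [Pi.smul_apply, smul_eq_mul, mul_pow]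
    rw [mul_left_comm]
    exact mul_le_mul_of_nonneg_left h2 hc2.le
  · rw [e]
    simp only [Pi.smul_apply, smul_eq_mul, mul_pow]
    rw [mul_left_comm]
    exact mul_le_mul_of_nonneg_left h3 hc2.le

theorem isClosed_Kcone (κ : ℝ) : IsClosed (Kcone κ) := by
  have c0 : Continuous (fun v : Fin 4 → ℝ => v 0) := continuous_apply 0
  have c1 : Continuous (fun v : Fin 4 → ℝ => v 1) := continuous_apply 1
  have c2 : Continuous (fun v : Fin 4 → ℝ => v 2) := continuous_apply 2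
  have c3 : Continuous (fun v : Fin 4 → ℝ => v 3) := continuous_apply 3
  exact (isClosed_le continuous_const (c0.mul c1)).inter
    ((isClosed_le (c2.pow 2) (continuous_const.mul (c0.mul c1))).inter
      (isClosed_le (c3.pow 2) (continuous_const.mul (c0.mul c1))))

theorem Kcone_inv (a : ℝˣ) (κ : ℝ) :
    ∀ x, ∀ v ∈ Kcone κ, (dih a 1 x).1.mulVec v ∈ Kcone κ := by
  apply dih_inv_gen
  rintro v w ⟨h1, h2, h3⟩ e1 (⟨e2, e3⟩ | ⟨e2, e3⟩)
  · exact ⟨by rw [e1]; exact h1, by rw [e1, e2]; exact h2, by rw [e1, e3]; exact h3⟩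
  · exact ⟨by rw [e1]; exact h1, by rw [e1, e2]; exact h3, by rw [e1, e3]; exact h2⟩

theorem limit_sub {v : Fin 4 → ℝ} (hv : v ≠ 0)
    (h : Projectivization.mk ℝ v hv ∈ orbitalLimitSet (std two 1).range (PS Bcone)) :
    v 0 * v 1 = 0 ∧ v 2 = 0 ∧ v 3 = 0 := by
  obtain ⟨hfr, x, hx, hacc⟩ := h
  have hnot : v ∉ Bcone := by
    intro hB
    have hopen : IsOpen (PS Bcone) :=
      isOpen_of_cone _ _ isOpen_Bcone (fun v hv => mk_mem_PS Bcone_scale hv)
    rw [hopen.frontier_eq] at hfr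
    exact hfr.2 ((mk_mem_PS Bcone_scale hv).2 hB)
  induction x with
  | h w hw =>
    rw [mk_mem_PS Bcone_scale] at hx
    obtain ⟨w1, w2, w3⟩ := hx
    set κ := max (w 2 ^ 2) (w 3 ^ 2) / (w 0 * w 1) with hκ
    have hκ1 : κ < 1 := by
      rw [hκ, div_lt_one w1]
      exact max_lt w2 w3
    have hwK : w ∈ Kcone κ := by
      have e : κ * (w 0 * w 1) = max (w 2 ^ 2) (w 3 ^ 2) := by
        rw [hκ]; exact div_mul_cancel₀ _ w1.ne'
      refine ⟨w1.le, ?_, ?_⟩
      · rw [e]; exact le_max_left _ _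
      · rw [e]; exact le_max_right _ _
    have hclosed : IsClosed (PS (Kcone κ)) :=
      isClosed_of_cone _ _ (isClosed_Kcone κ) (fun v hv => mk_mem_PS (Kcone_scale κ) hv)
    have hsub : {q | ∃ g ∈ (std two 1).range, q = g • Projectivization.mk ℝ w hw} ⊆
        PS (Kcone κ) := by
      rintro q ⟨g, hg, rfl⟩
      exact preserves_PS (Kcone_scale κ) (Kcone_inv two κ) g hg _
        ((mk_mem_PS (Kcone_scale κ) hw).2 hwK)
    have hcl : Projectivization.mk ℝ v hv ∈ closure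
        {q | ∃ g ∈ (std two 1).range, q = g • Projectivization.mk ℝ w hw} :=
      mem_closure_iff_clusterPt.2 hacc.clusterPt
    have hvK := (mk_mem_PS (Kcone_scale κ) hv).1 (closure_minimal hsub hclosed hcl)
    obtain ⟨k1, k2, k3⟩ := hvK
    have k0 : v 0 * v 1 = 0 := by
      by_contra hne
      have hpos : 0 < v 0 * v 1 := lt_of_le_of_ne k1 (Ne.symm hne)
      apply hnot
      refine ⟨hpos, ?_, ?_⟩ <;> nlinarith
    rw [k0] at k2 k3
    refine ⟨k0, ?_, ?_⟩ <;> nlinarith [sq_nonneg (v 2), sq_nonneg (v 3)]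

/-- First basis vector. -/
def ee0 : Fin 4 → ℝ := ![1, 0, 0, 0]

/-- Second basis vector. -/
def ee1 : Fin 4 → ℝ := ![0, 1, 0, 0]

theorem ee0_ne : ee0 ≠ 0 := by
  intro h
  have := congrFun h 0
  simp [ee0] at this

theorem ee1_ne : ee1 ≠ 0 := by
  intro h
  have := congrFun h 1
  simp [ee1] at this

/-- The orbit of the axis point. -/
theorem limit_of_closure {v : Fin 4 → ℝ} (hv : v ≠ 0) (hv0 : v 0 * v 1 = 0)
    (h : v ∈ closure {w : Fin 4 → ℝ | ∃ k : ℤ, ∃ c : ℝ, c ≠ 0 ∧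
      w = c • (![((2 : ℝ) ^ 2) ^ k, 1, 0, 0] : Fin 4 → ℝ)}) :
    Projectivization.mk ℝ v hv ∈ orbitalLimitSet (std two 1).range (PS Bcone) := by
  have hopen : IsOpen (PS Bcone) :=
    isOpen_of_cone _ _ isOpen_Bcone (fun v hv => mk_mem_PS Bcone_scale hv)
  have hax : axis 1 ∈ PS Bcone := by
    unfold axis
    rw [mk_mem_PS Bcone_scale]
    refine ⟨?_, ?_, ?_⟩ <;> simp
  have hpres : Preserves (std two 1).range (PS Bcone) :=
    preserves_PS Bcone_scale (Bcone_inv two)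
  have hnot : Projectivization.mk ℝ v hv ∉ PS Bcone := by
    rw [mk_mem_PS Bcone_scale]
    rintro ⟨h1, -⟩
    rw [hv0] at h1
    exact lt_irrefl _ h1
  have hcl : Projectivization.mk ℝ v hv ∈ closure
      {q | ∃ g ∈ (std two 1).range, q = g • axis 1} := by
    rw [mk_mem_closure_iff]
    apply closure_mono _ h
    rintro w ⟨k, c, hc, rfl⟩
    have hne : c • (![((2 : ℝ) ^ 2) ^ k, 1, 0, 0] : Fin 4 → ℝ) ≠ 0 :=
      smul_ne_zero hc (axis_ne _)
    refine ⟨hne, ?_⟩
    rw [mk_smul_eq (axis_ne _) hc hne]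
    refine ⟨std two 1 (DihedralGroup.r 1 ^ k), ⟨_, rfl⟩, ?_⟩
    rw [std_zpow_axis, mul_one]
    rfl
  have hsub : {q | ∃ g ∈ (std two 1).range, q = g • axis 1} ⊆ PS Bcone := by
    rintro q ⟨g, hg, rfl⟩
    exact hpres g hg _ hax
  refine ⟨?_, axis 1, hax, ?_⟩
  · rw [hopen.frontier_eq]
    exact ⟨closure_mono hsub hcl, hnot⟩
  · exact (accPt_iff_mem_closure (fun h => hnot (hsub h))).2 hcl

theorem ee0_limit : Projectivization.mk ℝ ee0 ee0_ne ∈
    orbitalLimitSet (std two 1).range (PS Bcone) := by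
  apply limit_of_closure ee0_ne (by simp [ee0])
  have ht : Tendsto (fun n : ℕ => (![1, ((1 : ℝ) / 4) ^ n, 0, 0] : Fin 4 → ℝ)) atTop
      (𝓝 ee0) := by
    rw [tendsto_pi_nhds]
    intro i
    fin_cases i
    · simp [ee0]
    · simpa [ee0] using tendsto_pow_atTop_nhds_zero_of_lt_one (r := (1 / 4 : ℝ))
        (by norm_num) (by norm_num)
    · simp [ee0]
    · simp [ee0]
  apply mem_closure_of_tendsto ht
  filter_upwards with n
  refine ⟨n, (1 / 4) ^ n, by positivity, ?_⟩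
  funext i
  fin_cases i
  · simp
    rw [← inv_pow, ← mul_pow]
    norm_num
  · simp
  · simp
  · simp

theorem ee1_limit : Projectivization.mk ℝ ee1 ee1_ne ∈
    orbitalLimitSet (std two 1).range (PS Bcone) := by
  apply limit_of_closure ee1_ne (by simp [ee1])
  have ht : Tendsto (fun n : ℕ => (![((1 : ℝ) / 4) ^ n, 1, 0, 0] : Fin 4 → ℝ)) atTop
      (𝓝 ee1) := by
    rw [tendsto_pi_nhds]
    intro i
    fin_cases i
    · simpa [ee1] using tendsto_pow_atTop_nhds_zero_of_lt_one (r := (1 / 4 : ℝ))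
        (by norm_num) (by norm_num)
    · simp [ee1]
    · simp [ee1]
    · simp [ee1]
  apply mem_closure_of_tendsto ht
  filter_upwards with n
  refine ⟨-n, 1, one_ne_zero, ?_⟩
  rw [one_smul]
  congr 1
  rw [zpow_neg, zpow_natCast, ← inv_pow]
  norm_num

theorem core_eq : convexCore φ0 (std two 1).range (PS Bcone) = PS Acone := by
  ext p
  constructor
  · rintro ⟨hp, v, hv, hne, rfl⟩
    rw [mk_mem_PS Bcone_scale] at hp
    rw [mk_mem_PS Acone_scale]
    have hsub : slice φ0 (orbitalLimitSet (std two 1).range (PS Bcone)) ⊆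
        {v | v 2 = 0 ∧ v 3 = 0} := by
      rintro w ⟨-, hw, hw2⟩
      exact (limit_sub hw hw2).2
    have hconv : Convex ℝ {v : Fin 4 → ℝ | v 2 = 0 ∧ v 3 = 0} := by
      rintro x ⟨x2, x3⟩ y ⟨y2, y3⟩ s t hs ht hst
      constructor
      · simp [x2, y2]
      · simp [x3, y3]
    have := convexHull_min hsub hconv hv
    exact ⟨hp.1, this.1, this.2⟩
  · intro hp
    induction p with
    | h v hv =>
      rw [mk_mem_PS Acone_scale] at hp
      obtain ⟨h1, h2, h3⟩ := hp
      refine ⟨?_, ?_⟩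
      · rw [mk_mem_PS Bcone_scale]
        refine ⟨h1, ?_, ?_⟩
        · rw [h2]; simpa using h1
        · rw [h3]; simpa using h1
      · have hs : v 0 + v 1 ≠ 0 := by
          intro h
          have : v 1 = - v 0 := by linarith
          rw [this] at h1
          nlinarith [sq_nonneg (v 0)]
        have h00 : 0 ≤ v 0 / (v 0 + v 1) ∧ 0 ≤ v 1 / (v 0 + v 1) := by
          rcases pos_and_pos_or_neg_and_neg_of_mul_pos h1 with h | h
          · have := h.1
            have := h.2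
            constructor <;> positivity
          · have := h.1
            have := h.2
            constructor
            · apply div_nonneg_of_nonpos <;> linarith
            · apply div_nonneg_of_nonpos <;> linarith
        refine ⟨(v 0 / (v 0 + v 1)) • ee0 + (v 1 / (v 0 + v 1)) • ee1, ?_, ?_⟩
        · apply (convex_convexHull ℝ _) _ _ h00.1 h00.2
          · rw [← add_div, div_self hs]
          · apply subset_convexHull
            exact ⟨by rw [φ0_apply]; simp [ee0], ee0_ne, ee0_limit⟩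
          · apply subset_convexHull
            exact ⟨by rw [φ0_apply]; simp [ee1], ee1_ne, ee1_limit⟩
        · have e : (v 0 / (v 0 + v 1)) • ee0 + (v 1 / (v 0 + v 1)) • ee1 =
              (v 0 + v 1)⁻¹ • v := by
            funext i
            fin_cases i
            · simp [ee0, ee1]; field_simp
            · simp [ee0, ee1]; field_simp
            · simp [ee0, ee1, h2]
            · simp [ee0, ee1, h3]
          rw [e]
          have hne : (v 0 + v 1)⁻¹ • v ≠ 0 := smul_ne_zero (inv_ne_zero hs) hv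
          exact ⟨hne, mk_smul_eq hv (inv_ne_zero hs) hne⟩

/-- The base group is convex cocompact. -/
theorem base_cc : ConvexCocompact (std two 1).range := by
  have h2 : 1 < (two : ℝ) := by rw [two_val]; norm_num
  have h1 : (1 : ℝ) ≤ ((1 : ℝˣ) : ℝ) := by simp
  refine ⟨std_infinite h2 h1, std_discrete h2 h1, PS Bcone, ?_, ?_, ?_, φ0,
    ⟨closure_Bcone, slice_Bcone⟩, ?_, ?_⟩
  · obtain ⟨p, hp⟩ := axis_nonempty
    rw [← core_eq] at hp
    exact ⟨p, hp.1⟩
  · exact isOpen_of_cone _ _ isOpen_Bcone (fun v hv => mk_mem_PS Bcone_scale hv)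
  · exact preserves_PS Bcone_scale (Bcone_inv two)
  · rw [core_eq]; exact axis_nonempty
  · rw [core_eq]; exact cocompact_axis h2

end Pool.Agent.H138R3.NC
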