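import Pool.Agent.H138R3.NCOmega

/-!
# Conjugation invariance and normal forms
-/

set_option autoImplicit false
set_option linter.unusedSectionVars false
set_option linter.unusedVariables false

namespace Pool.Agent.H138R3.NC

open scoped LinearAlgebra.Projectivization MatrixGroups Topology
open Filter

section general

variable {ι : Type} [Fintype ι] [DecidableEq ι]

theorem pgl_smul_mk' (g : GL ι ℝ) {v : ι → ℝ} (hv : v ≠ 0) :
    (Matrix.ProjGenLinGroup.mk g : PGL(ι, ℝ)) • Projectivization.mk ℝ v hv =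
      Projectivization.mk ℝ (g.1.mulVec v) (mulVec_ne_zero g hv) := rfl

/-- Conjugation by an element of `PGL`. -/
def cj (q : PGL(ι, ℝ)) : PGL(ι, ℝ) →* PGL(ι, ℝ) := (MulAut.conj q).toMonoidHom

theorem cj_apply (q g : PGL(ι, ℝ)) : cj q g = q * g * q⁻¹ := rfl

theorem cj_injective (q : PGL(ι, ℝ)) : Function.Injective (cj q) := (MulAut.conj q).injective

theorem slice_conj (Q : GL ι ℝ) (φ : (ι → ℝ) →ₗ[ℝ] ℝ) (S : Set (ℙ ℝ (ι → ℝ))) :
    slice (φ.comp (Matrix.mulVecLin (Q⁻¹).1)) {p | (Matrix.ProjGenLinGroup.mk Q)⁻¹ • p ∈ S} =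
      (Matrix.mulVecLin (Q⁻¹).1) ⁻¹' (slice φ S) := by
  ext v
  simp only [slice, Set.mem_setOf_eq, Set.mem_preimage, LinearMap.comp_apply,
    Matrix.mulVecLin_apply]
  constructor
  · rintro ⟨h1, hv, h2⟩
    refine ⟨h1, mulVec_ne_zero Q⁻¹ hv, ?_⟩
    rw [← map_inv, pgl_smul_mk'] at h2
    exact h2
  · rintro ⟨h1, hv, h2⟩
    have hv' : v ≠ 0 := by
      rintro rfl
      apply hv
      exact Matrix.mulVec_zero _
    refine ⟨h1, hv', ?_⟩
    rw [← map_inv, pgl_smul_mk']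
    exact h2

theorem naive_conj {Γ : Subgroup (PGL(ι, ℝ))} (h : NaivelyConvexCocompact Γ)
    (q : PGL(ι, ℝ)) : NaivelyConvexCocompact (Γ.map (cj q)) := by
  obtain ⟨Q, rfl⟩ := Matrix.ProjGenLinGroup.mk_surjective q
  set q : PGL(ι, ℝ) := Matrix.ProjGenLinGroup.mk Q with hq
  obtain ⟨hinf, hdisc, Ω, φ, hΩ, ⟨hcl, hconv⟩, hpres, C, hCΩ, hCne, ⟨F, hF, hFC⟩, hCconv,
    hCpres, K, hKC, hK, hKcov⟩ := h
  have hpre : ∀ S : Set (ℙ ℝ (ι → ℝ)), Preserves Γ S →
      Preserves (Γ.map (cj q)) {p | q⁻¹ • p ∈ S} := by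
    rintro S hS _ ⟨g, hg, rfl⟩ p hp
    show q⁻¹ • (cj q g • p) ∈ S
    rw [cj_apply, smul_smul]
    have : q⁻¹ * (q * g * q⁻¹) = g * q⁻¹ := by group
    rw [this, mul_smul]
    exact hS g hg _ hp
  refine ⟨?_, ?_, {p | q⁻¹ • p ∈ Ω}, φ.comp (Matrix.mulVecLin (Q⁻¹).1), ?_, ⟨?_, ?_⟩,
    hpre Ω hpres, {p | q⁻¹ • p ∈ C}, ?_, ?_, ⟨{p | q⁻¹ • p ∈ F}, ?_, ?_⟩, ?_,
    hpre C hCpres, {p | q⁻¹ • p ∈ K}, ?_, ?_, ?_⟩
  · exact (Γ.equivMapOfInjective (cj q) (cj_injective q)).toEquiv.infinite_iff.1 hinf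
  · obtain ⟨U, hU, h1, h⟩ := isolated_of_discrete Γ hdisc
    apply discrete_of_isolated _ {g | q⁻¹ * (g * q) ∈ U}
    · exact hU.preimage ((continuous_mul_left_PGL q⁻¹).comp (continuous_mul_right_PGL q))
    · simpa using h1
    · rintro _ ⟨g, hg, rfl⟩ hgU
      have e : q⁻¹ * (cj q g * q) = g := by
        rw [cj_apply]; group
      rw [Set.mem_setOf_eq, e] at hgU
      rw [h g hg hgU, map_one]
  · exact hΩ.preimage (continuous_pgl_smul q⁻¹)
  · have e : closure {p | q⁻¹ • p ∈ Ω} = (smulHomeo q⁻¹) ⁻¹' (closure Ω) :=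
      ((smulHomeo q⁻¹).preimage_closure Ω).symm
    rw [e]
    intro p hp
    have := hcl hp
    induction p with
    | h v hv =>
      rw [mk_mem_chart]
      have e2 : smulHomeo q⁻¹ (Projectivization.mk ℝ v hv) =
          Projectivization.mk ℝ ((Q⁻¹).1.mulVec v) (mulVec_ne_zero Q⁻¹ hv) := by
        show q⁻¹ • (Projectivization.mk ℝ v hv) = _
        rw [hq, ← map_inv, pgl_smul_mk']
      rw [e2, mk_mem_chart] at this
      exact this
  · rw [slice_conj]
    exact hconv.linear_preimage _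
  · intro p hp
    exact hCΩ hp
  · obtain ⟨p, hp⟩ := hCne
    exact ⟨q • p, by simpa using hp⟩
  · exact hF.preimage (continuous_pgl_smul q⁻¹)
  · ext p
    rw [hFC]
    rfl
  · rw [slice_conj]
    exact hCconv.linear_preimage _
  · intro p hp
    exact hKC hp
  · have : {p | q⁻¹ • p ∈ K} = (smulHomeo q) '' K := by
      ext p
      constructor
      · intro hp
        exact ⟨_, hp, smul_inv_smul q p⟩
      · rintro ⟨x, hx, rfl⟩
        show q⁻¹ • (q • x) ∈ K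
        rwa [inv_smul_smul]
    rw [this]
    exact hK.image (smulHomeo q).continuous
  · intro p hp
    obtain ⟨g, hg, hgK⟩ := hKcov _ hp
    refine ⟨cj q g, ⟨g, hg, rfl⟩, ?_⟩
    show q⁻¹ • (cj q g • p) ∈ K
    rw [cj_apply, smul_smul]
    have : q⁻¹ * (q * g * q⁻¹) = g * q⁻¹ := by group
    rw [this, mul_smul]
    exact hgK

end general

/-- Faithful with naively convex cocompact image. -/
def Good (φ : DihedralGroup 0 →* PGL(Fin 4, ℝ)) : Prop :=
  Function.Injective φ ∧ NaivelyConvexCocompact φ.range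

theorem Good.conj {φ : DihedralGroup 0 →* PGL(Fin 4, ℝ)} (h : Good φ) (q : PGL(Fin 4, ℝ)) :
    Good ((cj q).comp φ) := by
  refine ⟨(cj_injective q).comp h.1, ?_⟩
  rw [MonoidHom.range_comp]
  exact naive_conj h.2 q

/-- The block swap. -/
def Pm : Matrix (Fin 4) (Fin 4) ℝ := !![0, 0, 1, 0; 0, 0, 0, 1; 1, 0, 0, 0; 0, 1, 0, 0]

theorem Pm_sq : Pm * Pm = 1 := by
  ext i j
  fin_cases i <;> fin_cases j <;> simp [Pm, Matrix.mul_apply, Fin.sum_univ_four]

/-- The block swap as an element of `GL`. -/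
def gP : GL (Fin 4) ℝ := ⟨Pm, Pm, Pm_sq, Pm_sq⟩

theorem gP_gT : gP * gT * gP⁻¹ = gT := by
  apply Units.ext
  show Pm * Tm0 * Pm = Tm0
  ext i j
  fin_cases i <;> fin_cases j <;> simp [Pm, Tm0, Matrix.mul_apply, Fin.sum_univ_four]

theorem gP_gG (a b : ℝˣ) : gP * gG a b * gP⁻¹ =
    gG b a * Matrix.GeneralLinearGroup.scalar (Fin 4) (-1) := by
  apply Units.ext
  show Pm * Matrix.diagonal (fun i => (uu a b i : ℝ)) * Pm =
    Matrix.diagonal (fun i => (uu b a i : ℝ)) *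
      (Matrix.GeneralLinearGroup.scalar (Fin 4) (-1 : ℝˣ)).1
  rw [Matrix.GeneralLinearGroup.coe_scalar]
  ext i j
  rw [Matrix.mul_apply, Fin.sum_univ_four]
  simp only [Matrix.mul_diagonal]
  fin_cases i <;> fin_cases j <;>
    simp [Pm, uu, Matrix.diagonal, Matrix.scalar, Matrix.mul_apply, Fin.sum_univ_four, inv_neg]

theorem std_swap (a b : ℝˣ) : (cj (Matrix.ProjGenLinGroup.mk gP)).comp (std a b) = std b a := by
  apply dih_ext
  · rw [MonoidHom.comp_apply, cj_apply]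
    have e1 : std a b (.r 1) = Matrix.ProjGenLinGroup.mk (gG a b) := by
      show Matrix.ProjGenLinGroup.mk (gG a b ^ (1 : ℤ)) = _
      rw [zpow_one]
    have e2 : std b a (.r 1) = Matrix.ProjGenLinGroup.mk (gG b a) := by
      show Matrix.ProjGenLinGroup.mk (gG b a ^ (1 : ℤ)) = _
      rw [zpow_one]
    rw [e1, e2, ← map_inv, ← map_mul, ← map_mul, gP_gG]
    exact (Matrix.ProjGenLinGroup.mk_eq_mk_iff.2 ⟨-1, rfl⟩).symm
  · rw [MonoidHom.comp_apply, cj_apply]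
    have e1 : ∀ a b : ℝˣ, std a b (.sr 0) = Matrix.ProjGenLinGroup.mk gT := by
      intro a b
      show Matrix.ProjGenLinGroup.mk (gT * gG a b ^ (0 : ℤ)) = _
      rw [zpow_zero, mul_one]
    rw [e1, e1, ← map_inv, ← map_mul, ← map_mul, gP_gT]

theorem good_std {a b : ℝˣ} (ha : 1 < (a : ℝ)) (hb : 1 < (b : ℝ)) : Good (std a b) := by
  rcases le_total (b : ℝ) a with h | h
  · exact ⟨std_injective ha hb.le, naive_std ha hb.le h⟩
  · rw [← std_swap b a]
    exact Good.conj ⟨std_injective hb ha.le, naive_std hb ha.le h⟩ _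

/-! ### Normal form of nearby representations -/

theorem exists_conj {t t' : GL (Fin 4) ℝ} (ht : t * t = 1) (ht' : t' * t' = 1)
    (h1 : ((3 / 2 : ℝ) • (1 : Matrix (Fin 4) (Fin 4) ℝ) - (t * t').1).det < 0)
    (h2 : 0 < ((3 : ℝ) • (1 : Matrix (Fin 4) (Fin 4) ℝ) - (t * t').1).det)
    (h3 : ((-(3 / 2) : ℝ) • (1 : Matrix (Fin 4) (Fin 4) ℝ) - (t * t').1).det < 0)
    (h4 : 0 < ((-3 : ℝ) • (1 : Matrix (Fin 4) (Fin 4) ℝ) - (t * t').1).det) :
    ∃ (a b : ℝˣ) (Q : GL (Fin 4) ℝ), 1 < (a : ℝ) ∧ 1 < (b : ℝ) ∧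
      Q * gT * Q⁻¹ = t ∧ Q * gG a b * Q⁻¹ = t * t' := by
  set G := t * t' with hG
  have hcont : Continuous (fun x : ℝ => (x • (1 : Matrix (Fin 4) (Fin 4) ℝ) - G.1).det) := by
    apply Continuous.matrix_det
    fun_prop
  obtain ⟨l, ⟨hl1, hl2⟩, hl⟩ := intermediate_value_Ioo (a := (3 / 2 : ℝ)) (b := 3) (by norm_num)
    hcont.continuousOn ⟨h1, h2⟩
  obtain ⟨m, ⟨hm1, hm2⟩, hm⟩ := intermediate_value_Ioo' (a := (-3 : ℝ)) (b := -(3 / 2))
    (by norm_num) hcont.continuousOn ⟨h3, h4⟩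
  have eig : ∀ x : ℝ, (x • (1 : Matrix (Fin 4) (Fin 4) ℝ) - G.1).det = 0 →
      ∃ v : Fin 4 → ℝ, v ≠ 0 ∧ G.1.mulVec v = x • v := by
    intro x hx
    obtain ⟨v, hv, e⟩ := Matrix.exists_mulVec_eq_zero_iff.2 hx
    refine ⟨v, hv, ?_⟩
    rw [Matrix.sub_mulVec, Matrix.smul_mulVec, Matrix.one_mulVec, sub_eq_zero] at e
    exact e.symm
  obtain ⟨v, hv, ev⟩ := eig l hl
  obtain ⟨w, hw, ew⟩ := eig m hm
  have l0 : l ≠ 0 := by linarith
  have m0 : m ≠ 0 := by linarith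
  -- the conjugate eigenvectors
  have tGt : G * t * G = t := by
    rw [hG]
    have h5 : t' * t * t * t' = 1 := by
      rw [mul_assoc t', ht, mul_one, ht']
    calc t * t' * t * (t * t') = t * (t' * t * t * t') := by group
      _ = t := by rw [h5, mul_one]
  have inv : ∀ (x : ℝ) (u : Fin 4 → ℝ), x ≠ 0 → G.1.mulVec u = x • u →
      G.1.mulVec (t.1.mulVec u) = x⁻¹ • (t.1.mulVec u) := by
    intro x u hx hu
    have e1 : (G * t * G).1.mulVec u = t.1.mulVec u := by rw [tGt]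
    rw [Units.val_mul, Units.val_mul, ← Matrix.mulVec_mulVec, hu, Matrix.mulVec_smul,
      ← Matrix.mulVec_mulVec] at e1
    rw [eq_inv_smul_iff₀ hx]
    exact e1
  have ev' := inv l v l0 ev
  have ew' := inv m w m0 ew
  have tt : ∀ u : Fin 4 → ℝ, t.1.mulVec (t.1.mulVec u) = u := by
    intro u
    rw [Matrix.mulVec_mulVec, ← Units.val_mul, ht, Units.val_one, Matrix.one_mulVec]
  set vv : Fin 4 → (Fin 4 → ℝ) := ![v, t.1.mulVec v, w, t.1.mulVec w] with hvv
  set mu : Fin 4 → ℝ := ![l, l⁻¹, m, m⁻¹] with hmu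
  have hGv : ∀ i, G.1.mulVec (vv i) = mu i • vv i := by
    intro i
    fin_cases i
    · exact ev
    · exact ev'
    · exact ew
    · exact ew'
  have hvne : ∀ i, vv i ≠ 0 := by
    intro i
    fin_cases i
    · exact hv
    · exact mulVec_ne_zero t hv
    · exact hw
    · exact mulVec_ne_zero t hw
  have hli : l⁻¹ < 1 := inv_lt_one_of_one_lt₀ (by linarith)
  have hli0 : 0 < l⁻¹ := inv_pos.2 (by linarith)
  have hmi : -1 < m⁻¹ := by
    have : (-m)⁻¹ < 1 := inv_lt_one_of_one_lt₀ (by linarith)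
    rw [inv_neg] at this
    linarith
  have hmi0 : m⁻¹ < 0 := inv_lt_zero.2 (by linarith)
  have hinj : Function.Injective mu := by
    intro i j hij
    fin_cases i <;> fin_cases j <;> first | rfl | (exfalso; simp [hmu] at hij; linarith)
  have hlin : LinearIndependent ℝ vv := by
    apply Module.End.eigenvectors_linearIndependent' (Matrix.mulVecLin G.1) mu hinj vv
    intro i
    rw [Module.End.hasEigenvector_iff, Module.End.mem_eigenspace_iff]
    exact ⟨hGv i, hvne i⟩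
  set Qm : Matrix (Fin 4) (Fin 4) ℝ := Matrix.of (fun i j => vv j i) with hQm
  have hcol : Qm.col = vv := rfl
  have hunit : IsUnit Qm := by
    rw [← Matrix.linearIndependent_cols_iff_isUnit, hcol]
    exact hlin
  obtain ⟨Q, hQ⟩ := hunit
  refine ⟨Units.mk0 l l0, Units.mk0 (-m) (neg_ne_zero.2 m0), Q, by simp; linarith,
    by simp; linarith, ?_, ?_⟩
  · rw [mul_inv_eq_iff_eq_mul]
    apply Units.ext
    rw [Units.val_mul, Units.val_mul, hQ]
    ext i j
    have e1 : (t.1 * Qm) i j = t.1.mulVec (vv j) i := rfl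
    rw [e1, Matrix.mul_apply, Fin.sum_univ_four]
    fin_cases j
    · simp [gT, Tm0, hQm, hvv]
    · simp [gT, Tm0, hQm, hvv, tt]
    · simp [gT, Tm0, hQm, hvv]
    · simp [gT, Tm0, hQm, hvv, tt]
  · rw [mul_inv_eq_iff_eq_mul]
    apply Units.ext
    rw [Units.val_mul, Units.val_mul, hQ]
    ext i j
    have e1 : (G.1 * Qm) i j = G.1.mulVec (vv j) i := rfl
    rw [e1, hGv j]
    have e2 : (gG (Units.mk0 l l0) (Units.mk0 (-m) (neg_ne_zero.2 m0))).1 =
        Matrix.diagonal mu := by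
      rw [gG, Dg_val]
      congr 1
      funext k
      fin_cases k <;> simp [uu, hmu, inv_neg]
    rw [e2, Matrix.mul_diagonal]
    simp [hQm, mul_comm]

end Pool.Agent.H138R3.NC
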