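import Mathlib

/-!
# Convex cocompactness in projective space: definitions

`V = ι → ℝ` is a finite-dimensional real vector space, `ℙ ℝ V` its projective space and
`PGL(ι, ℝ)` the projective general linear group (Mathlib), both with the quotient topology.
-/

set_option autoImplicit false

namespace Pool.Agent.H138R3.NC

open scoped LinearAlgebra.Projectivization MatrixGroups Topology
open Filter

variable {ι : Type} [Fintype ι] [DecidableEq ι]

/-- The quotient topology on projective space. -/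
noncomputable instance instTopProj : TopologicalSpace (ℙ ℝ (ι → ℝ)) :=
  TopologicalSpace.coinduced
    (fun v : {v : ι → ℝ // v ≠ 0} => Projectivization.mk ℝ v.1 v.2) inferInstance

/-- The quotient topology on the projective general linear group. -/
noncomputable instance instTopPGL : TopologicalSpace (PGL(ι, ℝ)) :=
  TopologicalSpace.coinduced
    (fun g : GL ι ℝ => (Matrix.ProjGenLinGroup.mk g : PGL(ι, ℝ))) inferInstance

/-- The affine chart of projective space attached to a linear functional `φ`: the points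
not lying in the hyperplane `φ = 0`. -/
def chart (φ : (ι → ℝ) →ₗ[ℝ] ℝ) : Set (ℙ ℝ (ι → ℝ)) := {p | φ p.rep ≠ 0}

/-- The part of `S` in the affine chart of `φ`, as a subset of the affine hyperplane `φ = 1`. -/
def slice (φ : (ι → ℝ) →ₗ[ℝ] ℝ) (S : Set (ℙ ℝ (ι → ℝ))) : Set (ι → ℝ) :=
  {v | φ v = 1 ∧ ∃ h : v ≠ 0, Projectivization.mk ℝ v h ∈ S}

/-- The closure of `S` lies in the affine chart of `φ` and `S` is convex in that chart. -/
def ProperlyConvexIn (φ : (ι → ℝ) →ₗ[ℝ] ℝ) (S : Set (ℙ ℝ (ι → ℝ))) : Prop :=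
  closure S ⊆ chart φ ∧ Convex ℝ (slice φ S)

/-- `Γ` preserves `S`. -/
def Preserves (Γ : Subgroup (PGL(ι, ℝ))) (S : Set (ℙ ℝ (ι → ℝ))) : Prop :=
  ∀ g ∈ Γ, ∀ p ∈ S, g • p ∈ S

/-- `Γ` acts cocompactly on the invariant set `C`: some compact subset of `C` meets every
orbit in `C`. -/
def CocompactOn (Γ : Subgroup (PGL(ι, ℝ))) (C : Set (ℙ ℝ (ι → ℝ))) : Prop :=
  ∃ K ⊆ C, IsCompact K ∧ ∀ p ∈ C, ∃ g ∈ Γ, g • p ∈ K

/-- `Γ` is naively convex cocompact: it is infinite and discrete, it preserves a properly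
convex open set `Ω` and acts cocompactly on some nonempty closed convex subset `C` of `Ω`. -/
def NaivelyConvexCocompact (Γ : Subgroup (PGL(ι, ℝ))) : Prop :=
  Infinite Γ ∧ DiscreteTopology Γ ∧
  ∃ (Ω : Set (ℙ ℝ (ι → ℝ))) (φ : (ι → ℝ) →ₗ[ℝ] ℝ),
    IsOpen Ω ∧ ProperlyConvexIn φ Ω ∧ Preserves Γ Ω ∧
    ∃ C ⊆ Ω, C.Nonempty ∧ (∃ F, IsClosed F ∧ C = F ∩ Ω) ∧ Convex ℝ (slice φ C) ∧
      Preserves Γ C ∧ CocompactOn Γ C

/-- The full orbital limit set of `Γ` in `Ω`: the accumulation points in `∂Ω` of the orbits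
of the points of `Ω`. -/
def orbitalLimitSet (Γ : Subgroup (PGL(ι, ℝ))) (Ω : Set (ℙ ℝ (ι → ℝ))) :
    Set (ℙ ℝ (ι → ℝ)) :=
  {p | p ∈ frontier Ω ∧ ∃ x ∈ Ω, AccPt p (𝓟 {q | ∃ g ∈ Γ, q = g • x})}

/-- The convex hull in `Ω` of the full orbital limit set (computed in the chart of `φ`,
which contains the closure of `Ω`). -/
def convexCore (φ : (ι → ℝ) →ₗ[ℝ] ℝ) (Γ : Subgroup (PGL(ι, ℝ)))
    (Ω : Set (ℙ ℝ (ι → ℝ))) : Set (ℙ ℝ (ι → ℝ)) :=
  {p | p ∈ Ω ∧ ∃ v ∈ convexHull ℝ (slice φ (orbitalLimitSet Γ Ω)),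
    ∃ h : v ≠ 0, Projectivization.mk ℝ v h = p}

/-- The action of `Γ` on `Ω` is convex cocompact: `Ω` is a nonempty `Γ`-invariant properly
convex open set, and the convex hull in `Ω` of the full orbital limit set is nonempty and has
compact quotient. -/
def ActsConvexCocompactly (Γ : Subgroup (PGL(ι, ℝ))) (Ω : Set (ℙ ℝ (ι → ℝ))) : Prop :=
  Ω.Nonempty ∧ IsOpen Ω ∧ Preserves Γ Ω ∧
  ∃ φ : (ι → ℝ) →ₗ[ℝ] ℝ, ProperlyConvexIn φ Ω ∧ (convexCore φ Γ Ω).Nonempty ∧
    CocompactOn Γ (convexCore φ Γ Ω)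

/-- `Γ` is convex cocompact in projective space. -/
def ConvexCocompact (Γ : Subgroup (PGL(ι, ℝ))) : Prop :=
  Infinite Γ ∧ DiscreteTopology Γ ∧ ∃ Ω, ActsConvexCocompactly Γ Ω

end Pool.Agent.H138R3.NC
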