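import Pool.Agent.H138R3.NCTop

/-!
# The representations of the infinite dihedral group
-/

set_option autoImplicit false
set_option linter.unusedSectionVars false
set_option linter.unusedVariables false

namespace Pool.Agent.H138R3.NC

open scoped LinearAlgebra.Projectivization MatrixGroups Topology
open Filter

/-- Homomorphisms out of the infinite dihedral group. -/
def dihHom {H : Type*} [Group H] (g t : H) (ht : t * t = 1) (hg : t * g * t = g⁻¹) :
    DihedralGroup 0 →* H where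
  toFun x := match x with
    | .r i => g ^ (show ℤ from i)
    | .sr i => t * g ^ (show ℤ from i)
  map_one' := by
    show g ^ (0 : ℤ) = 1
    exact zpow_zero g
  map_mul' := by
    have hti : t⁻¹ = t := inv_eq_of_mul_eq_one_left ht
    have key : ∀ k : ℤ, g ^ k * t = t * g ^ (-k) := by
      intro k
      have h1 : t * g ^ (-k) * t⁻¹ = g ^ k := by
        rw [← conj_zpow, hti, hg, inv_zpow', neg_neg]
      rw [← h1]
      group
    rintro (i | i) (j | j)
    · show g ^ (show ℤ from (i + j : ZMod 0)) = g ^ (show ℤ from i) * g ^ (show ℤ from j)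
      exact zpow_add g (show ℤ from i) (show ℤ from j)
    · show t * g ^ (show ℤ from (j - i : ZMod 0)) =
        g ^ (show ℤ from i) * (t * g ^ (show ℤ from j))
      rw [← mul_assoc, key, mul_assoc, ← zpow_add]
      congr 2
      exact sub_eq_neg_add (show ℤ from j) (show ℤ from i)
    · show t * g ^ (show ℤ from (i + j : ZMod 0)) =
        t * g ^ (show ℤ from i) * g ^ (show ℤ from j)
      rw [mul_assoc, ← zpow_add]
      rfl
    · show g ^ (show ℤ from (j - i : ZMod 0)) =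
        t * g ^ (show ℤ from i) * (t * g ^ (show ℤ from j))
      rw [mul_assoc, ← mul_assoc (g ^ _) t, key, mul_assoc, ← mul_assoc t t, ht, one_mul,
        ← zpow_add]
      congr 1
      exact sub_eq_neg_add (show ℤ from j) (show ℤ from i)

theorem dihHom_r {H : Type*} [Group H] (g t : H) (ht : t * t = 1) (hg : t * g * t = g⁻¹)
    (k : ℤ) : dihHom g t ht hg (.r (k : ZMod 0)) = g ^ k := rfl

theorem dihHom_sr {H : Type*} [Group H] (g t : H) (ht : t * t = 1) (hg : t * g * t = g⁻¹)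
    (k : ℤ) : dihHom g t ht hg (.sr (k : ZMod 0)) = t * g ^ k := rfl

theorem dih_cases (x : DihedralGroup 0) :
    ∃ k : ℤ, x = DihedralGroup.r 1 ^ k ∨ x = DihedralGroup.sr 0 * DihedralGroup.r 1 ^ k := by
  rcases x with i | i
  · refine ⟨(show ℤ from i), Or.inl ?_⟩
    rw [DihedralGroup.r_one_zpow]
    rfl
  · refine ⟨(show ℤ from i), Or.inr ?_⟩
    rw [DihedralGroup.r_one_zpow, DihedralGroup.sr_mul_r, zero_add]
    rfl

theorem dih_ext {H : Type*} [Group H] {φ ψ : DihedralGroup 0 →* H}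
    (h1 : φ (.r 1) = ψ (.r 1)) (h2 : φ (.sr 0) = ψ (.sr 0)) : φ = ψ := by
  ext x
  obtain ⟨k, rfl | rfl⟩ := dih_cases x
  · rw [map_zpow, map_zpow, h1]
  · rw [map_mul, map_mul, map_zpow, map_zpow, h1, h2]

/-! ### Matrices -/

/-- Invertible diagonal matrices. -/
noncomputable def Dg : (Fin 4 → ℝˣ) →* GL (Fin 4) ℝ where
  toFun u := ⟨Matrix.diagonal (fun i => (u i : ℝ)), Matrix.diagonal (fun i => ((u i)⁻¹ : ℝˣ)),
    by rw [Matrix.diagonal_mul_diagonal]; simp,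
    by rw [Matrix.diagonal_mul_diagonal]; simp⟩
  map_one' := by ext i j; simp
  map_mul' u v := by
    apply Units.ext
    simp only [Pi.mul_apply, Units.val_mul]
    rw [Matrix.diagonal_mul_diagonal]

theorem Dg_val (u : Fin 4 → ℝˣ) : (Dg u).1 = Matrix.diagonal (fun i => (u i : ℝ)) := rfl

theorem Dg_mulVec (u : Fin 4 → ℝˣ) (v : Fin 4 → ℝ) :
    (Dg u).1.mulVec v = fun i => (u i : ℝ) * v i := by
  funext i
  rw [Dg_val, Matrix.mulVec_diagonal]

/-- The double swap matrix. -/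
def Tm0 : Matrix (Fin 4) (Fin 4) ℝ := !![0, 1, 0, 0; 1, 0, 0, 0; 0, 0, 0, 1; 0, 0, 1, 0]

theorem Tm0_sq : Tm0 * Tm0 = 1 := by
  ext i j
  fin_cases i <;> fin_cases j <;> simp [Tm0, Matrix.mul_apply, Fin.sum_univ_four]

/-- The double swap as an element of `GL`. -/
def gT : GL (Fin 4) ℝ := ⟨Tm0, Tm0, Tm0_sq, Tm0_sq⟩

theorem gT_sq : gT * gT = 1 := by
  apply Units.ext
  exact Tm0_sq

theorem gT_mulVec (v : Fin 4 → ℝ) : gT.1.mulVec v = ![v 1, v 0, v 3, v 2] := by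
  funext i
  fin_cases i <;> simp [gT, Tm0, Matrix.mulVec, dotProduct, Fin.sum_univ_four]

/-- The exponents `(a, a⁻¹, -b, (-b)⁻¹)`. -/
def uu (a b : ℝˣ) : Fin 4 → ℝˣ := ![a, a⁻¹, -b, (-b)⁻¹]

/-- The matrix `diag(a, a⁻¹, -b, -b⁻¹)`. -/
noncomputable def gG (a b : ℝˣ) : GL (Fin 4) ℝ := Dg (uu a b)

theorem gT_gG_gT (a b : ℝˣ) : gT * gG a b * gT = (gG a b)⁻¹ := by
  rw [gG, ← map_inv]
  apply Units.ext
  show Tm0 * Matrix.diagonal (fun i => (uu a b i : ℝ)) * Tm0 =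
    Matrix.diagonal (fun i => (((uu a b)⁻¹ i : ℝˣ) : ℝ))
  ext i j
  rw [Matrix.mul_apply, Fin.sum_univ_four]
  simp only [Matrix.mul_diagonal]
  fin_cases i <;> fin_cases j <;> simp [Tm0, uu, Matrix.diagonal]

/-- The representation into `GL`. -/
noncomputable def dih (a b : ℝˣ) : DihedralGroup 0 →* GL (Fin 4) ℝ :=
  dihHom (gG a b) gT gT_sq (gT_gG_gT a b)

/-- The representation into `PGL`. -/
noncomputable def std (a b : ℝˣ) : DihedralGroup 0 →* PGL(Fin 4, ℝ) :=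
  (Matrix.ProjGenLinGroup.mk).comp (dih a b)

theorem gG_zpow (a b : ℝˣ) (k : ℤ) : gG a b ^ k = Dg (uu a b ^ k) := by
  rw [gG, map_zpow]

theorem dih_r (a b : ℝˣ) (k : ℤ) : dih a b (DihedralGroup.r 1 ^ k) = Dg (uu a b ^ k) := by
  rw [map_zpow, ← gG_zpow]
  congr 1
  show gG a b ^ (1 : ℤ) = _
  exact zpow_one _

theorem dih_sr (a b : ℝˣ) (k : ℤ) :
    dih a b (DihedralGroup.sr 0 * DihedralGroup.r 1 ^ k) = gT * Dg (uu a b ^ k) := by
  rw [map_mul, dih_r]
  congr 1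
  show gT * gG a b ^ (0 : ℤ) = _
  rw [zpow_zero, mul_one]

/-! ### Discreteness -/

/-- A scale invariant set isolating the identity. -/
def Wset (c : ℝ) : Set (GL (Fin 4) ℝ) :=
  {M | 0 < M.1.trace * (M⁻¹).1.trace ∧ (M * M).1.trace * ((M⁻¹) * M⁻¹).1.trace < c}

theorem isOpen_Wset (c : ℝ) : IsOpen (Wset c) := by
  have h1 : Continuous (fun M : GL (Fin 4) ℝ => M.1.trace) :=
    Units.continuous_val.matrix_trace
  have h2 : Continuous (fun M : GL (Fin 4) ℝ => (M⁻¹).1.trace) := h1.comp continuous_inv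
  have h3 : Continuous (fun M : GL (Fin 4) ℝ => (M * M).1.trace) :=
    h1.comp (continuous_id.mul continuous_id)
  have h4 : Continuous (fun M : GL (Fin 4) ℝ => ((M⁻¹) * M⁻¹).1.trace) :=
    h1.comp (continuous_inv.mul continuous_inv)
  exact (isOpen_lt continuous_const (h1.mul h2)).inter
    (isOpen_lt (h3.mul h4) continuous_const)

theorem Wset_scalar {c : ℝ} {M N : GL (Fin 4) ℝ} (h : M ∈ Wset c)
    (e : (Matrix.ProjGenLinGroup.mk M : PGL(Fin 4, ℝ)) = Matrix.ProjGenLinGroup.mk N) :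
    N ∈ Wset c := by
  rw [Matrix.ProjGenLinGroup.mk_eq_mk_iff] at e
  obtain ⟨u, rfl⟩ := e
  have hv : (M * Matrix.GeneralLinearGroup.scalar (Fin 4) u).1 = (u : ℝ) • M.1 := by
    simp [Matrix.GeneralLinearGroup.coe_scalar, Matrix.mul_smul, Matrix.smul_eq_mul_diagonal]
  have hi : ((M * Matrix.GeneralLinearGroup.scalar (Fin 4) u)⁻¹).1 =
      ((u : ℝ)⁻¹) • (M⁻¹).1 := by
    have : (M * Matrix.GeneralLinearGroup.scalar (Fin 4) u)⁻¹ =
        Matrix.GeneralLinearGroup.scalar (Fin 4) u⁻¹ * M⁻¹ := by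
      rw [mul_inv_rev, map_inv]
    rw [this, Units.val_mul, Matrix.GeneralLinearGroup.coe_scalar,
      Matrix.smul_eq_diagonal_mul]
    simp
  have hu : (u : ℝ) ≠ 0 := u.ne_zero
  obtain ⟨h1, h2⟩ := h
  constructor
  · rw [hv, hi, Matrix.trace_smul, Matrix.trace_smul]
    have : (u : ℝ) • M.1.trace * (u : ℝ)⁻¹ • (M⁻¹).1.trace =
        M.1.trace * (M⁻¹).1.trace := by
      simp only [smul_eq_mul]; field_simp
    rw [this]; exact h1
  · have e1 : (M * Matrix.GeneralLinearGroup.scalar (Fin 4) u *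
        (M * Matrix.GeneralLinearGroup.scalar (Fin 4) u)).1 =
        (u : ℝ) • (u : ℝ) • (M * M).1 := by
      rw [Units.val_mul (M * _), hv, Matrix.smul_mul, Matrix.mul_smul, Units.val_mul]
    have e2 : ((M * Matrix.GeneralLinearGroup.scalar (Fin 4) u)⁻¹ *
        (M * Matrix.GeneralLinearGroup.scalar (Fin 4) u)⁻¹).1 =
        (u : ℝ)⁻¹ • (u : ℝ)⁻¹ • (M⁻¹ * M⁻¹).1 := by
      rw [Units.val_mul (M * _)⁻¹, hi, Matrix.smul_mul, Matrix.mul_smul, Units.val_mul]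
    rw [e1, e2, Matrix.trace_smul, Matrix.trace_smul, Matrix.trace_smul, Matrix.trace_smul]
    have : (u : ℝ) • (u : ℝ) • (M * M).1.trace *
        (u : ℝ)⁻¹ • (u : ℝ)⁻¹ • (M⁻¹ * M⁻¹).1.trace =
        (M * M).1.trace * (M⁻¹ * M⁻¹).1.trace := by
      simp only [smul_eq_mul]; field_simp
    rw [this]; exact h2

theorem Dg_trace (u : Fin 4 → ℝˣ) : (Dg u).1.trace = u 0 + u 1 + u 2 + u 3 := by
  rw [Dg_val, Matrix.trace_diagonal, Fin.sum_univ_four]

theorem gT_Dg_trace (u : Fin 4 → ℝˣ) : (gT * Dg u).1.trace = 0 := by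
  show (Tm0 * Matrix.diagonal (fun i => (u i : ℝ))).trace = 0
  rw [Matrix.trace, Fin.sum_univ_four]
  simp only [Matrix.diag_apply, Matrix.mul_diagonal]
  simp [Tm0]

theorem add_inv_mono {s t : ℝ} (hs : 1 ≤ s) (hst : s ≤ t) : s + s⁻¹ ≤ t + t⁻¹ := by
  have hs0 : 0 < s := by linarith
  have ht0 : 0 < t := by linarith
  have : t + t⁻¹ - (s + s⁻¹) = (t - s) * (1 - (t * s)⁻¹) := by field_simp; ring
  have h1 : (t * s)⁻¹ ≤ 1 := inv_le_one_of_one_le₀ (by nlinarith)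
  nlinarith [mul_nonneg (sub_nonneg.2 hst) (sub_nonneg.2 h1)]

theorem sq_zpow_bound {a : ℝ} (ha : 1 ≤ a) {k : ℤ} (hk : k ≠ 0) :
    a ^ 2 + (a ^ 2)⁻¹ ≤ a ^ (2 * k) + (a ^ (2 * k))⁻¹ := by
  have ha0 : 0 < a := by linarith
  rcases lt_or_gt_of_ne hk with h | h
  · have e : a ^ (2 * k) = (a ^ (2 * (-k)))⁻¹ := by
      rw [← zpow_neg]; congr 1; ring
    rw [e, inv_inv, add_comm (a ^ (2 * -k))⁻¹]
    apply add_inv_mono
    · nlinarith
    · have : a ^ 2 = a ^ (2 : ℤ) := by norm_cast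
      rw [this]
      apply zpow_le_zpow_right₀ ha
      omega
  · apply add_inv_mono
    · nlinarith
    · have : a ^ 2 = a ^ (2 : ℤ) := by norm_cast
      rw [this]
      apply zpow_le_zpow_right₀ ha
      omega

/-- Only the identity lies in the isolating set. -/
theorem eq_one_of_mem_Wset {a b : ℝˣ} (ha : 1 < (a : ℝ)) (hb : 1 ≤ (b : ℝ))
    {x : DihedralGroup 0}
    (h : dih a b x ∈ Wset (((a : ℝ) ^ 2 + ((a : ℝ) ^ 2)⁻¹ + 2) ^ 2)) : x = 1 := by
  obtain ⟨k, rfl | rfl⟩ := dih_cases x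
  · by_cases hk : k = 0
    · rw [hk, zpow_zero]
    · exfalso
      obtain ⟨-, h2⟩ := h
      rw [dih_r, ← map_inv, ← map_mul, ← map_mul, Dg_trace, Dg_trace] at h2
      have hb0 : (0 : ℝ) < b := by linarith
      have e0 : ∀ (c : ℝˣ), (((c ^ k * c ^ k : ℝˣ)) : ℝ) = (c : ℝ) ^ (2 * k) := by
        intro c
        rw [← zpow_add, Units.val_zpow_eq_zpow_val]; congr 1; ring
      have e1 : ∀ (c : ℝˣ), ((((c ^ k)⁻¹ * (c ^ k)⁻¹ : ℝˣ)) : ℝ) = ((c : ℝ) ^ (2 * k))⁻¹ := by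
        intro c
        rw [← mul_inv, Units.val_inv_eq_inv_val, e0]
      have e2 : ∀ c : ℝˣ, ((-c : ℝˣ) : ℝ) ^ (2 * k) = (c : ℝ) ^ (2 * k) := by
        intro c
        rw [Units.val_neg, zpow_mul, zpow_mul]
        norm_num
      have e3 : ∀ c : ℝˣ, ((c⁻¹ : ℝˣ) : ℝ) ^ (2 * k) = ((c : ℝ) ^ (2 * k))⁻¹ := by
        intro c
        rw [Units.val_inv_eq_inv_val, inv_zpow]
      simp only [Pi.mul_apply, Pi.pow_apply, Pi.inv_apply, uu, Matrix.cons_val_zero,
        Matrix.cons_val_one, Matrix.cons_val_two, Matrix.cons_val_three, Matrix.head_cons,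
        Matrix.tail_cons] at h2
      simp only [e0, e1] at h2
      simp only [e3, e2, inv_inv] at h2
      have h3 := sq_zpow_bound (le_of_lt ha) hk
      have h4 : 2 ≤ (b : ℝ) ^ (2 * k) + ((b : ℝ) ^ (2 * k))⁻¹ := by
        have hpos : 0 < (b : ℝ) ^ (2 * k) := zpow_pos hb0 _
        have : (b : ℝ) ^ (2 * k) + ((b : ℝ) ^ (2 * k))⁻¹ - 2 =
            ((b : ℝ) ^ (2 * k) - 1) ^ 2 * ((b : ℝ) ^ (2 * k))⁻¹ := by
          field_simp; ring
        have h5 : 0 ≤ ((b : ℝ) ^ (2 * k) - 1) ^ 2 * ((b : ℝ) ^ (2 * k))⁻¹ := by positivity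
        linarith
      have h6 : 0 < (a : ℝ) ^ 2 + ((a : ℝ) ^ 2)⁻¹ + 2 := by positivity
      generalize (a : ℝ) ^ (2 * k) = A at *
      generalize (b : ℝ) ^ (2 * k) = B at *
      generalize (a : ℝ) ^ 2 + ((a : ℝ) ^ 2)⁻¹ = Cc at *
      nlinarith
  · exfalso
    obtain ⟨h1, -⟩ := h
    rw [dih_sr, gT_Dg_trace, zero_mul] at h1
    exact lt_irrefl _ h1

theorem one_mem_Wset {a : ℝ} (ha : 1 < a) : (1 : GL (Fin 4) ℝ) ∈
    Wset ((a ^ 2 + (a ^ 2)⁻¹ + 2) ^ 2) := by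
  constructor
  · simp
  · simp only [inv_one, mul_one, Units.val_one, Matrix.trace_one, Fintype.card_fin]
    have h2 : 2 < a ^ 2 + (a ^ 2)⁻¹ := by
      have : a ^ 2 + (a ^ 2)⁻¹ - 2 = (a ^ 2 - 1) ^ 2 * (a ^ 2)⁻¹ := by field_simp; ring
      have h3 : 0 < (a ^ 2 - 1) ^ 2 * (a ^ 2)⁻¹ := by
        have : a ^ 2 - 1 ≠ 0 := by nlinarith
        positivity
      linarith
    push_cast
    nlinarith

theorem std_injective {a b : ℝˣ} (ha : 1 < (a : ℝ)) (hb : 1 ≤ (b : ℝ)) :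
    Function.Injective (std a b) := by
  rw [injective_iff_map_eq_one]
  intro x hx
  apply eq_one_of_mem_Wset ha hb
  apply Wset_scalar (one_mem_Wset ha)
  rw [map_one]
  exact hx.symm

theorem std_discrete {a b : ℝˣ} (ha : 1 < (a : ℝ)) (hb : 1 ≤ (b : ℝ)) :
    DiscreteTopology (std a b).range := by
  apply discrete_of_isolated _
    ((fun g : GL (Fin 4) ℝ => (Matrix.ProjGenLinGroup.mk g : PGL(Fin 4, ℝ))) ''
      Wset (((a : ℝ) ^ 2 + ((a : ℝ) ^ 2)⁻¹ + 2) ^ 2))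
  · exact isOpenMap_mkPGL _ (isOpen_Wset _)
  · exact ⟨1, one_mem_Wset ha, map_one _⟩
  · rintro _ ⟨x, rfl⟩ ⟨M, hM, e⟩
    have := eq_one_of_mem_Wset ha hb (Wset_scalar hM e)
    rw [this, map_one]

theorem infinite_dih : Infinite (DihedralGroup 0) := by
  have : Function.Injective (fun k : ℤ => (DihedralGroup.r (k : ZMod 0) : DihedralGroup 0)) := by
    intro i j h
    have := DihedralGroup.r.inj h
    exact this
  exact Infinite.of_injective _ this

theorem std_infinite {a b : ℝˣ} (ha : 1 < (a : ℝ)) (hb : 1 ≤ (b : ℝ)) :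
    Infinite (std a b).range := by
  have := infinite_dih
  exact Infinite.of_injective _ (MonoidHom.rangeRestrict_injective_iff.2 (std_injective ha hb))

end Pool.Agent.H138R3.NC
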