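import Pool.Agent.H138R3.NCGroup

/-!
# Naive convex cocompactness of the standard representations
-/

set_option autoImplicit false
set_option linter.unusedSectionVars false
set_option linter.unusedVariables false

namespace Pool.Agent.H138R3.NC

open scoped LinearAlgebra.Projectivization MatrixGroups Topology
open Filter

/-- The set of projective points with representatives in `A`. -/
def PS (A : Set (Fin 4 → ℝ)) : Set (ℙ ℝ (Fin 4 → ℝ)) := {p | p.rep ∈ A}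

/-- Invariance under nonzero scalars. -/
def ScaleInv (A : Set (Fin 4 → ℝ)) : Prop := ∀ v ∈ A, ∀ c : ℝ, c ≠ 0 → c • v ∈ A

theorem mk_mem_PS {A : Set (Fin 4 → ℝ)} (hA : ScaleInv A) {v : Fin 4 → ℝ} (hv : v ≠ 0) :
    Projectivization.mk ℝ v hv ∈ PS A ↔ v ∈ A := by
  obtain ⟨a, ha⟩ := Projectivization.exists_smul_eq_mk_rep ℝ v hv
  show (Projectivization.mk ℝ v hv).rep ∈ A ↔ v ∈ A
  rw [← ha, Units.smul_def]
  constructor
  · intro h
    have := hA _ h ((a : ℝ)⁻¹) (inv_ne_zero a.ne_zero)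
    rwa [smul_smul, inv_mul_cancel₀ a.ne_zero, one_smul] at this
  · intro h
    exact hA _ h _ a.ne_zero

theorem preserves_PS {A : Set (Fin 4 → ℝ)} (hA : ScaleInv A) {a b : ℝˣ}
    (h : ∀ x, ∀ v ∈ A, (dih a b x).1.mulVec v ∈ A) : Preserves (std a b).range (PS A) := by
  rintro _ ⟨x, rfl⟩ p hp
  induction p with
  | h v hv =>
    rw [mk_mem_PS hA hv] at hp
    show (Matrix.ProjGenLinGroup.mk (dih a b x) : PGL(Fin 4, ℝ)) • _ ∈ _
    rw [pgl_smul_mk (dih a b x) hv (mulVec_ne_zero _ hv), mk_mem_PS hA]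
    exact h x v hp

/-- Invariance can be checked on diagonal elements and the swap. -/
theorem dih_inv {A : Set (Fin 4 → ℝ)} {a b : ℝˣ}
    (h1 : ∀ k : ℤ, ∀ v ∈ A, (fun i => (((uu a b) ^ k) i : ℝ) * v i) ∈ A)
    (h2 : ∀ v ∈ A, ![v 1, v 0, v 3, v 2] ∈ A) :
    ∀ x, ∀ v ∈ A, (dih a b x).1.mulVec v ∈ A := by
  intro x v hv
  obtain ⟨k, rfl | rfl⟩ := dih_cases x
  · rw [dih_r, Dg_mulVec]
    exact h1 k v hv
  · rw [dih_sr, Units.val_mul, ← Matrix.mulVec_mulVec, Dg_mulVec, gT_mulVec]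
    exact h2 _ (h1 k v hv)

theorem uu_zpow_val (a b : ℝˣ) (k : ℤ) :
    (((uu a b ^ k) 0 : ℝˣ) : ℝ) = (a : ℝ) ^ k ∧ (((uu a b ^ k) 1 : ℝˣ) : ℝ) = ((a : ℝ) ^ k)⁻¹ ∧
    (((uu a b ^ k) 2 : ℝˣ) : ℝ) = (-(b : ℝ)) ^ k ∧
    (((uu a b ^ k) 3 : ℝˣ) : ℝ) = ((-(b : ℝ)) ^ k)⁻¹ := by
  refine ⟨?_, ?_, ?_, ?_⟩
  · simp [uu, Units.val_zpow_eq_zpow_val]
  · simp [uu, Units.val_zpow_eq_zpow_val]
  · simp [uu, Units.val_zpow_eq_zpow_val]
  · rw [← inv_zpow]
    simp [uu, Units.val_zpow_eq_zpow_val, inv_neg]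

/-- The functional `v 0 + v 1`. -/
noncomputable def φ0 : (Fin 4 → ℝ) →ₗ[ℝ] ℝ :=
  (LinearMap.proj 0 : (Fin 4 → ℝ) →ₗ[ℝ] ℝ) + (LinearMap.proj 1 : (Fin 4 → ℝ) →ₗ[ℝ] ℝ)

theorem φ0_apply (v : Fin 4 → ℝ) : φ0 v = v 0 + v 1 := rfl

/-- The cone of the axis. -/
def Acone : Set (Fin 4 → ℝ) := {v | 0 < v 0 * v 1 ∧ v 2 = 0 ∧ v 3 = 0}

theorem Acone_scale : ScaleInv Acone := by
  rintro v ⟨h1, h2, h3⟩ c hc
  refine ⟨?_, ?_, ?_⟩
  · have : (c • v) 0 * (c • v) 1 = c ^ 2 * (v 0 * v 1) := by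
      simp only [Pi.smul_apply, smul_eq_mul]; ring
    rw [this]; positivity
  · simp [h2]
  · simp [h3]

theorem ne_zero_of_prod {v : Fin 4 → ℝ} (h : 0 < v 0 * v 1) : v ≠ 0 := by
  rintro rfl
  simp at h

theorem Acone_inv (a b : ℝˣ) : ∀ x, ∀ v ∈ Acone, (dih a b x).1.mulVec v ∈ Acone := by
  apply dih_inv
  · rintro k v ⟨h1, h2, h3⟩
    obtain ⟨e0, e1, e2, e3⟩ := uu_zpow_val a b k
    refine ⟨?_, ?_, ?_⟩
    · simp only [e0, e1]
      have : (a : ℝ) ^ k ≠ 0 := zpow_ne_zero _ a.ne_zero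
      have : (a : ℝ) ^ k * v 0 * (((a : ℝ) ^ k)⁻¹ * v 1) = v 0 * v 1 := by field_simp
      rw [this]; exact h1
    · simp [h2]
    · simp [h3]
  · rintro v ⟨h1, h2, h3⟩
    refine ⟨?_, ?_, ?_⟩
    · simpa [mul_comm] using h1
    · simpa using h3
    · simpa using h2

theorem axis_ne (r : ℝ) : (![r, 1, 0, 0] : Fin 4 → ℝ) ≠ 0 := by
  intro h
  have := congrFun h 1
  simp at this

/-- The points of the axis. -/
noncomputable def axis (r : ℝ) : ℙ ℝ (Fin 4 → ℝ) :=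
  Projectivization.mk ℝ (![r, 1, 0, 0] : Fin 4 → ℝ) (axis_ne r)

theorem continuous_axis : Continuous axis := by
  apply continuous_mk_comp (fun r : ℝ => (![r, 1, 0, 0] : Fin 4 → ℝ))
  apply continuous_pi
  intro i
  fin_cases i <;> simp <;> fun_prop

theorem axis_mem {r : ℝ} (hr : 0 < r) : axis r ∈ PS Acone := by
  unfold axis
  rw [mk_mem_PS Acone_scale]
  exact ⟨by simpa using hr, by simp, by simp⟩

theorem exists_axis {p : ℙ ℝ (Fin 4 → ℝ)} (hp : p ∈ PS Acone) : ∃ r, 0 < r ∧ p = axis r := by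
  induction p with
  | h v hv =>
    rw [mk_mem_PS Acone_scale] at hp
    obtain ⟨h1, h2, h3⟩ := hp
    have hv1 : v 1 ≠ 0 := by rintro h; rw [h] at h1; simp at h1
    refine ⟨v 0 / v 1, ?_, ?_⟩
    · have : v 0 / v 1 = v 0 * v 1 / (v 1) ^ 2 := by field_simp
      rw [this]; positivity
    · unfold axis
      rw [Projectivization.mk_eq_mk_iff']
      refine ⟨v 1, ?_⟩
      funext i
      fin_cases i
      · simp; field_simp
      · simp
      · simp [h2]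
      · simp [h3]

theorem std_zpow_axis (a b : ℝˣ) (k : ℤ) (r : ℝ) :
    std a b (DihedralGroup.r 1 ^ k) • axis r = axis (((a : ℝ) ^ 2) ^ k * r) := by
  obtain ⟨e0, e1, e2, e3⟩ := uu_zpow_val a b k
  show (Matrix.ProjGenLinGroup.mk (dih a b (DihedralGroup.r 1 ^ k)) : PGL(Fin 4, ℝ)) • _ = _
  unfold axis
  rw [pgl_smul_mk _ (axis_ne r) (mulVec_ne_zero _ (axis_ne r)),
    Projectivization.mk_eq_mk_iff']
  refine ⟨((a : ℝ) ^ k)⁻¹, ?_⟩
  rw [dih_r, Dg_mulVec]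
  have hne : (a : ℝ) ^ k ≠ 0 := zpow_ne_zero _ a.ne_zero
  have hsq : ((a : ℝ) ^ 2) ^ k = (a : ℝ) ^ k * (a : ℝ) ^ k := by
    rw [pow_two, mul_zpow]
  funext i
  fin_cases i
  · simp only [Fin.zero_eta, e0, hsq]
    simp
    field_simp
  · simp only [Fin.mk_one, e1]
    simp
  · simp
  · simp

theorem cocompact_axis {a b : ℝˣ} (ha : 1 < (a : ℝ)) :
    CocompactOn (std a b).range (PS Acone) := by
  refine ⟨axis '' Set.Icc 1 ((a : ℝ) ^ 2), ?_, isCompact_Icc.image continuous_axis, ?_⟩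
  · rintro _ ⟨r, hr, rfl⟩
    exact axis_mem (lt_of_lt_of_le one_pos hr.1)
  · intro p hp
    obtain ⟨r, hr, rfl⟩ := exists_axis hp
    have ha2 : 1 < (a : ℝ) ^ 2 := by nlinarith
    obtain ⟨n, hn⟩ := exists_mem_Ico_zpow hr ha2
    refine ⟨std a b (DihedralGroup.r 1 ^ (-n)), ⟨_, rfl⟩, ?_⟩
    rw [std_zpow_axis]
    refine ⟨_, ⟨?_, ?_⟩, rfl⟩
    · have hpos : 0 < ((a : ℝ) ^ 2) ^ n := by positivity
      rw [zpow_neg]
      calc (1 : ℝ) = (((a : ℝ) ^ 2) ^ n)⁻¹ * ((a : ℝ) ^ 2) ^ n := by field_simp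
        _ ≤ _ := by
          apply mul_le_mul_of_nonneg_left hn.1
          positivity
    · have hpos : 0 < ((a : ℝ) ^ 2) ^ n := by positivity
      rw [zpow_neg]
      have h2 : r ≤ ((a : ℝ) ^ 2) ^ (n + 1) := le_of_lt hn.2
      rw [zpow_add_one₀ (by positivity)] at h2
      calc (((a : ℝ) ^ 2) ^ n)⁻¹ * r ≤ (((a : ℝ) ^ 2) ^ n)⁻¹ *
            (((a : ℝ) ^ 2) ^ n * (a : ℝ) ^ 2) := by
              apply mul_le_mul_of_nonneg_left h2
              positivity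
        _ = (a : ℝ) ^ 2 := by field_simp

theorem closed_axis : IsClosed (PS {v | v 2 = 0 ∧ v 3 = 0}) := by
  apply isClosed_of_cone _ {v | v 2 = 0 ∧ v 3 = 0}
  · exact (isClosed_eq (continuous_apply 2) continuous_const).inter
      (isClosed_eq (continuous_apply 3) continuous_const)
  · intro v hv
    apply mk_mem_PS
    rintro w ⟨h1, h2⟩ c hc
    exact ⟨by simp [h1], by simp [h2]⟩

theorem slice_axis : Convex ℝ (slice φ0 (PS Acone)) := by
  rintro v ⟨h1, h2, h3⟩ w ⟨h4, h5, h6⟩ s t hs ht hst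
  rw [mk_mem_PS Acone_scale] at h3 h6
  rw [φ0_apply] at h1 h4
  obtain ⟨a1, a2, a3⟩ := h3
  obtain ⟨b1, b2, b3⟩ := h6
  have hv0 : 0 < v 0 ∧ 0 < v 1 := by
    rcases pos_and_pos_or_neg_and_neg_of_mul_pos a1 with h | h
    · exact h
    · exfalso; linarith [h.1, h.2]
  have hw0 : 0 < w 0 ∧ 0 < w 1 := by
    rcases pos_and_pos_or_neg_and_neg_of_mul_pos b1 with h | h
    · exact h
    · exfalso; linarith [h.1, h.2]
  have hpos : ∀ x y : ℝ, 0 < x → 0 < y → 0 < s * x + t * y := by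
    intro x y hx hy
    rcases eq_or_lt_of_le hs with h | h
    · rw [← h] at hst ⊢; simp at hst; rw [hst]; simpa using hy
    · have : 0 ≤ t * y := by positivity
      have : 0 < s * x := by positivity
      linarith
  have hm : s • v + t • w ∈ Acone := by
    refine ⟨?_, ?_, ?_⟩
    · simp only [Pi.add_apply, Pi.smul_apply, smul_eq_mul]
      exact mul_pos (hpos _ _ hv0.1 hw0.1) (hpos _ _ hv0.2 hw0.2)
    · simp [a2, b2]
    · simp [a3, b3]
  refine ⟨?_, ne_zero_of_prod hm.1, ?_⟩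
  · rw [φ0_apply]
    simp only [Pi.add_apply, Pi.smul_apply, smul_eq_mul]
    linear_combination s * h1 + t * h4 + hst
  · rw [mk_mem_PS Acone_scale]; exact hm

end Pool.Agent.H138R3.NC
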