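import Pool.Agent.H138R3.NCConj

/-!
# A neighbourhood of naively convex cocompact representations
-/

set_option autoImplicit false
set_option linter.unusedSectionVars false
set_option linter.unusedVariables false

namespace Pool.Agent.H138R3.NC

open scoped LinearAlgebra.Projectivization MatrixGroups Topology
open Filter

/-- The unit `2`. -/
noncomputable def two : ℝˣ := Units.mk0 2 two_ne_zero

theorem two_val : (two : ℝ) = 2 := rfl

/-- A normalised characteristic polynomial of the product. -/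
noncomputable def Fd (x : ℝ) (p : GL (Fin 4) ℝ × GL (Fin 4) ℝ) : ℝ :=
  ((x * √((p.1 * p.1).1 0 0) * √((p.2 * p.2).1 0 0)) • (1 : Matrix (Fin 4) (Fin 4) ℝ) -
    (p.1 * p.2).1).det

theorem continuous_Fd (x : ℝ) : Continuous (Fd x) := by
  unfold Fd
  apply Continuous.matrix_det
  have h1 : Continuous (fun p : GL (Fin 4) ℝ × GL (Fin 4) ℝ => (p.1 * p.1).1) :=
    Units.continuous_val.comp (continuous_fst.mul continuous_fst)
  have h2 : Continuous (fun p : GL (Fin 4) ℝ × GL (Fin 4) ℝ => (p.2 * p.2).1) :=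
    Units.continuous_val.comp (continuous_snd.mul continuous_snd)
  have h3 : Continuous (fun p : GL (Fin 4) ℝ × GL (Fin 4) ℝ => (p.1 * p.2).1) :=
    Units.continuous_val.comp (continuous_fst.mul continuous_snd)
  have h4 := (h1.matrix_elem 0 0).sqrt
  have h5 := (h2.matrix_elem 0 0).sqrt
  exact (((continuous_const.mul h4).mul h5).smul continuous_const).sub h3

/-- The open set of pairs of lifts. -/
def Oset : Set (GL (Fin 4) ℝ × GL (Fin 4) ℝ) :=
  {p | 0 < (p.1 * p.1).1 0 0 ∧ 0 < (p.2 * p.2).1 0 0 ∧ Fd (3 / 2) p < 0 ∧ 0 < Fd 3 p ∧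
    Fd (-(3 / 2)) p < 0 ∧ 0 < Fd (-3) p}

theorem isOpen_Oset : IsOpen Oset := by
  have h1 : Continuous (fun p : GL (Fin 4) ℝ × GL (Fin 4) ℝ => (p.1 * p.1).1 0 0) :=
    (Units.continuous_val.comp (continuous_fst.mul continuous_fst)).matrix_elem 0 0
  have h2 : Continuous (fun p : GL (Fin 4) ℝ × GL (Fin 4) ℝ => (p.2 * p.2).1 0 0) :=
    (Units.continuous_val.comp (continuous_snd.mul continuous_snd)).matrix_elem 0 0
  exact (isOpen_lt continuous_const h1).inter ((isOpen_lt continuous_const h2).inter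
    ((isOpen_lt (continuous_Fd _) continuous_const).inter
      ((isOpen_lt continuous_const (continuous_Fd _)).inter
        ((isOpen_lt (continuous_Fd _) continuous_const).inter
          (isOpen_lt continuous_const (continuous_Fd _))))))

theorem gTG_sq (a b : ℝˣ) : (gT * gG a b) * (gT * gG a b) = 1 := by
  rw [← mul_assoc, gT_gG_gT, inv_mul_cancel]

theorem Fd_base (x : ℝ) : Fd x (gT, gT * gG two two) =
    (x - 2) * (x - 1 / 2) * (x + 2) * (x + 1 / 2) := by
  unfold Fd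
  simp only [gTG_sq, gT_sq, ← mul_assoc, one_mul]
  have : (x * √((1 : GL (Fin 4) ℝ).1 0 0) * √((1 : GL (Fin 4) ℝ).1 0 0)) = x := by simp
  have e1 : gG two two * (gT * gG two two) = gT := by
    have := gTG_sq two two
    rw [mul_assoc] at this
    calc gG two two * (gT * gG two two) = gT * gT * (gG two two * (gT * gG two two)) := by
          rw [gT_sq, one_mul]
      _ = gT * (gT * (gG two two * (gT * gG two two))) := by rw [mul_assoc]
      _ = gT := by rw [this, mul_one]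
  have e2 : gT * gG two two * gT * gG two two = 1 := by
    rw [gT_gG_gT, inv_mul_cancel]
  rw [e2, this]
  have e3 : (x • (1 : Matrix (Fin 4) (Fin 4) ℝ) - (gG two two).1) =
      Matrix.diagonal ![x - 2, x - 1 / 2, x + 2, x + 1 / 2] := by
    rw [gG, Dg_val]
    ext i j
    fin_cases i <;> fin_cases j <;>
      simp [uu, Matrix.diagonal, two, Matrix.one_apply]
  rw [e3, Matrix.det_diagonal, Fin.prod_univ_four]
  simp

theorem base_mem_Oset : (gT, gT * gG two two) ∈ Oset := by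
  refine ⟨?_, ?_, ?_, ?_, ?_, ?_⟩
  · show 0 < (gT * gT).1 0 0
    rw [gT_sq]; simp
  · show 0 < ((gT * gG two two) * (gT * gG two two)).1 0 0
    rw [gTG_sq]; simp
  · rw [Fd_base]; norm_num
  · rw [Fd_base]; norm_num
  · rw [Fd_base]; norm_num
  · rw [Fd_base]; norm_num

/-- Rescaling a lift of an involution. -/
theorem exists_involution {T : GL (Fin 4) ℝ} (h : 0 < (T * T).1 0 0)
    (hT : (Matrix.ProjGenLinGroup.mk T : PGL(Fin 4, ℝ)) * Matrix.ProjGenLinGroup.mk T = 1) :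
    ∃ (t : GL (Fin 4) ℝ) (r : ℝˣ), t * t = 1 ∧ (r : ℝ) = √((T * T).1 0 0) ∧
      T = t * Matrix.GeneralLinearGroup.scalar (Fin 4) r := by
  rw [← map_mul, ← map_one (Matrix.ProjGenLinGroup.mk (n := Fin 4) (R := ℝ))] at hT
  obtain ⟨u, hu⟩ := Matrix.ProjGenLinGroup.mk_eq_mk_iff.1 hT.symm
  rw [one_mul] at hu
  have hc : (T * T).1 0 0 = (u : ℝ) := by
    rw [← hu, Matrix.GeneralLinearGroup.coe_scalar]
    simp
  rw [hc] at h ⊢
  have hsq : 0 < √(u : ℝ) := Real.sqrt_pos.2 h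
  set r : ℝˣ := Units.mk0 (√(u : ℝ)) hsq.ne' with hr
  have hrr : r * r = u := by
    apply Units.ext
    exact Real.mul_self_sqrt h.le
  refine ⟨T * Matrix.GeneralLinearGroup.scalar (Fin 4) r⁻¹, r, ?_, rfl, ?_⟩
  · rw [mul_assoc, ← mul_assoc (Matrix.GeneralLinearGroup.scalar (Fin 4) r⁻¹) T,
      Matrix.GeneralLinearGroup.scalar_commute, mul_assoc, ← mul_assoc, ← hu, ← map_mul,
      ← map_mul, ← hrr]
    rw [← map_one (Matrix.GeneralLinearGroup.scalar (Fin 4))]
    congr 1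
    group
  · rw [mul_assoc, ← map_mul, inv_mul_cancel, map_one, mul_one]

theorem Fd_eq {T T' t t' : GL (Fin 4) ℝ} {r r' : ℝˣ} (hr : (r : ℝ) = √((T * T).1 0 0))
    (hr' : (r' : ℝ) = √((T' * T').1 0 0))
    (hT : T = t * Matrix.GeneralLinearGroup.scalar (Fin 4) r)
    (hT' : T' = t' * Matrix.GeneralLinearGroup.scalar (Fin 4) r') (x : ℝ) :
    Fd x (T, T') = ((r : ℝ) * r') ^ 4 *
      (x • (1 : Matrix (Fin 4) (Fin 4) ℝ) - (t * t').1).det := by
  unfold Fd
  simp only
  rw [← hr, ← hr']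
  have e1 : (T * T').1 = ((r : ℝ) * r') • (t * t').1 := by
    have : T * T' = Matrix.GeneralLinearGroup.scalar (Fin 4) (r * r') * (t * t') := by
      rw [hT, hT', mul_assoc, ← mul_assoc (Matrix.GeneralLinearGroup.scalar (Fin 4) r) t',
        Matrix.GeneralLinearGroup.scalar_commute, mul_assoc, ← mul_assoc, ← map_mul,
        Matrix.GeneralLinearGroup.scalar_commute]
    rw [this, Units.val_mul, Matrix.GeneralLinearGroup.coe_scalar, Units.val_mul r r',
      Matrix.smul_eq_diagonal_mul]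
    simp
  have e2 : (x * (r : ℝ) * r') • (1 : Matrix (Fin 4) (Fin 4) ℝ) =
      ((r : ℝ) * r') • (x • (1 : Matrix (Fin 4) (Fin 4) ℝ)) := by
    rw [smul_smul]
    congr 1
    ring
  rw [e1, e2, ← smul_sub, Matrix.det_smul]
  simp

theorem mk_scalar (t : GL (Fin 4) ℝ) (r : ℝˣ) :
    (Matrix.ProjGenLinGroup.mk (t * Matrix.GeneralLinearGroup.scalar (Fin 4) r) :
      PGL(Fin 4, ℝ)) = Matrix.ProjGenLinGroup.mk t :=
  (Matrix.ProjGenLinGroup.mk_eq_mk_iff.2 ⟨r, rfl⟩).symm

theorem good_of_mem {φ : DihedralGroup 0 →* PGL(Fin 4, ℝ)} {T T' : GL (Fin 4) ℝ}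
    (hO : (T, T') ∈ Oset) (h0 : φ (.sr 0) = Matrix.ProjGenLinGroup.mk T)
    (h1 : φ (.sr 1) = Matrix.ProjGenLinGroup.mk T') : Good φ := by
  obtain ⟨p1, p2, p3, p4, p5, p6⟩ := hO
  have s0 : (DihedralGroup.sr 0 : DihedralGroup 0) * .sr 0 = 1 := by
    rw [DihedralGroup.sr_mul_sr, sub_self]; rfl
  have s1 : (DihedralGroup.sr 1 : DihedralGroup 0) * .sr 1 = 1 := by
    rw [DihedralGroup.sr_mul_sr, sub_self]; rfl
  have s2 : (DihedralGroup.sr 0 : DihedralGroup 0) * .sr 1 = .r 1 := by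
    rw [DihedralGroup.sr_mul_sr, sub_zero]
  obtain ⟨t, r, ht, hr, hT⟩ := exists_involution p1 (by rw [← h0, ← map_mul, s0, map_one])
  obtain ⟨t', r', ht', hr', hT'⟩ := exists_involution p2 (by rw [← h1, ← map_mul, s1, map_one])
  replace hT : T = t * Matrix.GeneralLinearGroup.scalar (Fin 4) r := hT
  replace hT' : T' = t' * Matrix.GeneralLinearGroup.scalar (Fin 4) r' := hT'
  have hpos : 0 < ((r : ℝ) * r') ^ 4 := by
    have := r.ne_zero
    have := r'.ne_zero
    positivity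
  rw [Fd_eq hr hr' hT hT'] at p3 p4 p5 p6
  obtain ⟨a, b, Q, ha, hb, e1, e2⟩ := exists_conj ht ht' (neg_of_mul_neg_right p3 hpos.le)
    (pos_of_mul_pos_right p4 hpos.le) (neg_of_mul_neg_right p5 hpos.le)
    (pos_of_mul_pos_right p6 hpos.le)
  have key : φ = (cj (Matrix.ProjGenLinGroup.mk Q)).comp (std a b) := by
    apply dih_ext
    · rw [MonoidHom.comp_apply, cj_apply]
      have e3 : std a b (.r 1) = Matrix.ProjGenLinGroup.mk (gG a b) := by
        show Matrix.ProjGenLinGroup.mk (gG a b ^ (1 : ℤ)) = _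
        rw [zpow_one]
      rw [e3, ← map_inv, ← map_mul, ← map_mul, e2, ← s2, map_mul, h0, h1, hT, hT',
        mk_scalar, mk_scalar, map_mul]
    · rw [MonoidHom.comp_apply, cj_apply]
      have e3 : std a b (.sr 0) = Matrix.ProjGenLinGroup.mk gT := by
        show Matrix.ProjGenLinGroup.mk (gT * gG a b ^ (0 : ℤ)) = _
        rw [zpow_zero, mul_one]
      rw [e3, ← map_inv, ← map_mul, ← map_mul, e1, h0, hT, mk_scalar]
  rw [key]
  exact (good_std ha hb).conj _

/-- A neighbourhood of the pair of involutions of `std 2 2`. -/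
def Uset : Set (PGL(Fin 4, ℝ) × PGL(Fin 4, ℝ)) :=
  Prod.map (fun g : GL (Fin 4) ℝ => (Matrix.ProjGenLinGroup.mk g : PGL(Fin 4, ℝ)))
    (fun g : GL (Fin 4) ℝ => (Matrix.ProjGenLinGroup.mk g : PGL(Fin 4, ℝ))) '' Oset

theorem isOpen_Uset : IsOpen Uset :=
  (isOpenMap_mkPGL.prodMap isOpenMap_mkPGL) _ isOpen_Oset

theorem base_mem_Uset : (std two two (.sr 0), std two two (.sr 1)) ∈ Uset := by
  refine ⟨_, base_mem_Oset, ?_⟩
  have e0 : std two two (.sr 0) = Matrix.ProjGenLinGroup.mk gT := by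
    show Matrix.ProjGenLinGroup.mk (gT * gG two two ^ (0 : ℤ)) = _
    rw [zpow_zero, mul_one]
  have e1 : std two two (.sr 1) = Matrix.ProjGenLinGroup.mk (gT * gG two two) := by
    show Matrix.ProjGenLinGroup.mk (gT * gG two two ^ (1 : ℤ)) = _
    rw [zpow_one]
  rw [e0, e1]
  rfl

theorem good_of_mem_Uset {φ : DihedralGroup 0 →* PGL(Fin 4, ℝ)}
    (h : (φ (.sr 0), φ (.sr 1)) ∈ Uset) : Good φ := by
  obtain ⟨⟨T, T'⟩, hO, e⟩ := h
  exact good_of_mem hO (congrArg Prod.fst e).symm (congrArg Prod.snd e).symm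

end Pool.Agent.H138R3.NC
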