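import Pool.Agent.H138R3.NCBase

/-!
# The representation `std 2 2` is not convex cocompact
-/

set_option autoImplicit false
set_option linter.unusedSectionVars false
set_option linter.unusedVariables false

namespace Pool.Agent.H138R3.NC

open scoped LinearAlgebra.Projectivization MatrixGroups Topology
open Filter

/-- The entries of the even powers. -/
noncomputable def dv (n : ℤ) : Fin 4 → ℝ :=
  ![(4 : ℝ) ^ n, ((4 : ℝ) ^ n)⁻¹, (4 : ℝ) ^ n, ((4 : ℝ) ^ n)⁻¹]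

/-- The action of the even powers on vectors. -/
noncomputable def Dz (n : ℤ) : (Fin 4 → ℝ) →ₗ[ℝ] (Fin 4 → ℝ) :=
  Matrix.mulVecLin (Matrix.diagonal (dv n))

theorem Dz_apply (n : ℤ) (v : Fin 4 → ℝ) : Dz n v = fun i => dv n i * v i := by
  funext i
  rw [Dz, Matrix.mulVecLin_apply, Matrix.mulVec_diagonal]

theorem Dz_ne {v : Fin 4 → ℝ} (hv : v ≠ 0) (n : ℤ) : Dz n v ≠ 0 := by
  intro h
  apply hv
  funext i
  have := congrFun h i
  rw [Dz_apply] at this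
  have hd : dv n i ≠ 0 := by
    fin_cases i <;> simp [dv, zpow_ne_zero]
  simpa [hd] using this

theorem std_Dz (n : ℤ) {v : Fin 4 → ℝ} (hv : v ≠ 0) :
    std two two (DihedralGroup.r 1 ^ (2 * n)) • Projectivization.mk ℝ v hv =
      Projectivization.mk ℝ (Dz n v) (Dz_ne hv n) := by
  obtain ⟨e0, e1, e2, e3⟩ := uu_zpow_val two two (2 * n)
  show (Matrix.ProjGenLinGroup.mk (dih two two (DihedralGroup.r 1 ^ (2 * n))) :
    PGL(Fin 4, ℝ)) • _ = _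
  rw [pgl_smul_mk' _ hv]
  congr 1
  rw [dih_r, Dg_mulVec, Dz_apply]
  have h2 : (two : ℝ) ^ (2 * n) = 4 ^ n := by
    rw [two_val, zpow_mul]; norm_num
  have h2' : (-(two : ℝ)) ^ (2 * n) = 4 ^ n := by
    rw [two_val, zpow_mul]; norm_num
  funext i
  fin_cases i
  · show ((uu two two ^ (2 * n)) 0 : ℝ) * v 0 = _
    rw [e0, h2]; rfl
  · show ((uu two two ^ (2 * n)) 1 : ℝ) * v 1 = _
    rw [e1, h2]; rfl
  · show ((uu two two ^ (2 * n)) 2 : ℝ) * v 2 = _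
    rw [e2, h2']; rfl
  · show ((uu two two ^ (2 * n)) 3 : ℝ) * v 3 = _
    rw [e3, h2']; rfl

/-- The hypotheses on the domain. -/
structure Hyp (Ω : Set (ℙ ℝ (Fin 4 → ℝ))) (φ : (Fin 4 → ℝ) →ₗ[ℝ] ℝ) : Prop where
  isOpen : IsOpen Ω
  pres : Preserves (std two two).range Ω
  cl : closure Ω ⊆ chart φ
  conv : Convex ℝ (slice φ Ω)

/-- The cone over the domain. -/
def Om (Ω : Set (ℙ ℝ (Fin 4 → ℝ))) (φ : (Fin 4 → ℝ) →ₗ[ℝ] ℝ) : Set (Fin 4 → ℝ) :=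
  {v | 0 < φ v ∧ v ∈ cone Ω}

section

variable {Ω : Set (ℙ ℝ (Fin 4 → ℝ))} {φ : (Fin 4 → ℝ) →ₗ[ℝ] ℝ}

theorem Hyp.isOpen_Om (H : Hyp Ω φ) : IsOpen (Om Ω φ) :=
  (isOpen_lt continuous_const (LinearMap.continuous_of_finiteDimensional φ)).inter
    ((isOpen_iff_cone Ω).1 H.isOpen)

theorem Om_ne {v : Fin 4 → ℝ} (hv : v ∈ Om Ω φ) : v ≠ 0 := hv.2.1

theorem Om_smul {v : Fin 4 → ℝ} (hv : v ∈ Om Ω φ) {c : ℝ} (hc : 0 < c) : c • v ∈ Om Ω φ := by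
  refine ⟨?_, smul_mem_cone hv.2 hc.ne'⟩
  rw [map_smul, smul_eq_mul]
  exact mul_pos hc hv.1

theorem slice_iff {v : Fin 4 → ℝ} : v ∈ slice φ Ω ↔ φ v = 1 ∧ v ∈ Om Ω φ := by
  constructor
  · rintro ⟨h1, h2⟩
    exact ⟨h1, by rw [h1]; exact one_pos, h2⟩
  · rintro ⟨h1, h2⟩
    exact ⟨h1, h2.2⟩

theorem Hyp.add (H : Hyp Ω φ) {v w : Fin 4 → ℝ} (hv : v ∈ Om Ω φ) (hw : w ∈ Om Ω φ) :
    v + w ∈ Om Ω φ := by
  have pv := hv.1
  have pw := hw.1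
  have h1 : (φ v)⁻¹ • v ∈ slice φ Ω := by
    rw [slice_iff]
    refine ⟨?_, Om_smul hv (inv_pos.2 pv)⟩
    rw [map_smul, smul_eq_mul, inv_mul_cancel₀ pv.ne']
  have h2 : (φ w)⁻¹ • w ∈ slice φ Ω := by
    rw [slice_iff]
    refine ⟨?_, Om_smul hw (inv_pos.2 pw)⟩
    rw [map_smul, smul_eq_mul, inv_mul_cancel₀ pw.ne']
  have h3 := H.conv h1 h2 (a := φ v / (φ v + φ w)) (b := φ w / (φ v + φ w))
    (by positivity) (by positivity) (by field_simp)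
  have h4 := Om_smul (slice_iff.1 h3).2 (add_pos pv pw)
  have e : (φ v + φ w) • ((φ v / (φ v + φ w)) • (φ v)⁻¹ • v +
      (φ w / (φ v + φ w)) • (φ w)⁻¹ • w) = v + w := by
    rw [smul_add, smul_smul, smul_smul, smul_smul, smul_smul]
    congr 1
    · have : (φ v + φ w) * (φ v / (φ v + φ w)) * (φ v)⁻¹ = 1 := by field_simp
      rw [this, one_smul]
    · have : (φ v + φ w) * (φ w / (φ v + φ w)) * (φ w)⁻¹ = 1 := by field_simp
      rw [this, one_smul]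
  rwa [e] at h4

theorem Hyp.ne_of_cone (H : Hyp Ω φ) {v : Fin 4 → ℝ} (hv : v ∈ cone Ω) : φ v ≠ 0 := by
  obtain ⟨h, hv⟩ := hv
  exact (mk_mem_chart h).1 (H.cl (subset_closure hv))

theorem Hyp.cone_Dz (H : Hyp Ω φ) {v : Fin 4 → ℝ} (hv : v ∈ cone Ω) (n : ℤ) :
    Dz n v ∈ cone Ω := by
  obtain ⟨h, hv⟩ := hv
  refine ⟨Dz_ne h n, ?_⟩
  rw [← std_Dz n h]
  exact H.pres _ ⟨_, rfl⟩ _ hv

theorem Hyp.Dz_mem (H : Hyp Ω φ) {v : Fin 4 → ℝ} (hv : v ∈ Om Ω φ) (n : ℤ) :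
    Dz n v ∈ Om Ω φ := by
  refine ⟨?_, H.cone_Dz hv.2 n⟩
  by_contra hneg
  have h1 : φ (Dz n v) < 0 :=
    lt_of_le_of_ne (not_lt.1 hneg) (H.ne_of_cone (H.cone_Dz hv.2 n))
  have hw : -(Dz n v) ∈ Om Ω φ := by
    refine ⟨by rw [map_neg]; linarith, ?_⟩
    have := smul_mem_cone (H.cone_Dz hv.2 n) (c := -1) (by norm_num)
    rwa [neg_one_smul] at this
  have hc : 0 < (4 : ℝ) ^ n := by positivity
  -- the combination
  set u := ((4 : ℝ) ^ n) • v + -(Dz n v) with hu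
  have hu' : u ∈ Om Ω φ := H.add (Om_smul hv hc) hw
  have hDu : Dz n u = ((4 : ℝ) ^ n)⁻¹ • u := by
    funext i
    simp only [hu, Dz_apply, Pi.add_apply, Pi.smul_apply, Pi.neg_apply, smul_eq_mul]
    fin_cases i
    · simp [dv]
    · simp [dv]
    · simp [dv]
    · simp [dv]
  have hq : 0 < φ (Dz n u) := by
    rw [hDu, map_smul, smul_eq_mul]
    exact mul_pos (inv_pos.2 hc) hu'.1
  have hx : (φ (Dz n u)) • v + (-φ (Dz n v)) • u ∈ Om Ω φ :=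
    H.add (Om_smul hv hq) (Om_smul hu' (by linarith))
  have := H.ne_of_cone (H.cone_Dz hx.2 n)
  apply this
  rw [map_add, map_smul, map_smul, map_add, map_smul, map_smul]
  simp only [smul_eq_mul]
  ring

theorem Hyp.closure_pos (H : Hyp Ω φ) {x : Fin 4 → ℝ} (hx : x ∈ closure (Om Ω φ))
    (h0 : x ≠ 0) : 0 < φ x := by
  have h1 : x ∈ closure (cone Ω) := closure_mono (fun v hv => hv.2) hx
  rw [← mk_mem_closure_iff h0] at h1
  have h2 : φ x ≠ 0 := (mk_mem_chart h0).1 (H.cl h1)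
  have h3 : IsClosed {v : Fin 4 → ℝ | 0 ≤ φ v} :=
    isClosed_le continuous_const (LinearMap.continuous_of_finiteDimensional φ)
  have h4 : 0 ≤ φ x := closure_minimal (fun v (hv : v ∈ Om Ω φ) => hv.1.le) h3 hx
  exact lt_of_le_of_ne h4 (Ne.symm h2)

/-- First block component. -/
def pa (v : Fin 4 → ℝ) : Fin 4 → ℝ := ![v 0, 0, v 2, 0]

/-- Second block component. -/
def pb (v : Fin 4 → ℝ) : Fin 4 → ℝ := ![0, v 1, 0, v 3]

theorem pa_add_pb (v : Fin 4 → ℝ) : pa v + pb v = v := by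
  funext i
  fin_cases i <;> simp [pa, pb]

theorem tendsto_pa (v : Fin 4 → ℝ) :
    Tendsto (fun n : ℕ => ((4 : ℝ) ^ (n : ℤ))⁻¹ • Dz n v) atTop (𝓝 (pa v)) := by
  rw [tendsto_pi_nhds]
  intro i
  simp only [Dz_apply, Pi.smul_apply, smul_eq_mul]
  have h4 : ∀ n : ℕ, ((4 : ℝ) ^ (n : ℤ))⁻¹ * (4 : ℝ) ^ (n : ℤ) = 1 := fun n => by
    field_simp
  have h16 : ∀ n : ℕ, ((4 : ℝ) ^ (n : ℤ))⁻¹ * ((4 : ℝ) ^ (n : ℤ))⁻¹ = (1 / 16) ^ n := fun n => by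
    rw [zpow_natCast, ← mul_inv, ← mul_pow, ← inv_pow]
    norm_num
  have ht : Tendsto (fun n : ℕ => ((1 : ℝ) / 16) ^ n) atTop (𝓝 0) :=
    tendsto_pow_atTop_nhds_zero_of_lt_one (by norm_num) (by norm_num)
  fin_cases i
  · have : ∀ n : ℕ, ((4 : ℝ) ^ (n : ℤ))⁻¹ * ((4 : ℝ) ^ (n : ℤ) * v 0) = v 0 := fun n => by
      rw [← mul_assoc, h4, one_mul]
    show Tendsto (fun n : ℕ => ((4 : ℝ) ^ (n : ℤ))⁻¹ * ((4 : ℝ) ^ (n : ℤ) * v 0)) atTop (𝓝 (v 0))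
    simp only [this]
    exact tendsto_const_nhds
  · show Tendsto (fun n : ℕ => ((4 : ℝ) ^ (n : ℤ))⁻¹ * (((4 : ℝ) ^ (n : ℤ))⁻¹ * v 1)) atTop (𝓝 0)
    simp only [← mul_assoc, h16]
    simpa using ht.mul_const (v 1)
  · have : ∀ n : ℕ, ((4 : ℝ) ^ (n : ℤ))⁻¹ * ((4 : ℝ) ^ (n : ℤ) * v 2) = v 2 := fun n => by
      rw [← mul_assoc, h4, one_mul]
    show Tendsto (fun n : ℕ => ((4 : ℝ) ^ (n : ℤ))⁻¹ * ((4 : ℝ) ^ (n : ℤ) * v 2)) atTop (𝓝 (v 2))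
    simp only [this]
    exact tendsto_const_nhds
  · show Tendsto (fun n : ℕ => ((4 : ℝ) ^ (n : ℤ))⁻¹ * (((4 : ℝ) ^ (n : ℤ))⁻¹ * v 3)) atTop (𝓝 0)
    simp only [← mul_assoc, h16]
    simpa using ht.mul_const (v 3)

theorem tendsto_pb (v : Fin 4 → ℝ) :
    Tendsto (fun n : ℕ => ((4 : ℝ) ^ (n : ℤ))⁻¹ • Dz (-n) v) atTop (𝓝 (pb v)) := by
  rw [tendsto_pi_nhds]
  intro i
  simp only [Dz_apply, Pi.smul_apply, smul_eq_mul]
  have h4 : ∀ n : ℕ, ((4 : ℝ) ^ (n : ℤ))⁻¹ * ((4 : ℝ) ^ (-(n : ℤ)))⁻¹ = 1 := fun n => by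
    rw [zpow_neg, inv_inv]
    field_simp
  have h16 : ∀ n : ℕ, ((4 : ℝ) ^ (n : ℤ))⁻¹ * ((4 : ℝ) ^ (-(n : ℤ))) = (1 / 16) ^ n := fun n => by
    rw [zpow_neg, zpow_natCast, ← mul_inv, ← mul_pow, ← inv_pow]
    norm_num
  have ht : Tendsto (fun n : ℕ => ((1 : ℝ) / 16) ^ n) atTop (𝓝 0) :=
    tendsto_pow_atTop_nhds_zero_of_lt_one (by norm_num) (by norm_num)
  fin_cases i
  · show Tendsto (fun n : ℕ => ((4 : ℝ) ^ (n : ℤ))⁻¹ * ((4 : ℝ) ^ (-(n : ℤ)) * v 0)) atTop (𝓝 0)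
    simp only [← mul_assoc, h16]
    simpa using ht.mul_const (v 0)
  · have : ∀ n : ℕ, ((4 : ℝ) ^ (n : ℤ))⁻¹ * (((4 : ℝ) ^ (-(n : ℤ)))⁻¹ * v 1) = v 1 := fun n => by
      rw [← mul_assoc, h4, one_mul]
    show Tendsto (fun n : ℕ => ((4 : ℝ) ^ (n : ℤ))⁻¹ * (((4 : ℝ) ^ (-(n : ℤ)))⁻¹ * v 1)) atTop
      (𝓝 (v 1))
    simp only [this]
    exact tendsto_const_nhds
  · show Tendsto (fun n : ℕ => ((4 : ℝ) ^ (n : ℤ))⁻¹ * ((4 : ℝ) ^ (-(n : ℤ)) * v 2)) atTop (𝓝 0)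
    simp only [← mul_assoc, h16]
    simpa using ht.mul_const (v 2)
  · have : ∀ n : ℕ, ((4 : ℝ) ^ (n : ℤ))⁻¹ * (((4 : ℝ) ^ (-(n : ℤ)))⁻¹ * v 3) = v 3 := fun n => by
      rw [← mul_assoc, h4, one_mul]
    show Tendsto (fun n : ℕ => ((4 : ℝ) ^ (n : ℤ))⁻¹ * (((4 : ℝ) ^ (-(n : ℤ)))⁻¹ * v 3)) atTop
      (𝓝 (v 3))
    simp only [this]
    exact tendsto_const_nhds

theorem Hyp.pa_closure (H : Hyp Ω φ) {v : Fin 4 → ℝ} (hv : v ∈ Om Ω φ) :
    pa v ∈ closure (Om Ω φ) :=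
  mem_closure_of_tendsto (tendsto_pa v)
    (Filter.Eventually.of_forall fun n => Om_smul (H.Dz_mem hv n) (by positivity))

theorem Hyp.pb_closure (H : Hyp Ω φ) {v : Fin 4 → ℝ} (hv : v ∈ Om Ω φ) :
    pb v ∈ closure (Om Ω φ) :=
  mem_closure_of_tendsto (tendsto_pb v)
    (Filter.Eventually.of_forall fun n => Om_smul (H.Dz_mem hv (-n)) (by positivity))

/-- Small perturbations stay in the cone. -/
theorem Hyp.perturb (H : Hyp Ω φ) {v : Fin 4 → ℝ} (hv : v ∈ Om Ω φ) (e : Fin 4 → ℝ) :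
    ∃ ε : ℝ, ε ≠ 0 ∧ v + ε • e ∈ Om Ω φ ∧ v + (-ε) • e ∈ Om Ω φ := by
  have hc : Continuous (fun ε : ℝ => v + ε • e) := by fun_prop
  have hc' : Continuous (fun ε : ℝ => v + (-ε) • e) := by fun_prop
  have h1 : ∀ᶠ ε in 𝓝 (0 : ℝ), v + ε • e ∈ Om Ω φ :=
    hc.continuousAt.eventually_mem (H.isOpen_Om.mem_nhds (by simpa using hv))
  have h2 : ∀ᶠ ε in 𝓝 (0 : ℝ), v + (-ε) • e ∈ Om Ω φ :=
    hc'.continuousAt.eventually_mem (H.isOpen_Om.mem_nhds (by simpa using hv))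
  have h3 : ∀ᶠ ε in 𝓝[≠] (0 : ℝ), (v + ε • e ∈ Om Ω φ ∧ v + (-ε) • e ∈ Om Ω φ) ∧ ε ≠ 0 :=
    ((h1.and h2).filter_mono nhdsWithin_le_nhds).and eventually_mem_nhdsWithin
  obtain ⟨ε, ⟨h4, h5⟩, h6⟩ := h3.exists
  exact ⟨ε, h6, h4, h5⟩

theorem Hyp.pa_ne (H : Hyp Ω φ) {v : Fin 4 → ℝ} (hv : v ∈ Om Ω φ) : pa v ≠ 0 := by
  intro h
  obtain ⟨ε, hε, h1, h2⟩ := H.perturb hv ee0
  have e1 : ∀ ε : ℝ, pa (v + ε • ee0) = ε • ee0 := by
    intro ε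
    have h0 : v 0 = 0 := congrFun h 0
    have h2 : v 2 = 0 := congrFun h 2
    funext i
    fin_cases i <;> simp [pa, ee0, h0, h2]
  have k1 := H.closure_pos (H.pa_closure h1) (by rw [e1]; exact smul_ne_zero hε ee0_ne)
  have k2 := H.closure_pos (H.pa_closure h2)
    (by rw [e1]; exact smul_ne_zero (neg_ne_zero.2 hε) ee0_ne)
  rw [e1, map_smul, smul_eq_mul] at k1 k2
  linarith

theorem Hyp.pb_ne (H : Hyp Ω φ) {v : Fin 4 → ℝ} (hv : v ∈ Om Ω φ) : pb v ≠ 0 := by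
  intro h
  obtain ⟨ε, hε, h1, h2⟩ := H.perturb hv ee1
  have e1 : ∀ ε : ℝ, pb (v + ε • ee1) = ε • ee1 := by
    intro ε
    have h0 : v 1 = 0 := congrFun h 1
    have h2 : v 3 = 0 := congrFun h 3
    funext i
    fin_cases i <;> simp [pb, ee1, h0, h2]
  have k1 := H.closure_pos (H.pb_closure h1) (by rw [e1]; exact smul_ne_zero hε ee1_ne)
  have k2 := H.closure_pos (H.pb_closure h2)
    (by rw [e1]; exact smul_ne_zero (neg_ne_zero.2 hε) ee1_ne)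
  rw [e1, map_smul, smul_eq_mul] at k1 k2
  linarith

/-- Limits of rescaled orbits lie in the limit set. -/
theorem Hyp.limit (H : Hyp Ω φ) {v x : Fin 4 → ℝ} (hv : v ∈ Om Ω φ) (hx : x ≠ 0)
    (hxn : x ∉ Om Ω φ) (hxc : x ∈ closure (Om Ω φ)) (k : ℕ → ℤ) (c : ℕ → ℝ)
    (hc : ∀ n, c n ≠ 0) (ht : Tendsto (fun n => c n • Dz (k n) v) atTop (𝓝 x)) :
    Projectivization.mk ℝ x hx ∈ orbitalLimitSet (std two two).range Ω := by
  have hv0 := Om_ne hv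
  obtain ⟨hvp, hv', hvΩ⟩ := hv
  have hxΩ : Projectivization.mk ℝ x hx ∉ Ω := by
    intro h
    exact hxn ⟨H.closure_pos hxc hx, hx, h⟩
  have hsub : {q | ∃ g ∈ (std two two).range, q = g • Projectivization.mk ℝ v hv0} ⊆ Ω := by
    rintro q ⟨g, hg, rfl⟩
    exact H.pres g hg _ hvΩ
  have hcl : Projectivization.mk ℝ x hx ∈ closure
      {q | ∃ g ∈ (std two two).range, q = g • Projectivization.mk ℝ v hv0} := by
    rw [mk_mem_closure_iff]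
    apply mem_closure_of_tendsto ht
    filter_upwards with n
    have hne : c n • Dz (k n) v ≠ 0 := smul_ne_zero (hc n) (Dz_ne hv0 _)
    refine ⟨hne, ?_⟩
    rw [mk_smul_eq (Dz_ne hv0 (k n)) (hc n) hne]
    exact ⟨_, ⟨_, rfl⟩, (std_Dz (k n) hv0).symm⟩
  refine ⟨?_, _, hvΩ, ?_⟩
  · rw [H.isOpen.frontier_eq]
    exact ⟨closure_mono hsub hcl, hxΩ⟩
  · exact (accPt_iff_mem_closure (fun h => hxΩ (hsub h))).2 hcl

theorem Hyp.pa_limit (H : Hyp Ω φ) {v : Fin 4 → ℝ} (hv : v ∈ Om Ω φ) :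
    Projectivization.mk ℝ (pa v) (H.pa_ne hv) ∈ orbitalLimitSet (std two two).range Ω := by
  apply H.limit hv (H.pa_ne hv) _ (H.pa_closure hv) (fun n => n) (fun n => ((4 : ℝ) ^ (n : ℤ))⁻¹)
    (fun n => by positivity) (tendsto_pa v)
  intro h
  apply H.pb_ne h
  funext i
  fin_cases i <;> simp [pa, pb]

theorem Hyp.pb_limit (H : Hyp Ω φ) {v : Fin 4 → ℝ} (hv : v ∈ Om Ω φ) :
    Projectivization.mk ℝ (pb v) (H.pb_ne hv) ∈ orbitalLimitSet (std two two).range Ω := by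
  apply H.limit hv (H.pb_ne hv) _ (H.pb_closure hv) (fun n => -n)
    (fun n => ((4 : ℝ) ^ (n : ℤ))⁻¹) (fun n => by positivity) (tendsto_pb v)
  intro h
  apply H.pa_ne h
  funext i
  fin_cases i <;> simp [pa, pb]

theorem Hyp.exists_Om (H : Hyp Ω φ) {p : ℙ ℝ (Fin 4 → ℝ)} (hp : p ∈ Ω) :
    ∃ v, v ∈ Om Ω φ ∧ φ v = 1 ∧ ∃ h : v ≠ 0, Projectivization.mk ℝ v h = p := by
  induction p with
  | h w hw =>
    have h0 : φ w ≠ 0 := H.ne_of_cone ⟨hw, hp⟩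
    have hne : (φ w)⁻¹ • w ≠ 0 := smul_ne_zero (inv_ne_zero h0) hw
    have h1 : φ ((φ w)⁻¹ • w) = 1 := by
      rw [map_smul, smul_eq_mul, inv_mul_cancel₀ h0]
    refine ⟨(φ w)⁻¹ • w, ⟨by rw [h1]; exact one_pos, smul_mem_cone ⟨hw, hp⟩ (inv_ne_zero h0)⟩,
      h1, hne, mk_smul_eq hw (inv_ne_zero h0) hne⟩

theorem Hyp.core (H : Hyp Ω φ) {p : ℙ ℝ (Fin 4 → ℝ)} (hp : p ∈ Ω) :
    p ∈ convexCore φ (std two two).range Ω := by
  refine ⟨hp, ?_⟩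
  obtain ⟨v, hv, hv1, hne, e⟩ := H.exists_Om hp
  refine ⟨v, ?_, hne, e⟩
  have pA := H.closure_pos (H.pa_closure hv) (H.pa_ne hv)
  have pB := H.closure_pos (H.pb_closure hv) (H.pb_ne hv)
  have hsum : φ (pa v) + φ (pb v) = 1 := by rw [← map_add, pa_add_pb, hv1]
  have hA : (φ (pa v))⁻¹ • pa v ∈ slice φ (orbitalLimitSet (std two two).range Ω) := by
    have hne : (φ (pa v))⁻¹ • pa v ≠ 0 := smul_ne_zero (inv_ne_zero pA.ne') (H.pa_ne hv)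
    refine ⟨?_, hne, ?_⟩
    · rw [map_smul, smul_eq_mul, inv_mul_cancel₀ pA.ne']
    · rw [mk_smul_eq (H.pa_ne hv) (inv_ne_zero pA.ne') hne]
      exact H.pa_limit hv
  have hB : (φ (pb v))⁻¹ • pb v ∈ slice φ (orbitalLimitSet (std two two).range Ω) := by
    have hne : (φ (pb v))⁻¹ • pb v ≠ 0 := smul_ne_zero (inv_ne_zero pB.ne') (H.pb_ne hv)
    refine ⟨?_, hne, ?_⟩
    · rw [map_smul, smul_eq_mul, inv_mul_cancel₀ pB.ne']
    · rw [mk_smul_eq (H.pb_ne hv) (inv_ne_zero pB.ne') hne]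
      exact H.pb_limit hv
  have e2 : v = φ (pa v) • (φ (pa v))⁻¹ • pa v + φ (pb v) • (φ (pb v))⁻¹ • pb v := by
    rw [smul_smul, smul_smul, mul_inv_cancel₀ pA.ne', mul_inv_cancel₀ pB.ne', one_smul,
      one_smul, pa_add_pb]
  rw [e2]
  exact (convex_convexHull ℝ _) (subset_convexHull ℝ _ hA) (subset_convexHull ℝ _ hB)
    pA.le pB.le hsum

/-! ### The contradiction -/

/-- The first functional. -/
noncomputable def φA (φ : (Fin 4 → ℝ) →ₗ[ℝ] ℝ) : (Fin 4 → ℝ) →ₗ[ℝ] ℝ :=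
  φ (Pi.single 0 1) • (LinearMap.proj 0 : (Fin 4 → ℝ) →ₗ[ℝ] ℝ) +
    φ (Pi.single 2 1) • (LinearMap.proj 2 : (Fin 4 → ℝ) →ₗ[ℝ] ℝ)

/-- The second functional. -/
noncomputable def φB (φ : (Fin 4 → ℝ) →ₗ[ℝ] ℝ) : (Fin 4 → ℝ) →ₗ[ℝ] ℝ :=
  (-φ (Pi.single 2 1)) • (LinearMap.proj 0 : (Fin 4 → ℝ) →ₗ[ℝ] ℝ) +
    φ (Pi.single 0 1) • (LinearMap.proj 2 : (Fin 4 → ℝ) →ₗ[ℝ] ℝ)

theorem φA_apply (v : Fin 4 → ℝ) :
    φA φ v = φ (Pi.single 0 1) * v 0 + φ (Pi.single 2 1) * v 2 := rfl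

theorem φB_apply (v : Fin 4 → ℝ) :
    φB φ v = (-φ (Pi.single 2 1)) * v 0 + φ (Pi.single 0 1) * v 2 := rfl

theorem φA_eq (v : Fin 4 → ℝ) : φA φ v = φ (pa v) := by
  have : pa v = v 0 • Pi.single 0 1 + v 2 • Pi.single 2 1 := by
    funext i
    fin_cases i <;> simp [pa]
  rw [this, map_add, map_smul, map_smul, φA_apply]
  simp only [smul_eq_mul]
  ring

/-- The invariant function. -/
noncomputable def FF (φ : (Fin 4 → ℝ) →ₗ[ℝ] ℝ) (p : ℙ ℝ (Fin 4 → ℝ)) : ℝ :=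
  φB φ p.rep / φA φ p.rep

theorem FF_mk {v : Fin 4 → ℝ} (hv : v ≠ 0) :
    FF φ (Projectivization.mk ℝ v hv) = φB φ v / φA φ v := by
  obtain ⟨a, ha⟩ := Projectivization.exists_smul_eq_mk_rep ℝ v hv
  unfold FF
  rw [← ha, Units.smul_def, map_smul, map_smul, smul_eq_mul, smul_eq_mul,
    mul_div_mul_left _ _ a.ne_zero]

theorem Hyp.φA_pos (H : Hyp Ω φ) {v : Fin 4 → ℝ} (hv : v ∈ Om Ω φ) : 0 < φA φ v := by
  rw [φA_eq]
  exact H.closure_pos (H.pa_closure hv) (H.pa_ne hv)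

theorem Hyp.φA_ne (H : Hyp Ω φ) {v : Fin 4 → ℝ} (hv : v ∈ cone Ω) : φA φ v ≠ 0 := by
  obtain ⟨h, hv⟩ := hv
  obtain ⟨w, hw, -, hne, e⟩ := H.exists_Om hv
  rw [Projectivization.mk_eq_mk_iff'] at e
  obtain ⟨a, rfl⟩ := e
  have := H.φA_pos hw
  rw [map_smul, smul_eq_mul] at this
  intro h0
  rw [h0, mul_zero] at this
  exact lt_irrefl _ this

theorem Hyp.FF_cont (H : Hyp Ω φ) : ContinuousOn (FF φ) Ω := by
  rw [continuousOn_open_iff H.isOpen]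
  intro O hO
  rw [isOpen_iff_cone]
  have hΩ := (isOpen_iff_cone Ω).1 H.isOpen
  have hc : ContinuousOn (fun v : Fin 4 → ℝ => φB φ v / φA φ v) (cone Ω) :=
    ContinuousOn.div (LinearMap.continuous_of_finiteDimensional _).continuousOn
      (LinearMap.continuous_of_finiteDimensional _).continuousOn (fun v hv => H.φA_ne hv)
  have e : cone (Ω ∩ FF φ ⁻¹' O) = cone Ω ∩ (fun v : Fin 4 → ℝ => φB φ v / φA φ v) ⁻¹' O := by
    ext v
    constructor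
    · rintro ⟨h, h1, h2⟩
      refine ⟨⟨h, h1⟩, ?_⟩
      rw [Set.mem_preimage, FF_mk] at h2
      exact h2
    · rintro ⟨⟨h, h1⟩, h2⟩
      refine ⟨h, h1, ?_⟩
      rw [Set.mem_preimage, FF_mk]
      exact h2
  rw [e]
  exact hc.isOpen_inter_preimage hΩ hO

theorem FF_inv (n : ℤ) (p : ℙ ℝ (Fin 4 → ℝ)) :
    FF φ (std two two (DihedralGroup.r 1 ^ (2 * n)) • p) = FF φ p := by
  induction p with
  | h v hv =>
    rw [std_Dz, FF_mk, FF_mk]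
    have e1 : φB φ (Dz n v) = (4 : ℝ) ^ n * φB φ v := by
      rw [φB_apply, φB_apply, Dz_apply]
      simp only [dv]
      simp
      ring
    have e2 : φA φ (Dz n v) = (4 : ℝ) ^ n * φA φ v := by
      rw [φA_apply, φA_apply, Dz_apply]
      simp only [dv]
      simp
      ring
    rw [e1, e2, mul_div_mul_left _ _ (by positivity)]

theorem Hyp.not_cocompact (H : Hyp Ω φ) (hne : Ω.Nonempty) :
    ¬ CocompactOn (std two two).range Ω := by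
  rintro ⟨K, hKΩ, hK, hcov⟩
  set S : Set (DihedralGroup 0) := {1, .r 1, .sr 0, .sr 0 * .r 1} with hS
  have hSf : S.Finite := Set.toFinite _
  set K' : Set (ℙ ℝ (Fin 4 → ℝ)) := ⋃ x ∈ S, (fun p => (std two two x)⁻¹ • p) '' K with hK'
  have hK'c : IsCompact K' :=
    hSf.isCompact_biUnion fun x _ => hK.image (continuous_pgl_smul _)
  have hK'Ω : K' ⊆ Ω := by
    intro p hp
    simp only [hK', Set.mem_iUnion] at hp
    obtain ⟨x, -, q, hq, rfl⟩ := hp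
    exact H.pres _ (inv_mem ⟨x, rfl⟩) _ (hKΩ hq)
  have hcov' : ∀ p ∈ Ω, ∃ n : ℤ, std two two (DihedralGroup.r 1 ^ (2 * n)) • p ∈ K' := by
    intro p hp
    obtain ⟨_, ⟨x, rfl⟩, hx⟩ := hcov p hp
    have key : ∀ (y z : DihedralGroup 0), y ∈ S → x = y * z → std two two z • p ∈ K' := by
      intro y z hy hxy
      simp only [hK', Set.mem_iUnion]
      refine ⟨y, hy, std two two x • p, hx, ?_⟩
      show (std two two y)⁻¹ • std two two x • p = _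
      rw [hxy, map_mul, mul_smul, inv_smul_smul]
    obtain ⟨k, hk⟩ := dih_cases x
    obtain ⟨n, hn⟩ := Int.even_or_odd' k
    refine ⟨n, ?_⟩
    rcases hk with hk | hk <;> rcases hn with hn | hn
    · exact key 1 _ (by simp [hS]) (by rw [hk, hn, one_mul])
    · exact key (.r 1) _ (by simp [hS]) (by rw [hk, hn, add_comm, zpow_add, zpow_one])
    · exact key (.sr 0) _ (by simp [hS]) (by rw [hk, hn])
    · exact key (.sr 0 * .r 1) _ (by simp [hS])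
        (by rw [hk, hn, add_comm, zpow_add, zpow_one, mul_assoc])
  have hK'ne : K'.Nonempty := by
    obtain ⟨p, hp⟩ := hne
    obtain ⟨n, hn⟩ := hcov' p hp
    exact ⟨_, hn⟩
  obtain ⟨p, hp, hmin⟩ := hK'c.exists_isMinOn hK'ne (H.FF_cont.mono hK'Ω)
  have hall : ∀ q ∈ Ω, FF φ p ≤ FF φ q := by
    intro q hq
    obtain ⟨n, hn⟩ := hcov' q hq
    have := hmin hn
    rw [Set.mem_setOf_eq, FF_inv] at this
    exact this
  obtain ⟨v, hv, hv1, hv0, e⟩ := H.exists_Om (hK'Ω hp)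
  set m := FF φ p with hm
  have hA := H.φA_pos hv
  have hBm : φB φ v = m * φA φ v := by
    have : m = φB φ v / φA φ v := by rw [hm, ← e, FF_mk]
    rw [this]; field_simp
  -- the functional `φB - m φA` is nonnegative on the cone and vanishes at `v`
  have hL : ∀ w ∈ Om Ω φ, 0 ≤ φB φ w - m * φA φ w := by
    intro w hw
    have h1 := hall _ hw.2.2
    rw [FF_mk] at h1
    have h2 := H.φA_pos hw
    rw [le_div_iff₀ h2] at h1
    linarith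
  have hzero : ∀ u : Fin 4 → ℝ, φB φ u - m * φA φ u = 0 := by
    intro u
    obtain ⟨ε, hε, h1, h2⟩ := H.perturb hv u
    have k1 := hL _ h1
    have k2 := hL _ h2
    rw [map_add, map_add, map_smul, map_smul, smul_eq_mul, smul_eq_mul, hBm] at k1 k2
    have k3 : ε * (φB φ u - m * φA φ u) = 0 := by
      apply le_antisymm <;> nlinarith
    rcases mul_eq_zero.1 k3 with h | h
    · exact absurd h hε
    · exact h
  have z0 := hzero (Pi.single 0 1)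
  have z2 := hzero (Pi.single 2 1)
  rw [φA_apply, φB_apply] at z0 z2
  simp at z0 z2
  rw [φA_apply] at hA
  set c0 := φ (Pi.single 0 1)
  set c2 := φ (Pi.single 2 1)
  have hc0 : c0 = 0 := by
    have h1 : c2 = -(m * c0) := by linarith
    rw [h1] at z2
    have h2 : c0 * (1 + m ^ 2) = 0 := by linarith
    rcases mul_eq_zero.1 h2 with h | h
    · exact h
    · nlinarith [sq_nonneg m]
  have hc2 : c2 = 0 := by
    rw [hc0] at z0
    linarith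
  rw [hc0, hc2] at hA
  simp at hA

end

/-- The group `std 2 2` is not convex cocompact. -/
theorem std_not_cc : ¬ ConvexCocompact (std two two).range := by
  rintro ⟨-, -, Ω, hne, hopen, hpres, φ, ⟨hcl, hconv⟩, -, hcc⟩
  have H : Hyp Ω φ := ⟨hopen, hpres, hcl, hconv⟩
  have e : convexCore φ (std two two).range Ω = Ω :=
    Set.Subset.antisymm (fun p hp => hp.1) (fun p hp => H.core hp)
  rw [e] at hcc
  exact H.not_cocompact hne hcc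

end Pool.Agent.H138R3.NC
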