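import Pool.Agent.H138R3.NCNaive

/-!
# Naive convex cocompactness of the standard representations, continued
-/

set_option autoImplicit false
set_option linter.unusedSectionVars false
set_option linter.unusedVariables false

namespace Pool.Agent.H138R3.NC

open scoped LinearAlgebra.Projectivization MatrixGroups Topology
open Filter

/-- The weighted geometric mean of absolute values. -/
noncomputable def gm (α x y : ℝ) : ℝ := |x| ^ α * |y| ^ (1 - α)

theorem continuous_gm {α : ℝ} (h0 : 0 ≤ α) (h1 : α ≤ 1) :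
    Continuous (fun p : ℝ × ℝ => gm α p.1 p.2) := by
  unfold gm
  exact ((Real.continuous_rpow_const h0).comp (continuous_fst.abs)).mul
    ((Real.continuous_rpow_const (by linarith)).comp (continuous_snd.abs))

theorem gm_super {α s t x y x' y' : ℝ} (h0 : 0 ≤ α) (h1 : α ≤ 1) (hs : 0 ≤ s) (ht : 0 ≤ t)
    (hst : s + t = 1) (hx : 0 < x) (hy : 0 < y) (hx' : 0 < x') (hy' : 0 < y') :
    s * gm α x y + t * gm α x' y' ≤ gm α (s * x + t * x') (s * y + t * y') := by
  have hpos : ∀ x y : ℝ, 0 < x → 0 < y → 0 < s * x + t * y := by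
    intro x y hx hy
    rcases eq_or_lt_of_le hs with h | h
    · rw [← h] at hst ⊢; simp at hst; rw [hst]; simpa using hy
    · have : 0 ≤ t * y := by positivity
      have : 0 < s * x := by positivity
      linarith
  have hX := hpos _ _ hx hx'
  have hY := hpos _ _ hy hy'
  unfold gm
  rw [abs_of_pos hx, abs_of_pos hy, abs_of_pos hx', abs_of_pos hy', abs_of_pos hX,
    abs_of_pos hY]
  set X := s * x + t * x' with hXd
  set Y := s * y + t * y' with hYd
  have hXY : 0 < X ^ α * Y ^ (1 - α) := by positivity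
  have h1α : 0 ≤ 1 - α := by linarith
  have e1 := Real.geom_mean_le_arith_mean2_weighted h0 h1α
    (div_nonneg hx.le hX.le) (div_nonneg hy.le hY.le) (by ring)
  have e2 := Real.geom_mean_le_arith_mean2_weighted h0 h1α
    (div_nonneg hx'.le hX.le) (div_nonneg hy'.le hY.le) (by ring)
  rw [Real.div_rpow hx.le hX.le, Real.div_rpow hy.le hY.le] at e1
  rw [Real.div_rpow hx'.le hX.le, Real.div_rpow hy'.le hY.le] at e2
  have f1 := mul_le_mul_of_nonneg_left e1 hs
  have f2 := mul_le_mul_of_nonneg_left e2 ht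
  have f3 : s * (α * (x / X) + (1 - α) * (y / Y)) + t * (α * (x' / X) + (1 - α) * (y' / Y)) =
      1 := by
    have : s * (α * (x / X) + (1 - α) * (y / Y)) + t * (α * (x' / X) + (1 - α) * (y' / Y)) =
        α * ((s * x + t * x') / X) + (1 - α) * ((s * y + t * y') / Y) := by ring
    rw [this, ← hXd, ← hYd, div_self hX.ne', div_self hY.ne']
    ring
  have f4 : s * (x ^ α / X ^ α * (y ^ (1 - α) / Y ^ (1 - α))) +
      t * (x' ^ α / X ^ α * (y' ^ (1 - α) / Y ^ (1 - α))) ≤ 1 := by linarith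
  have f5 : s * (x ^ α / X ^ α * (y ^ (1 - α) / Y ^ (1 - α))) +
      t * (x' ^ α / X ^ α * (y' ^ (1 - α) / Y ^ (1 - α))) =
      (s * (x ^ α * y ^ (1 - α)) + t * (x' ^ α * y' ^ (1 - α))) / (X ^ α * Y ^ (1 - α)) := by
    field_simp
  rw [f5, div_le_one hXY] at f4
  exact f4

/-- The invariant domain of parameter `α`. -/
def Ocone (α : ℝ) : Set (Fin 4 → ℝ) :=
  {v | 0 < v 0 * v 1 ∧ |v 2| < gm α (v 0) (v 1) ∧ |v 3| < gm (1 - α) (v 0) (v 1)}

theorem gm_smul (α c x y : ℝ) : gm α (c * x) (c * y) = |c| * gm α x y := by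
  by_cases hc : c = 0
  · subst hc
    unfold gm
    simp only [zero_mul, abs_zero]
    by_cases h : α = 0
    · subst h; simp
    · rw [Real.zero_rpow h, zero_mul]
  · unfold gm
    have hc' : 0 < |c| := abs_pos.2 hc
    rw [abs_mul, abs_mul, Real.mul_rpow (abs_nonneg _) (abs_nonneg _),
      Real.mul_rpow (abs_nonneg _) (abs_nonneg _)]
    have : |c| ^ α * |c| ^ (1 - α) = |c| := by
      rw [← Real.rpow_add hc']
      simp
    calc _ = (|c| ^ α * |c| ^ (1 - α)) * (|x| ^ α * |y| ^ (1 - α)) := by ring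
      _ = _ := by rw [this]

theorem Ocone_scale (α : ℝ) : ScaleInv (Ocone α) := by
  rintro v ⟨h1, h2, h3⟩ c hc
  have hc' : 0 < |c| := abs_pos.2 hc
  refine ⟨?_, ?_, ?_⟩
  · have : (c • v) 0 * (c • v) 1 = c ^ 2 * (v 0 * v 1) := by
      simp only [Pi.smul_apply, smul_eq_mul]; ring
    rw [this]; positivity
  · simp only [Pi.smul_apply, smul_eq_mul]
    rw [gm_smul, abs_mul]
    exact mul_lt_mul_of_pos_left h2 hc'
  · simp only [Pi.smul_apply, smul_eq_mul]
    rw [gm_smul, abs_mul]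
    exact mul_lt_mul_of_pos_left h3 hc'

theorem gm_scale2 {α c b : ℝ} (hc : 0 < c) (hb : c ^ (2 * α - 1) = b) (x y : ℝ) :
    gm α (c * x) (c⁻¹ * y) = b * gm α x y := by
  unfold gm
  rw [abs_mul, abs_mul, Real.mul_rpow (abs_nonneg _) (abs_nonneg _),
      Real.mul_rpow (abs_nonneg _) (abs_nonneg _), abs_of_pos hc, abs_of_pos (inv_pos.2 hc),
      Real.inv_rpow hc.le, ← Real.rpow_neg hc.le]
  have : c ^ α * c ^ (-(1 - α)) = b := by
    rw [← Real.rpow_add hc, ← hb]
    congr 1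
    ring
  calc _ = (c ^ α * c ^ (-(1 - α))) * (|x| ^ α * |y| ^ (1 - α)) := by ring
    _ = _ := by rw [this]

theorem gm_comm (α x y : ℝ) : gm α x y = gm (1 - α) y x := by
  unfold gm
  rw [sub_sub_cancel, mul_comm]

theorem Ocone_inv {α : ℝ} {a b : ℝˣ} (ha : 0 < (a : ℝ)) (hb : 0 < (b : ℝ))
    (hab : (a : ℝ) ^ (2 * α - 1) = b) :
    ∀ x, ∀ v ∈ Ocone α, (dih a b x).1.mulVec v ∈ Ocone α := by
  apply dih_inv
  · rintro k v ⟨h1, h2, h3⟩
    obtain ⟨e0, e1, e2, e3⟩ := uu_zpow_val a b k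
    have hA : 0 < (a : ℝ) ^ k := by positivity
    have hB : 0 < (b : ℝ) ^ k := by positivity
    have hk : ((a : ℝ) ^ k) ^ (2 * α - 1) = (b : ℝ) ^ k := by
      rw [← Real.rpow_zpow_comm ha.le, hab]
    have hk' : ((a : ℝ) ^ k) ^ (2 * (1 - α) - 1) = ((b : ℝ) ^ k)⁻¹ := by
      rw [← hk, ← Real.rpow_neg hA.le]
      congr 1
      ring
    refine ⟨?_, ?_, ?_⟩
    · simp only [e0, e1]
      have : (a : ℝ) ^ k * v 0 * (((a : ℝ) ^ k)⁻¹ * v 1) = v 0 * v 1 := by field_simp
      rw [this]; exact h1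
    · simp only [e0, e1, e2]
      rw [gm_scale2 hA hk, abs_mul, abs_zpow, abs_neg, abs_of_pos hb]
      exact mul_lt_mul_of_pos_left h2 hB
    · simp only [e0, e1, e3]
      rw [gm_scale2 hA hk', abs_mul, abs_inv, abs_zpow, abs_neg, abs_of_pos hb]
      exact mul_lt_mul_of_pos_left h3 (inv_pos.2 hB)
  · rintro v ⟨h1, h2, h3⟩
    refine ⟨?_, ?_, ?_⟩
    · simpa [mul_comm] using h1
    · rw [gm_comm]
      simpa using h3
    · rw [gm_comm]
      simpa using h2

theorem isOpen_Ocone {α : ℝ} (h0 : 0 ≤ α) (h1 : α ≤ 1) : IsOpen (Ocone α) := by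
  have c0 : Continuous (fun v : Fin 4 → ℝ => v 0) := continuous_apply 0
  have c1 : Continuous (fun v : Fin 4 → ℝ => v 1) := continuous_apply 1
  have c2 : Continuous (fun v : Fin 4 → ℝ => v 2) := continuous_apply 2
  have c3 : Continuous (fun v : Fin 4 → ℝ => v 3) := continuous_apply 3
  refine (isOpen_lt continuous_const (c0.mul c1)).inter
    ((isOpen_lt c2.abs ?_).inter (isOpen_lt c3.abs ?_))
  · exact (continuous_gm h0 h1).comp (c0.prodMk c1)
  · exact (continuous_gm (α := 1 - α) (by linarith) (by linarith)).comp (c0.prodMk c1)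

theorem gm_le {α x y : ℝ} (h0 : 0 ≤ α) (h1 : α ≤ 1) (hxy : 0 < x * y) : gm α x y ≤ |x + y| := by
  have h1α : 0 ≤ 1 - α := by linarith
  have e1 := Real.geom_mean_le_arith_mean2_weighted h0 h1α
    (abs_nonneg x) (abs_nonneg y) (by ring)
  have e2 : |x + y| = |x| + |y| := by
    rcases pos_and_pos_or_neg_and_neg_of_mul_pos hxy with h | h
    · rw [abs_of_pos h.1, abs_of_pos h.2, abs_of_pos (add_pos h.1 h.2)]
    · rw [abs_of_neg h.1, abs_of_neg h.2, abs_of_neg (add_neg h.1 h.2)]; ring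
  rw [e2]
  unfold gm
  have e3 : α * |x| ≤ |x| := by nlinarith [abs_nonneg x]
  have e4 : (1 - α) * |y| ≤ |y| := by nlinarith [abs_nonneg y]
  linarith

theorem Ocone_closure {α : ℝ} (h0 : 0 ≤ α) (h1 : α ≤ 1) {v : Fin 4 → ℝ}
    (hv : v ∈ closure (Ocone α)) : 0 ≤ v 0 * v 1 ∧ |v 2| ≤ |v 0 + v 1| ∧
      |v 3| ≤ |v 0 + v 1| := by
  have c0 : Continuous (fun v : Fin 4 → ℝ => v 0) := continuous_apply 0
  have c1 : Continuous (fun v : Fin 4 → ℝ => v 1) := continuous_apply 1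
  have c2 : Continuous (fun v : Fin 4 → ℝ => v 2) := continuous_apply 2
  have c3 : Continuous (fun v : Fin 4 → ℝ => v 3) := continuous_apply 3
  have hcl : IsClosed {v : Fin 4 → ℝ | 0 ≤ v 0 * v 1 ∧ |v 2| ≤ |v 0 + v 1| ∧
      |v 3| ≤ |v 0 + v 1|} :=
    (isClosed_le continuous_const (c0.mul c1)).inter
      ((isClosed_le c2.abs (c0.add c1).abs).inter (isClosed_le c3.abs (c0.add c1).abs))
  apply closure_minimal _ hcl hv
  rintro w ⟨a1, a2, a3⟩
  exact ⟨a1.le, a2.le.trans (gm_le h0 h1 a1), a3.le.trans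
    (gm_le (α := 1 - α) (by linarith) (by linarith) a1)⟩

theorem cone_PS {A : Set (Fin 4 → ℝ)} (hA : ScaleInv A) : cone (PS A) = A ∩ {v | v ≠ 0} := by
  ext v
  constructor
  · rintro ⟨h, hv⟩
    exact ⟨(mk_mem_PS hA h).1 hv, h⟩
  · rintro ⟨hv, h⟩
    exact ⟨h, (mk_mem_PS hA h).2 hv⟩

/-- A criterion for the closure of a set to lie in a chart. -/
theorem closure_chart {A : Set (Fin 4 → ℝ)} (hA : ScaleInv A)
    (h : ∀ v ∈ closure A, φ0 v = 0 → v = 0) : closure (PS A) ⊆ chart φ0 := by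
  intro p hp
  induction p with
  | h v hv =>
    rw [mk_mem_closure_iff, cone_PS hA] at hp
    rw [mk_mem_chart]
    intro h0
    exact hv (h v (closure_mono Set.inter_subset_left hp) h0)

theorem closure_Ocone {α : ℝ} (h0 : 0 ≤ α) (h1 : α ≤ 1) :
    closure (PS (Ocone α)) ⊆ chart φ0 := by
  apply closure_chart (Ocone_scale α)
  intro v hv h
  obtain ⟨a1, a2, a3⟩ := Ocone_closure h0 h1 hv
  rw [φ0_apply] at h
  rw [h, abs_zero] at a2 a3
  have h2 : v 2 = 0 := abs_eq_zero.1 (le_antisymm a2 (abs_nonneg _))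
  have h3 : v 3 = 0 := abs_eq_zero.1 (le_antisymm a3 (abs_nonneg _))
  have h10 : v 1 = - v 0 := by linarith
  rw [h10] at a1
  have h00 : v 0 = 0 := by nlinarith [sq_nonneg (v 0)]
  funext i
  fin_cases i
  · exact h00
  · show v 1 = 0
    rw [h10, h00, neg_zero]
  · exact h2
  · exact h3

/-- Points of the slice with positive product have positive coordinates. -/
theorem pos_of_slice {v : Fin 4 → ℝ} (h1 : φ0 v = 1) (h : 0 < v 0 * v 1) :
    0 < v 0 ∧ 0 < v 1 := by
  rw [φ0_apply] at h1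
  rcases pos_and_pos_or_neg_and_neg_of_mul_pos h with h | h
  · exact h
  · exfalso; linarith [h.1, h.2]

theorem slice_Ocone {α : ℝ} (h0 : 0 ≤ α) (h1 : α ≤ 1) :
    Convex ℝ (slice φ0 (PS (Ocone α))) := by
  rintro v ⟨hv1, hv, hvm⟩ w ⟨hw1, hw, hwm⟩ s t hs ht hst
  rw [mk_mem_PS (Ocone_scale α)] at hvm hwm
  obtain ⟨a1, a2, a3⟩ := hvm
  obtain ⟨b1, b2, b3⟩ := hwm
  have hv0 := pos_of_slice hv1 a1
  have hw0 := pos_of_slice hw1 b1
  have hpos : ∀ x y : ℝ, 0 < x → 0 < y → 0 < s * x + t * y := by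
    intro x y hx hy
    rcases eq_or_lt_of_le hs with h | h
    · rw [← h] at hst ⊢; simp at hst; rw [hst]; simpa using hy
    · have : 0 ≤ t * y := by positivity
      have : 0 < s * x := by positivity
      linarith
  have key : ∀ x y X Y : ℝ, |x| < X → |y| < Y → |s * x + t * y| < s * X + t * Y := by
    intro x y X Y hx hy
    have k1 : |s * x + t * y| ≤ s * |x| + t * |y| := by
      calc _ ≤ |s * x| + |t * y| := abs_add_le _ _
        _ = _ := by rw [abs_mul, abs_mul, abs_of_nonneg hs, abs_of_nonneg ht]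
    have k2 := hpos (X - |x|) (Y - |y|) (by linarith) (by linarith)
    nlinarith
  have hm : s • v + t • w ∈ Ocone α := by
    refine ⟨?_, ?_, ?_⟩
    · simp only [Pi.add_apply, Pi.smul_apply, smul_eq_mul]
      exact mul_pos (hpos _ _ hv0.1 hw0.1) (hpos _ _ hv0.2 hw0.2)
    · simp only [Pi.add_apply, Pi.smul_apply, smul_eq_mul]
      exact (key _ _ _ _ a2 b2).trans_le (gm_super h0 h1 hs ht hst hv0.1 hv0.2 hw0.1 hw0.2)
    · simp only [Pi.add_apply, Pi.smul_apply, smul_eq_mul]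
      exact (key _ _ _ _ a3 b3).trans_le
        (gm_super (α := 1 - α) (by linarith) (by linarith) hs ht hst hv0.1 hv0.2 hw0.1 hw0.2)
  refine ⟨?_, ne_zero_of_prod hm.1, ?_⟩
  · rw [map_add, map_smul, map_smul, hv1, hw1]
    simpa using hst
  · rw [mk_mem_PS (Ocone_scale α)]; exact hm

theorem Acone_sub (α : ℝ) {v : Fin 4 → ℝ} : v ∈ Acone ↔ (v 2 = 0 ∧ v 3 = 0) ∧ v ∈ Ocone α := by
  constructor
  · rintro ⟨h1, h2, h3⟩
    have hv0 : v 0 ≠ 0 := by rintro h; rw [h] at h1; simp at h1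
    have hv1 : v 1 ≠ 0 := by rintro h; rw [h] at h1; simp at h1
    refine ⟨⟨h2, h3⟩, h1, ?_, ?_⟩
    · rw [h2, abs_zero]
      unfold gm
      have := abs_pos.2 hv0
      have := abs_pos.2 hv1
      positivity
    · rw [h3, abs_zero]
      unfold gm
      have := abs_pos.2 hv0
      have := abs_pos.2 hv1
      positivity
  · rintro ⟨⟨h2, h3⟩, h1, -⟩
    exact ⟨h1, h2, h3⟩

theorem axis_nonempty : (PS Acone).Nonempty := ⟨axis 1, axis_mem one_pos⟩

/-- The standard representations are naively convex cocompact. -/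
theorem naive_std {a b : ℝˣ} (ha : 1 < (a : ℝ)) (hb : 1 ≤ (b : ℝ)) (hba : (b : ℝ) ≤ a) :
    NaivelyConvexCocompact (std a b).range := by
  refine ⟨std_infinite ha hb, std_discrete ha hb, ?_⟩
  have ha0 : 0 < (a : ℝ) := by linarith
  have hb0 : 0 < (b : ℝ) := by linarith
  set l := Real.logb a b with hl
  have l0 : 0 ≤ l := Real.logb_nonneg ha hb
  have l1 : l ≤ 1 := by
    rw [hl, Real.logb_le_iff_le_rpow ha hb0, Real.rpow_one]
    exact hba
  set α := (1 + l) / 2 with hα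
  have h0 : 0 ≤ α := by rw [hα]; linarith
  have h1 : α ≤ 1 := by rw [hα]; linarith
  have hab : (a : ℝ) ^ (2 * α - 1) = b := by
    have : 2 * α - 1 = l := by rw [hα]; ring
    rw [this, hl, Real.rpow_logb ha0 (ne_of_gt ha) hb0]
  refine ⟨PS (Ocone α), φ0, ?_, ⟨closure_Ocone h0 h1, slice_Ocone h0 h1⟩,
    preserves_PS (Ocone_scale α) (Ocone_inv ha0 hb0 hab), PS Acone, ?_, axis_nonempty,
    ⟨_, closed_axis, ?_⟩, slice_axis, preserves_PS Acone_scale (Acone_inv a b),
    cocompact_axis ha⟩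
  · exact isOpen_of_cone _ _ (isOpen_Ocone h0 h1) (fun v hv => mk_mem_PS (Ocone_scale α) hv)
  · intro p hp
    exact ((Acone_sub α).1 hp).2
  · ext p
    exact Acone_sub α

end Pool.Agent.H138R3.NC
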