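import Pool.Agent.H138R3.NCDefs

/-!
# Topological basics for projective space and `PGL`
-/

set_option autoImplicit false
set_option linter.unusedSectionVars false
set_option linter.unusedVariables false

namespace Pool.Agent.H138R3.NC

open scoped LinearAlgebra.Projectivization MatrixGroups Topology
open Filter

variable {ι : Type} [Fintype ι] [DecidableEq ι]

/-- The cone over a set of projective points. -/
def cone (S : Set (ℙ ℝ (ι → ℝ))) : Set (ι → ℝ) :=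
  {v | ∃ h : v ≠ 0, Projectivization.mk ℝ v h ∈ S}

theorem continuous_pmk : Continuous
    (fun v : {v : ι → ℝ // v ≠ 0} => Projectivization.mk ℝ v.1 v.2) :=
  continuous_coinduced_rng

theorem continuous_mk_comp {X : Type*} [TopologicalSpace X] (f : X → (ι → ℝ))
    (hf : Continuous f) (h : ∀ x, f x ≠ 0) :
    Continuous (fun x => Projectivization.mk ℝ (f x) (h x)) :=
  continuous_pmk.comp (hf.subtype_mk h)

theorem isOpen_ne : IsOpen {v : ι → ℝ | v ≠ 0} := isOpen_compl_singleton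

theorem isOpen_iff_cone (S : Set (ℙ ℝ (ι → ℝ))) : IsOpen S ↔ IsOpen (cone S) := by
  have h1 : IsOpen S ↔ IsOpen ((fun v : {v : ι → ℝ // v ≠ 0} =>
      Projectivization.mk ℝ v.1 v.2) ⁻¹' S) := isOpen_coinduced
  rw [h1, isOpen_ne.isOpenEmbedding_subtypeVal.isOpen_iff_image_isOpen]
  have : Subtype.val '' ((fun v : {v : ι → ℝ // v ≠ 0} =>
      Projectivization.mk ℝ v.1 v.2) ⁻¹' S) = cone S := by
    ext v
    constructor
    · rintro ⟨w, hw, rfl⟩
      exact ⟨w.2, hw⟩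
    · rintro ⟨h, hv⟩
      exact ⟨⟨v, h⟩, hv, rfl⟩
  exact iff_of_eq (congrArg IsOpen this)

theorem isClosed_of_cone (S : Set (ℙ ℝ (ι → ℝ))) (A : Set (ι → ℝ)) (hA : IsClosed A)
    (h : ∀ (v : ι → ℝ) (hv : v ≠ 0), Projectivization.mk ℝ v hv ∈ S ↔ v ∈ A) :
    IsClosed S := by
  rw [← isOpen_compl_iff, isOpen_iff_cone]
  have : cone Sᶜ = Aᶜ ∩ {v | v ≠ 0} := by
    ext v
    constructor
    · rintro ⟨hv, h1⟩
      exact ⟨fun hA => h1 ((h v hv).2 hA), hv⟩
    · rintro ⟨h1, hv⟩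
      exact ⟨hv, fun h2 => h1 ((h v hv).1 h2)⟩
  rw [this]
  exact hA.isOpen_compl.inter isOpen_ne

theorem isOpen_of_cone (S : Set (ℙ ℝ (ι → ℝ))) (A : Set (ι → ℝ)) (hA : IsOpen A)
    (h : ∀ (v : ι → ℝ) (hv : v ≠ 0), Projectivization.mk ℝ v hv ∈ S ↔ v ∈ A) :
    IsOpen S := by
  rw [isOpen_iff_cone]
  have : cone S = A ∩ {v | v ≠ 0} := by
    ext v
    constructor
    · rintro ⟨hv, h1⟩
      exact ⟨(h v hv).1 h1, hv⟩
    · rintro ⟨h1, hv⟩
      exact ⟨hv, (h v hv).2 h1⟩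
  rw [this]
  exact hA.inter isOpen_ne

theorem mk_smul_eq {v : ι → ℝ} (hv : v ≠ 0) {c : ℝ} (hc : c ≠ 0) (h : c • v ≠ 0) :
    Projectivization.mk ℝ (c • v) h = Projectivization.mk ℝ v hv := by
  rw [Projectivization.mk_eq_mk_iff']
  exact ⟨c, rfl⟩

theorem smul_mem_cone {S : Set (ℙ ℝ (ι → ℝ))} {v : ι → ℝ} (hv : v ∈ cone S) {c : ℝ}
    (hc : c ≠ 0) : c • v ∈ cone S := by
  obtain ⟨h, hv⟩ := hv
  have h' : c • v ≠ 0 := smul_ne_zero hc h
  exact ⟨h', by rw [mk_smul_eq h hc h']; exact hv⟩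

theorem isOpen_image_mk {O : Set (ι → ℝ)} (hO : IsOpen O) :
    IsOpen {p : ℙ ℝ (ι → ℝ) | ∃ v ∈ O, ∃ h : v ≠ 0, Projectivization.mk ℝ v h = p} := by
  apply isOpen_of_cone _ (⋃ c : {c : ℝ // c ≠ 0}, (fun v : ι → ℝ => c.1 • v) ⁻¹' O)
  · exact isOpen_iUnion fun c => hO.preimage (continuous_const_smul c.1)
  · intro v hv
    constructor
    · rintro ⟨w, hw, h, e⟩
      rw [Projectivization.mk_eq_mk_iff'] at e
      obtain ⟨a, ha⟩ := e
      have ha0 : a ≠ 0 := by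
        rintro rfl
        rw [zero_smul] at ha
        exact h ha.symm
      refine Set.mem_iUnion.2 ⟨⟨a, ha0⟩, ?_⟩
      show a • v ∈ O
      rw [ha]; exact hw
    · intro hu
      obtain ⟨⟨c, hc⟩, hcv⟩ := Set.mem_iUnion.1 hu
      have h' : c • v ≠ 0 := smul_ne_zero hc hv
      exact ⟨c • v, hcv, h', mk_smul_eq hv hc h'⟩

theorem mk_mem_closure_iff {S : Set (ℙ ℝ (ι → ℝ))} {v : ι → ℝ} (hv : v ≠ 0) :
    Projectivization.mk ℝ v hv ∈ closure S ↔ v ∈ closure (cone S) := by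
  constructor
  · intro h
    rw [mem_closure_iff] at h ⊢
    intro O hO hvO
    obtain ⟨p, ⟨w, hw, hw0, e⟩, hp⟩ := h _ (isOpen_image_mk hO) ⟨v, hvO, hv, rfl⟩
    exact ⟨w, hw, hw0, by rw [e]; exact hp⟩
  · intro h
    rw [mem_closure_iff] at h ⊢
    intro U hU hvU
    obtain ⟨w, ⟨hw0, hw⟩, ⟨_, hw'⟩⟩ := h (cone U) ((isOpen_iff_cone U).1 hU) ⟨hv, hvU⟩
    exact ⟨_, hw, hw'⟩

theorem mk_mem_chart {φ : (ι → ℝ) →ₗ[ℝ] ℝ} {v : ι → ℝ} (hv : v ≠ 0) :
    Projectivization.mk ℝ v hv ∈ chart φ ↔ φ v ≠ 0 := by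
  obtain ⟨a, ha⟩ := Projectivization.exists_smul_eq_mk_rep ℝ v hv
  show φ (Projectivization.mk ℝ v hv).rep ≠ 0 ↔ φ v ≠ 0
  rw [← ha, Units.smul_def, map_smul, smul_eq_mul]
  simp [a.ne_zero]

theorem accPt_iff_mem_closure {X : Type*} [TopologicalSpace X] {p : X} {S : Set X}
    (hp : p ∉ S) : AccPt p (𝓟 S) ↔ p ∈ closure S := by
  rw [accPt_iff_clusterPt, mem_closure_iff_clusterPt, inf_principal]
  have : ({p}ᶜ ∩ S : Set X) = S := by
    ext x
    simp only [Set.mem_inter_iff, Set.mem_compl_iff, Set.mem_singleton_iff,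
      and_iff_right_iff_imp]
    rintro hx rfl
    exact hp hx
  rw [this]

/-! ### The action -/

theorem pgl_smul_mk (g : GL ι ℝ) {v : ι → ℝ} (hv : v ≠ 0) (h : g.1.mulVec v ≠ 0) :
    (Matrix.ProjGenLinGroup.mk g : PGL(ι, ℝ)) • Projectivization.mk ℝ v hv =
      Projectivization.mk ℝ (g.1.mulVec v) h := rfl

theorem mulVec_ne_zero (g : GL ι ℝ) {v : ι → ℝ} (hv : v ≠ 0) : g.1.mulVec v ≠ 0 :=
  (smul_ne_zero_iff_ne g).2 hv

theorem continuous_pgl_smul (g : PGL(ι, ℝ)) :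
    Continuous (fun p : ℙ ℝ (ι → ℝ) => g • p) := by
  obtain ⟨A, rfl⟩ := Matrix.ProjGenLinGroup.mk_surjective g
  apply continuous_coinduced_dom.2
  have : ((fun p : ℙ ℝ (ι → ℝ) => (Matrix.ProjGenLinGroup.mk A : PGL(ι, ℝ)) • p) ∘
      fun v : {v : ι → ℝ // v ≠ 0} => Projectivization.mk ℝ v.1 v.2) =
      fun v : {v : ι → ℝ // v ≠ 0} => Projectivization.mk ℝ (A.1.mulVec v.1)
        (mulVec_ne_zero A v.2) := rfl
  rw [this]
  exact continuous_mk_comp _ (by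
    exact (Continuous.matrix_mulVec continuous_const continuous_subtype_val)) _

/-- The homeomorphism of projective space given by an element of `PGL`. -/
noncomputable def smulHomeo (g : PGL(ι, ℝ)) : ℙ ℝ (ι → ℝ) ≃ₜ ℙ ℝ (ι → ℝ) where
  toFun p := g • p
  invFun p := g⁻¹ • p
  left_inv p := inv_smul_smul g p
  right_inv p := smul_inv_smul g p
  continuous_toFun := continuous_pgl_smul g
  continuous_invFun := continuous_pgl_smul g⁻¹

/-! ### The topology of `PGL` -/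

theorem continuous_mkPGL : Continuous
    (fun g : GL ι ℝ => (Matrix.ProjGenLinGroup.mk g : PGL(ι, ℝ))) :=
  continuous_coinduced_rng

theorem isOpenMap_mkPGL : IsOpenMap
    (fun g : GL ι ℝ => (Matrix.ProjGenLinGroup.mk g : PGL(ι, ℝ))) := by
  intro U hU
  apply isOpen_coinduced.2
  have : (fun g : GL ι ℝ => (Matrix.ProjGenLinGroup.mk g : PGL(ι, ℝ))) ⁻¹'
      ((fun g : GL ι ℝ => (Matrix.ProjGenLinGroup.mk g : PGL(ι, ℝ))) '' U) =
      ⋃ z : Subgroup.center (GL ι ℝ), (fun g => g * z.1) ⁻¹' U := by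
    ext g
    simp only [Set.mem_preimage, Set.mem_image, Set.mem_iUnion, Subtype.exists,
      exists_prop]
    constructor
    · rintro ⟨h, hU, e⟩
      obtain ⟨z, hz, e'⟩ := Matrix.ProjGenLinGroup.mk_eq_mk_iff'.1 e.symm
      exact ⟨z, hz, by rw [e']; exact hU⟩
    · rintro ⟨z, hz, h⟩
      exact ⟨g * z, h, (Matrix.ProjGenLinGroup.mk_eq_mk_iff'.2 ⟨z, hz, rfl⟩).symm⟩
  rw [this]
  exact isOpen_iUnion fun z => hU.preimage (continuous_mul_const z.1)

theorem continuous_mul_left_PGL (a : PGL(ι, ℝ)) : Continuous (fun x : PGL(ι, ℝ) => a * x) := by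
  obtain ⟨A, rfl⟩ := Matrix.ProjGenLinGroup.mk_surjective a
  apply continuous_coinduced_dom.2
  have : ((fun x : PGL(ι, ℝ) => (Matrix.ProjGenLinGroup.mk A : PGL(ι, ℝ)) * x) ∘
      fun g : GL ι ℝ => (Matrix.ProjGenLinGroup.mk g : PGL(ι, ℝ))) =
      (fun g : GL ι ℝ => (Matrix.ProjGenLinGroup.mk g : PGL(ι, ℝ))) ∘ fun g => A * g := by
    funext g
    simp [Function.comp]
  rw [this]
  exact continuous_mkPGL.comp (continuous_const_mul A)

theorem continuous_mul_right_PGL (a : PGL(ι, ℝ)) :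
    Continuous (fun x : PGL(ι, ℝ) => x * a) := by
  obtain ⟨A, rfl⟩ := Matrix.ProjGenLinGroup.mk_surjective a
  apply continuous_coinduced_dom.2
  have : ((fun x : PGL(ι, ℝ) => x * (Matrix.ProjGenLinGroup.mk A : PGL(ι, ℝ))) ∘
      fun g : GL ι ℝ => (Matrix.ProjGenLinGroup.mk g : PGL(ι, ℝ))) =
      (fun g : GL ι ℝ => (Matrix.ProjGenLinGroup.mk g : PGL(ι, ℝ))) ∘ fun g => g * A := by
    funext g
    simp [Function.comp]
  rw [this]
  exact continuous_mkPGL.comp (continuous_mul_const A)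

/-- A subgroup whose identity is isolated is discrete. -/
theorem discrete_of_isolated (H : Subgroup (PGL(ι, ℝ))) (U : Set (PGL(ι, ℝ)))
    (hU : IsOpen U) (h1 : (1 : PGL(ι, ℝ)) ∈ U) (h : ∀ g ∈ H, g ∈ U → g = 1) :
    DiscreteTopology H := by
  rw [discreteTopology_iff_isOpen_singleton]
  intro a
  have hc : Continuous (fun x : H => (a.1)⁻¹ * x.1) :=
    (continuous_mul_left_PGL (a.1)⁻¹).comp continuous_subtype_val
  have : ({a} : Set H) = (fun x : H => (a.1)⁻¹ * x.1) ⁻¹' U := by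
    ext x
    simp only [Set.mem_singleton_iff, Set.mem_preimage]
    constructor
    · rintro rfl
      simpa using h1
    · intro hx
      have := h _ (H.mul_mem (H.inv_mem a.2) x.2) hx
      exact Subtype.ext (inv_mul_eq_one.1 this).symm
  rw [this]
  exact hU.preimage hc

theorem isolated_of_discrete (H : Subgroup (PGL(ι, ℝ))) (hH : DiscreteTopology H) :
    ∃ U : Set (PGL(ι, ℝ)), IsOpen U ∧ (1 : PGL(ι, ℝ)) ∈ U ∧ ∀ g ∈ H, g ∈ U → g = 1 := by
  have h1 : IsOpen ({1} : Set H) := isOpen_discrete _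
  obtain ⟨U, hU, e⟩ := isOpen_induced_iff.1 h1
  refine ⟨U, hU, ?_, fun g hg hgU => ?_⟩
  · have : (1 : H) ∈ Subtype.val ⁻¹' U := by rw [e]; rfl
    exact this
  · have : (⟨g, hg⟩ : H) ∈ ({1} : Set H) := by rw [← e]; exact hgU
    exact congrArg Subtype.val this

end Pool.Agent.H138R3.NC
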