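import Pool.Agent.H138R3.SFMain

/-!
# The family of closed sets
-/

namespace Pool.Agent.H138R3

open Tm

/-- Separation: if `r` is not a subterm of `s`, some point has `s` but not `r`. -/
theorem exists_point (r s : Tm (ℕ → Bool)) (h : r ∉ subs s) :
    ∃ x, Valid x ∧ s ∈ Car x ∧ r ∉ Car x := by
  obtain ⟨c, hc⟩ : ∃ c : ℕ → Bool, leaf c ∉ subs r := by
    by_contra hno
    push Not at hno
    apply not_countable_cantor
    exact ((finite_leaves r).subset (fun a _ => hno a)).countable
  let p0 : Tm (ℕ → Bool) := node s (leaf c)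
  obtain ⟨τ0, h0⟩ := exists_cond p0
  have hnext : ∀ z : {z : Tm (ℕ → Bool) × Ty // Cond z.2 z.1},
      ∃ z' : {z : Tm (ℕ → Bool) × Ty // Cond z.2 z.1}, Ext z.1.2 z'.1.2 ∧
        z'.1.1 = node z.1.1 z.1.1 := by
    rintro ⟨⟨p, τ⟩, hz⟩
    obtain ⟨τ', e1, e2, -⟩ := exists_step hz hz.adm
      (Or.inl rfl : node p p = node p p ∨ _)
    exact ⟨⟨(node p p, τ'), e2⟩, e1, rfl⟩
  choose next hnext using hnext
  let s0 : {z : Tm (ℕ → Bool) × Ty // Cond z.2 z.1} := ⟨(p0, τ0), h0⟩
  let seq : ℕ → {z : Tm (ℕ → Bool) × Ty // Cond z.2 z.1} :=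
    fun k => Nat.rec s0 (fun _ s => next s) k
  have hseq : ∀ k, seq (k + 1) = next (seq k) := fun _ => rfl
  let p : ℕ → Tm (ℕ → Bool) := fun k => (seq k).1.1
  let τ : ℕ → Ty := fun k => (seq k).1.2
  have hcd : ∀ k, Cond (τ k) (p k) := fun k => (seq k).2
  have he : ∀ k, Ext (τ k) (τ (k + 1)) := fun k => by
    show Ext (seq k).1.2 (seq (k + 1)).1.2
    rw [hseq]
    exact (hnext (seq k)).1
  have hn : ∀ k, p (k + 1) = node (p k) (p k) := fun k => by
    show (seq (k + 1)).1.1 = node (seq k).1.1 (seq k).1.1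
    rw [hseq]
    exact (hnext (seq k)).2
  have hp : ∀ k, p k ∈ subs (p (k + 1)) := by
    intro k; rw [hn]; simp [subs, self_mem]
  have hv : Valid τ := chain_valid hcd he
  have hsubs : ∀ k, ∀ t ∈ subs (p k), t ∈ subs p0 ∨ ∃ j, j ≤ k ∧ t = p j := by
    intro k
    induction k with
    | zero => intro t ht; exact Or.inl ht
    | succ k ih =>
      intro t ht
      rw [hn, mem_subs_node] at ht
      rcases ht with h | h | h
      · exact Or.inr ⟨k + 1, le_rfl, by rw [h, hn]⟩
      · rcases ih t h with h | ⟨j, hj, e⟩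
        · exact Or.inl h
        · exact Or.inr ⟨j, by omega, e⟩
      · rcases ih t h with h | ⟨j, hj, e⟩
        · exact Or.inl h
        · exact Or.inr ⟨j, by omega, e⟩
  refine ⟨τ, hv, chain_car hcd he hp (k := 0) (by
    show s ∈ subs (node s (leaf c)); simp [subs, self_mem]), fun hr => ?_⟩
  have hcp : ∀ k, leaf c ∈ subs (p k) := by
    intro k
    have h1 : leaf c ∈ subs (p 0) := by
      show leaf c ∈ subs (node s (leaf c)); simp [subs]
    exact subs_trans h1 (chain_le hp (Nat.zero_le k))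
  have hrS : r ∈ subs p0 ++ (List.range (size r + 1)).map p := by
    apply lim_mem (n := fun k => (τ k).n) (fun k => hv.n_ge k)
    intro K
    refine ⟨max K (size r), le_max_left _ _, ?_⟩
    set k := max K (size r) with hk
    have hsz : size r < size (τ k).top :=
      lt_of_le_of_lt (le_max_right _ _) (hv.size_ge k)
    obtain ⟨t', ht', e⟩ := chain_mem hcd hr hsz
    refine ⟨t', ?_, e⟩
    have h4 : size t' = size r := by rw [← size_tr (τ k).n t', e, size_tr]
    rcases hsubs k t' ht' with h | ⟨j, hj, e2⟩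
    · exact List.mem_append.2 (Or.inl h)
    · apply List.mem_append.2
      right
      have h3 : j < size (p j) := by
        rw [← (hcd j).size_top]; exact hv.size_ge j
      rw [List.mem_map]
      refine ⟨j, ?_, e2.symm⟩
      rw [List.mem_range, ← h4, e2]
      omega
  rw [List.mem_append, List.mem_map] at hrS
  rcases hrS with h1 | ⟨j, -, e⟩
  · rcases mem_subs_node.1 h1 with h2 | h2 | h2
    · apply hc; rw [h2]; simp [subs]
    · exact h h2
    · simp only [subs, List.mem_singleton] at h2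
      apply hc; rw [h2]; exact self_mem _
  · apply hc; rw [← e]; exact hcp j

/-- An enumeration of the types. -/
noncomputable def en : ℕ → Ty := (exists_surjective_nat Ty).choose

theorem en_surj : Function.Surjective en := (exists_surjective_nat Ty).choose_spec

/-- The sequence of types coded by a point of the Baire space. -/
noncomputable def dec (y : ℕ → ℕ) : ℕ → Ty := fun k => en (y k)

theorem dec_surj : Function.Surjective dec := by
  intro x
  choose y hy using fun k => en_surj (x k)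
  exact ⟨y, funext hy⟩

/-- The closed set attached to a term. -/
def V (t : Tm (ℕ → Bool)) : Set (ℕ → ℕ) := {y | Valid (dec y) ∧ t ∈ Car (dec y)}

theorem isClosed_one (k : ℕ) (P : Ty → Prop) : IsClosed {y : ℕ → ℕ | P (dec y k)} := by
  have : {y : ℕ → ℕ | P (dec y k)} = (fun y : ℕ → ℕ => y k) ⁻¹' {m | P (en m)} := rfl
  rw [this]
  exact (isClosed_discrete _).preimage (continuous_apply k)

theorem isClosed_two (j k : ℕ) (P : Ty → Ty → Prop) :
    IsClosed {y : ℕ → ℕ | P (dec y j) (dec y k)} := by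
  have : {y : ℕ → ℕ | P (dec y j) (dec y k)} =
      (fun y : ℕ → ℕ => (y j, y k)) ⁻¹' {m | P (en m.1) (en m.2)} := rfl
  rw [this]
  exact (isClosed_discrete _).preimage ((continuous_apply j).prodMk (continuous_apply k))

theorem V_closed (t : Tm (ℕ → Bool)) : IsClosed (V t) := by
  have : V t = (({y | ∀ k, WF (dec y k)} ∩ {y | ∀ k, Ext (dec y k) (dec y (k + 1))}) ∩
      {y | ∀ k, size t < size (dec y k).top → tr (dec y k).n t ∈ subs (dec y k).top}) := rfl
  rw [this]
  refine IsClosed.inter (IsClosed.inter ?_ ?_) ?_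
  · simp only [Set.setOf_forall]
    exact isClosed_iInter fun k => isClosed_one k WF
  · simp only [Set.setOf_forall]
    exact isClosed_iInter fun k => isClosed_two k (k + 1) Ext
  · rw [Set.setOf_forall]
    exact isClosed_iInter fun k => isClosed_one k
      (fun τ => size t < size τ.top → tr τ.n t ∈ subs τ.top)

theorem V_subset {s t : Tm (ℕ → Bool)} (h : t ∈ subs s) : V s ⊆ V t :=
  fun _ hy => ⟨hy.1, hy.1.car_subs hy.2 h⟩

theorem V_reflect {s t : Tm (ℕ → Bool)} (h : V s ⊆ V t) : t ∈ subs s := by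
  by_contra hno
  obtain ⟨x, hx, h1, h2⟩ := exists_point t s hno
  obtain ⟨y, rfl⟩ := dec_surj x
  exact h2 (h ⟨hx, h1⟩).2

theorem V_inj {s t : Tm (ℕ → Bool)} (h : V s = V t) : s = t :=
  subs_antisymm (V_reflect (le_of_eq h.symm)) (V_reflect (le_of_eq h))

theorem V_fill (t : Tm (ℕ → Bool)) (y : ℕ → ℕ) (hy : y ∈ V t) :
    ∃ s, V s ≠ V t ∧ y ∈ V s ∧ V s ⊆ V t := by
  obtain ⟨s, h1, h2, h3⟩ := hy.1.exists_super hy.2
  exact ⟨s, fun e => h3 (V_inj e).symm, ⟨hy.1, h1⟩, V_subset h2⟩

theorem V_bad (f : Tm (ℕ → Bool) → Bool) :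
    ∃ r y, y ∈ V r ∧ ∀ t, y ∈ V t → V t ⊆ V r → f t = f r := by
  obtain ⟨x, r, hx, hr, h⟩ := exists_bad f
  obtain ⟨y, rfl⟩ := dec_surj x
  exact ⟨r, y, ⟨hx, hr⟩, fun t ht hs => h t ht.2 (V_reflect hs)⟩

end Pool.Agent.H138R3
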