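import Pool.Agent.H138R3.SFTypes

/-!
# Every two-colouring of the terms has a bad point
-/

namespace Pool.Agent.H138R3

open Tm

section chain

variable {p : ℕ → Tm (ℕ → Bool)} {τ : ℕ → Ty}

theorem chain_valid (hc : ∀ k, Cond (τ k) (p k)) (he : ∀ k, Ext (τ k) (τ (k + 1))) :
    Valid τ := ⟨fun k => (hc k).wf, he⟩

theorem chain_le (hp : ∀ k, p k ∈ subs (p (k + 1))) {j k : ℕ} (h : j ≤ k) :
    p j ∈ subs (p k) := by
  induction k, h using Nat.le_induction with
  | base => exact self_mem _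
  | succ k hk ih => exact subs_trans ih (hp k)

theorem chain_car (hc : ∀ k, Cond (τ k) (p k)) (he : ∀ k, Ext (τ k) (τ (k + 1)))
    (hp : ∀ k, p k ∈ subs (p (k + 1))) {k : ℕ} {t : Tm (ℕ → Bool)}
    (ht : t ∈ subs (p k)) : t ∈ Car τ := by
  apply (chain_valid hc he).mem_car
  intro K
  refine ⟨max K k, le_max_left _ _, ?_⟩
  rw [← (hc (max K k)).1]
  exact tr_mem (subs_trans ht (chain_le hp (le_max_right _ _)))

theorem chain_mem (hc : ∀ k, Cond (τ k) (p k)) {t : Tm (ℕ → Bool)} (ht : t ∈ Car τ)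
    {k : ℕ} (hk : size t < size (τ k).top) :
    ∃ t' ∈ subs (p k), tr (τ k).n t' = tr (τ k).n t := by
  have := ht k hk
  rwa [← (hc k).1, mem_subs_tr] at this

end chain

/-- States reachable from `(r, τ0)`. -/
structure Inv (r : Tm (ℕ → Bool)) (τ0 : Ty) (s : Tm (ℕ → Bool) × Ty) : Prop where
  mem : r ∈ subs s.1
  cond : Cond s.2 s.1
  adm : ∀ b, Adm s.2 b → Adm τ0 b
  presD : ∀ t ∈ subs r, tr τ0.n t ∈ τ0.D → tr s.2.n t ∈ s.2.D
  presG : ∀ t ∈ subs r, ∀ u ∈ subs r, t ≠ r → (tr τ0.n t, tr τ0.n u) ∈ τ0.G →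
    (tr s.2.n t, tr s.2.n u) ∈ s.2.G

theorem exists_terminal (f : Tm (ℕ → Bool) → Bool)
    (hnb : ∀ x r, Valid x → r ∈ Car x → ∃ t ∈ Car x, r ∈ subs t ∧ f t ≠ f r)
    (r : Tm (ℕ → Bool)) (τ0 : Ty) (h0 : Cond τ0 r) :
    ∃ s, Inv r τ0 s ∧ ∀ q, r ∉ subs q → Adm s.2 q →
      f (node s.1 q) ≠ f r ∧ f (node q s.1) ≠ f r := by
  by_contra hcon
  have hnext : ∀ s : {s // Inv r τ0 s}, ∃ s' : {s // Inv r τ0 s}, Ext s.1.2 s'.1.2 ∧
      f s'.1.1 = f r ∧ ∃ q, r ∉ subs q ∧
        (s'.1.1 = node s.1.1 q ∨ s'.1.1 = node q s.1.1) := by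
    rintro ⟨⟨p, τ⟩, hs⟩
    have : ∃ q, r ∉ subs q ∧ Adm τ q ∧ (f (node p q) = f r ∨ f (node q p) = f r) := by
      by_contra hno
      apply hcon
      refine ⟨(p, τ), hs, fun q h1 h2 => ⟨fun e => hno ⟨q, h1, h2, Or.inl e⟩,
        fun e => hno ⟨q, h1, h2, Or.inr e⟩⟩⟩
    obtain ⟨q, hq1, hq2, hq3⟩ := this
    have hp' : ∃ p', (p' = node p q ∨ p' = node q p) ∧ f p' = f r := by
      rcases hq3 with h | h
      · exact ⟨_, Or.inl rfl, h⟩
      · exact ⟨_, Or.inr rfl, h⟩
    obtain ⟨p', hp', hf⟩ := hp'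
    obtain ⟨τ', e1, e2, e3, e4, e5⟩ := exists_step hs.cond hq2 hp'
    have hpp : p ∈ subs p' := by
      rcases hp' with rfl | rfl <;> simp [subs, self_mem]
    refine ⟨⟨(p', τ'), ⟨subs_trans hs.mem hpp, e2, fun b hb => hs.adm b (hb.of_ext e1),
      fun t ht hD => e3 t (subs_trans ht hs.mem) (hs.presD t ht hD), ?_⟩⟩, e1, hf, q, hq1,
      hp'⟩
    intro t ht u hu hne hG
    refine e5 t (subs_trans ht hs.mem) u (subs_trans hu hs.mem) ?_ (hs.presG t ht u hu hne hG)
    rintro rfl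
    exact hne (subs_antisymm ht hs.mem)
  choose next hnext using hnext
  let s0 : {s // Inv r τ0 s} := ⟨(r, τ0), ⟨self_mem r, h0, fun _ hb => hb,
    fun _ _ h => h, fun _ _ _ _ _ h => h⟩⟩
  let seq : ℕ → {s // Inv r τ0 s} := fun k => Nat.rec s0 (fun _ s => next s) k
  have hseq : ∀ k, seq (k + 1) = next (seq k) := fun _ => rfl
  let p : ℕ → Tm (ℕ → Bool) := fun k => (seq k).1.1
  let τ : ℕ → Ty := fun k => (seq k).1.2
  have hc : ∀ k, Cond (τ k) (p k) := fun k => (seq k).2.cond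
  have he : ∀ k, Ext (τ k) (τ (k + 1)) := fun k => by
    show Ext (seq k).1.2 (seq (k + 1)).1.2
    rw [hseq]
    exact (hnext (seq k)).1
  have hf : ∀ k, f (p k) = f r := by
    intro k
    cases k with
    | zero => rfl
    | succ k =>
      show f (seq (k + 1)).1.1 = f r
      rw [hseq]
      exact (hnext (seq k)).2.1
  have hq : ∀ k, ∃ q, r ∉ subs q ∧ (p (k + 1) = node (p k) q ∨ p (k + 1) = node q (p k)) := by
    intro k
    show ∃ q, r ∉ subs q ∧ ((seq (k + 1)).1.1 = _ ∨ (seq (k + 1)).1.1 = _)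
    rw [hseq]
    exact (hnext (seq k)).2.2
  have hp : ∀ k, p k ∈ subs (p (k + 1)) := by
    intro k
    obtain ⟨q, -, h | h⟩ := hq k <;> rw [h] <;> simp [subs, self_mem]
  have hv : Valid τ := chain_valid hc he
  have hsuper : ∀ k, ∀ t ∈ subs (p k), r ∈ subs t → ∃ j, j ≤ k ∧ t = p j := by
    intro k
    induction k with
    | zero =>
      intro t ht hr
      exact ⟨0, le_rfl, subs_antisymm ht hr⟩
    | succ k ih =>
      intro t ht hr
      obtain ⟨q, hq1, hq2⟩ := hq k
      have hcases : t = p (k + 1) ∨ t ∈ subs (p k) ∨ t ∈ subs q := by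
        rcases hq2 with h | h
        · rw [h] at ht ⊢
          exact mem_subs_node.1 ht
        · rw [h] at ht ⊢
          rcases mem_subs_node.1 ht with h | h | h
          · exact Or.inl h
          · exact Or.inr (Or.inr h)
          · exact Or.inr (Or.inl h)
      rcases hcases with h | h | h
      · exact ⟨k + 1, le_rfl, h⟩
      · obtain ⟨j, hj, e⟩ := ih t h hr
        exact ⟨j, by omega, e⟩
      · exact absurd (subs_trans hr h) hq1
  have hr0 : r ∈ Car τ := chain_car hc he hp (k := 0) (self_mem r)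
  obtain ⟨t, ht, hrt, hft⟩ := hnb τ r hv hr0
  have htS : t ∈ (List.range (size t + 1)).map p := by
    apply lim_mem (n := fun k => (τ k).n) (fun k => hv.n_ge k)
    intro K
    refine ⟨max K (size t), le_max_left _ _, ?_⟩
    set k := max K (size t) with hk
    have hsz : size t < size (τ k).top :=
      lt_of_le_of_lt (le_max_right _ _) (hv.size_ge k)
    obtain ⟨t', ht', e⟩ := chain_mem hc ht hsz
    refine ⟨t', ?_, e⟩
    have h1 : tr (τ k).n r ∈ subs (tr (τ k).n t') := by rw [e]; exact tr_mem hrt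
    rw [mem_subs_tr] at h1
    obtain ⟨r', hr', e'⟩ := h1
    have h2 : r' = r := (hc k).2.1 r' (subs_trans hr' ht') r (seq k).2.mem e'
    subst h2
    obtain ⟨j, hj, e2⟩ := hsuper k t' ht' hr'
    have h3 : j < size (p j) := by
      rw [← (hc j).size_top]; exact hv.size_ge j
    have h4 : size t' = size t := by rw [← size_tr (τ k).n t', e, size_tr]
    rw [List.mem_map]
    refine ⟨j, ?_, e2.symm⟩
    rw [List.mem_range, ← h4, e2]
    omega
  rw [List.mem_map] at htS
  obtain ⟨j, -, e⟩ := htS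
  exact hft (by rw [← e]; exact hf j)

theorem pigeon {α β : Type} [Countable β] (S : Set α) (hS : ¬ S.Countable) (φ : α → β) :
    ∃ c, ¬ {a | a ∈ S ∧ φ a = c}.Countable := by
  by_contra h
  push Not at h
  apply hS
  have : S = ⋃ c, {a | a ∈ S ∧ φ a = c} := by
    ext a; simp
  rw [this]
  exact Set.countable_iUnion h

theorem free_pair {α : Type} (S : Set α) (hS : ¬ S.Countable) (F : α → Set α)
    (hF : ∀ a, (F a).Finite) : ∃ a ∈ S, ∃ c ∈ S, c ∉ F a ∧ a ∉ F c := by
  have hinf : S.Infinite := fun h => hS h.countable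
  let j := hinf.natEmbedding S
  have hU : (⋃ n, F (j n)).Countable := Set.countable_iUnion fun n => (hF _).countable
  have : ∃ c ∈ S, c ∉ ⋃ n, F (j n) := by
    by_contra h
    push Not at h
    exact hS (hU.mono h)
  obtain ⟨c, hc, hcU⟩ := this
  have : ∃ n, (j n : α) ∉ F c := by
    by_contra h
    push Not at h
    have hi : Function.Injective (fun n => (j n : α)) :=
      Subtype.val_injective.comp j.injective
    exact (Set.infinite_of_injective_forall_mem hi h) (hF c)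
  obtain ⟨n, hn⟩ := this
  refine ⟨j n, (j n).2, c, hc, fun h => hcU (Set.mem_iUnion.2 ⟨n, h⟩), hn⟩

theorem finite_leaves (t : Tm (ℕ → Bool)) : {a | leaf a ∈ subs t}.Finite := by
  have : {a | leaf a ∈ subs t} = leaf ⁻¹' {s | s ∈ subs t} := rfl
  rw [this]
  apply Set.Finite.preimage
  · intro a _ b _ h; exact (leaf.injEq _ _).mp h
  · exact List.finite_toSet _

theorem not_countable_cantor : ¬ (Set.univ : Set (ℕ → Bool)).Countable := by
  intro h
  rw [Set.countable_univ_iff] at h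
  obtain ⟨g, hg⟩ := h.exists_injective_nat
  have : Function.Injective (fun s : Set ℕ => g (fun n => by
      classical exact decide (n ∈ s))) := by
    intro s t hst
    have := hg hst
    ext n
    have := congrFun this n
    simpa using this
  exact Function.cantor_injective _ this

theorem exists_bad (f : Tm (ℕ → Bool) → Bool) :
    ∃ x r, Valid x ∧ r ∈ Car x ∧ ∀ t ∈ Car x, r ∈ subs t → f t = f r := by
  by_contra hcon
  have hnb : ∀ x r, Valid x → r ∈ Car x → ∃ t ∈ Car x, r ∈ subs t ∧ f t ≠ f r := by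
    intro x r hx hr
    by_contra h
    apply hcon
    refine ⟨x, r, hx, hr, fun t ht hrt => ?_⟩
    by_contra hne
    exact h ⟨t, ht, hrt, hne⟩
  -- first phase
  have hP : ∀ a : ℕ → Bool, ∃ s : Tm (ℕ → Bool) × Ty, leaf a ∈ subs s.1 ∧ Cond s.2 s.1 ∧
      ∀ q, leaf a ∉ subs q → Adm s.2 q →
        f (node s.1 q) ≠ f (leaf a) ∧ f (node q s.1) ≠ f (leaf a) := by
    intro a
    obtain ⟨τ0, h0⟩ := exists_cond (leaf a)
    obtain ⟨s, hs, ht⟩ := exists_terminal f hnb (leaf a) τ0 h0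
    exact ⟨s, hs.mem, hs.cond, ht⟩
  choose P hP1 hP2 hP3 using hP
  obtain ⟨⟨i, τ⟩, hI1⟩ := pigeon Set.univ not_countable_cantor
    (fun a => (f (leaf a), (P a).2))
  set I1 : Set (ℕ → Bool) := {a | a ∈ Set.univ ∧ (f (leaf a), (P a).2) = (i, τ)} with hI1def
  have hI1' : ∀ a ∈ I1, f (leaf a) = i ∧ (P a).2 = τ := by
    intro a ha
    have := ha.2
    simpa only [Prod.mk.injEq] using this
  obtain ⟨as, has⟩ : I1.Nonempty := by
    by_contra h
    rw [Set.not_nonempty_iff_eq_empty] at h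
    exact hI1 (by rw [h]; exact Set.countable_empty)
  set qs := (P as).1 with hqs
  set I2 : Set (ℕ → Bool) := {a | a ∈ I1 ∧ leaf a ∉ subs qs} with hI2def
  have hI2 : ¬ I2.Countable := by
    intro h
    apply hI1
    apply (h.union (finite_leaves qs).countable).mono
    intro a ha
    by_cases hq : leaf a ∈ subs qs
    · exact Or.inr hq
    · exact Or.inl ⟨ha, hq⟩
  -- second phase
  have hadm : ∀ a ∈ I1, Adm (P a).2 qs := by
    intro a ha
    rw [(hI1' a ha).2, ← (hI1' as has).2]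
    exact (hP2 as).adm
  have hQ : ∀ a : ℕ → Bool, ∃ (T : Ty) (s : Tm (ℕ → Bool) × Ty), a ∈ I2 →
      (f (node (P a).1 qs) ≠ f (leaf a) ∧ Ext (P a).2 T ∧
      tr T.n (P a).1 ∈ T.D ∧
      (∀ t ∈ subs (P a).1, ∀ u ∈ subs (P a).1, t ≠ (P a).1 →
        (tr (P a).2.n t, tr (P a).2.n u) ∈ (P a).2.G → (tr T.n t, tr T.n u) ∈ T.G) ∧
      Inv (node (P a).1 qs) T s ∧
      ∀ q, node (P a).1 qs ∉ subs q → Adm s.2 q →
        f (node s.1 q) ≠ f (node (P a).1 qs) ∧ f (node q s.1) ≠ f (node (P a).1 qs)) := by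
    intro a
    by_cases ha : a ∈ I2
    · obtain ⟨T, e1, e2, -, e4, e5⟩ := exists_step (hP2 a) (hadm a ha.1)
        (Or.inl rfl : node (P a).1 qs = node (P a).1 qs ∨ _)
      obtain ⟨s, hs, ht⟩ := exists_terminal f hnb _ T e2
      exact ⟨T, s, fun _ => ⟨(hP3 a qs ha.2 (hadm a ha.1)).1, e1, e4, e5, hs, ht⟩⟩
    · exact ⟨τ, P a, fun h => absurd h ha⟩
  choose T Q hQ using hQ
  obtain ⟨τ', hI3⟩ := pigeon I2 hI2 (fun a => (Q a).2)
  obtain ⟨a, ha, c, hc, hca, hac⟩ := free_pair _ hI3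
    (fun a => {c | leaf c ∈ subs (Q a).1}) (fun a => finite_leaves _)
  have ha2 : a ∈ I2 := ha.1
  have hc2 : c ∈ I2 := hc.1
  have haτ : (Q a).2 = (Q c).2 := by rw [ha.2, hc.2]
  obtain ⟨a1, a2, a3, a4, a5, a6⟩ := hQ a ha2
  obtain ⟨c1, c2, c3, c4, c5, c6⟩ := hQ c hc2
  have hPc : (P c).1 ∈ subs (node (P c).1 qs) := by simp [subs, self_mem]
  have hPa : (P a).1 ∈ subs (node (P a).1 qs) := by simp [subs, self_mem]
  -- red side
  have red : f (node (P c).1 (Q a).1) ≠ f (leaf c) := by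
    apply (hP3 c (Q a).1 hca _).1
    rw [(hI1' c hc2.1).2, ← (hI1' a ha2.1).2]
    exact (a5.adm _ a5.cond.adm).of_ext a2
  -- blue side
  have blue : f (node (P c).1 (Q a).1) ≠ f (node (P a).1 qs) := by
    apply (a6 (P c).1 _ _).2
    · intro h
      apply hac
      exact subs_trans (hP1 a) (subs_trans hPa (subs_trans h (subs_trans hPc c5.mem)))
    · rw [haτ]
      intro t ht hsz
      have htB : t ∈ subs (node (P c).1 qs) := subs_trans ht hPc
      refine ⟨?_, ?_⟩
      · rw [← c5.cond.1]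
        exact tr_mem (subs_trans htB c5.mem)
      · by_cases htp : t = (P c).1
        · left
          apply c5.presD t htB
          rw [htp]; exact c3
        · right
          obtain ⟨s, s1, s2, s3, s4⟩ := (hP2 c).2.2.1 t ht htp
          refine ⟨s, s1, s2, s3, ?_⟩
          apply c5.presG t htB s (subs_trans s1 hPc) _ (c4 t ht s s1 htp s4)
          intro e
          have h1 := size_le ht
          rw [e] at h1
          have := size_pos qs
          simp only [size] at h1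
          omega
  have e1 : f (leaf a) = f (leaf c) := by rw [(hI1' a ha2.1).1, (hI1' c hc2.1).1]
  rw [e1] at a1
  generalize f (node (P c).1 (Q a).1) = x at *
  generalize f (node (P a).1 qs) = y at *
  generalize f (leaf c) = z at *
  revert red blue a1
  cases x <;> cases y <;> cases z <;> simp

end Pool.Agent.H138R3
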