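import Mathlib

/-!
# Binary terms, subterms and truncations

Terms over an alphabet `α`, the list of subterms of a term, and the truncation of terms
over the Cantor space `ℕ → Bool` to terms over finite binary words.
-/

namespace Pool.Agent.H138R3

/-- Binary terms over `α`. -/
inductive Tm (α : Type) : Type
  | leaf : α → Tm α
  | node : Tm α → Tm α → Tm α

namespace Tm

variable {α β γ : Type}

/-- Relabel the leaves. -/
def map (f : α → β) : Tm α → Tm β
  | leaf a => leaf (f a)
  | node l r => node (map f l) (map f r)

/-- Number of leaves. -/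
def size : Tm α → ℕ
  | leaf _ => 1
  | node l r => size l + size r

/-- The list of all subterms. -/
def subs : Tm α → List (Tm α)
  | leaf a => [leaf a]
  | node l r => node l r :: (subs l ++ subs r)

theorem size_pos (t : Tm α) : 0 < size t := by
  induction t with
  | leaf a => simp [size]
  | node l r hl hr => simp only [size]; omega

theorem self_mem (t : Tm α) : t ∈ subs t := by
  cases t <;> simp [subs]

theorem mem_subs_node {s l r : Tm α} :
    s ∈ subs (node l r) ↔ s = node l r ∨ s ∈ subs l ∨ s ∈ subs r := by
  simp [subs]

theorem subs_trans {s t u : Tm α} (h1 : s ∈ subs t) (h2 : t ∈ subs u) : s ∈ subs u := by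
  induction u with
  | leaf a =>
    simp only [subs, List.mem_singleton] at h2
    subst h2
    exact h1
  | node l r hl hr =>
    rw [mem_subs_node] at h2 ⊢
    rcases h2 with h2 | h2 | h2
    · subst h2
      rwa [mem_subs_node] at h1
    · exact Or.inr (Or.inl (hl h2))
    · exact Or.inr (Or.inr (hr h2))

theorem size_le {s t : Tm α} (h : s ∈ subs t) : size s ≤ size t := by
  induction t with
  | leaf a =>
    simp only [subs, List.mem_singleton] at h
    subst h
    exact le_rfl
  | node l r hl hr =>
    rw [mem_subs_node] at h
    rcases h with h | h | h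
    · subst h; exact le_rfl
    · have := hl h; simp only [size]; omega
    · have := hr h; simp only [size]; omega

theorem size_lt {s t : Tm α} (h : s ∈ subs t) (hne : s ≠ t) : size s < size t := by
  cases t with
  | leaf a =>
    simp only [subs, List.mem_singleton] at h
    exact absurd h hne
  | node l r =>
    rw [mem_subs_node] at h
    rcases h with h | h | h
    · exact absurd h hne
    · have := size_le h; have := size_pos r; simp only [size]; omega
    · have := size_le h; have := size_pos l; simp only [size]; omega

theorem subs_antisymm {s t : Tm α} (h1 : s ∈ subs t) (h2 : t ∈ subs s) : s = t := by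
  by_contra hne
  have := size_lt h1 hne
  have := size_le h2
  omega

theorem size_map (f : α → β) (t : Tm α) : size (map f t) = size t := by
  induction t with
  | leaf a => rfl
  | node l r hl hr => simp only [map, size, hl, hr]

theorem subs_map (f : α → β) (t : Tm α) : subs (map f t) = (subs t).map (map f) := by
  induction t with
  | leaf a => rfl
  | node l r hl hr => simp only [map, subs, hl, hr, List.map_cons, List.map_append]

theorem mem_subs_map {f : α → β} {t : Tm α} {u : Tm β} :
    u ∈ subs (map f t) ↔ ∃ w ∈ subs t, map f w = u := by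
  rw [subs_map, List.mem_map]

theorem map_map (f : α → β) (g : β → γ) (t : Tm α) : map g (map f t) = map (g ∘ f) t := by
  induction t with
  | leaf a => rfl
  | node l r hl hr => simp only [map, hl, hr]

theorem exists_leaf (t : Tm α) : ∃ a, leaf a ∈ subs t := by
  induction t with
  | leaf a => exact ⟨a, self_mem _⟩
  | node l r hl _ =>
    obtain ⟨a, ha⟩ := hl
    exact ⟨a, mem_subs_node.2 (Or.inr (Or.inl ha))⟩

/-- A numerical code of terms over an encodable alphabet. -/
def code [Encodable α] : Tm α → ℕ
  | leaf a => 2 * Encodable.encode a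
  | node l r => 2 * Nat.pair (code l) (code r) + 1

theorem code_injective [Encodable α] : Function.Injective (code : Tm α → ℕ) := by
  intro s
  induction s with
  | leaf a =>
    intro t h
    cases t with
    | leaf b =>
      simp only [code] at h
      have : Encodable.encode a = Encodable.encode b := by omega
      rw [Encodable.encode_injective this]
    | node l r => simp only [code] at h; omega
  | node l r hl hr =>
    intro t h
    cases t with
    | leaf b => simp only [code] at h; omega
    | node l' r' =>
      simp only [code] at h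
      have h' : Nat.pair (code l) (code r) = Nat.pair (code l') (code r') := by omega
      rw [Nat.pair_eq_pair] at h'
      rw [hl h'.1, hr h'.2]

instance [Encodable α] : Countable (Tm α) := code_injective.countable

/-- Truncation of a term over the Cantor space at level `n`. -/
def tr (n : ℕ) : Tm (ℕ → Bool) → Tm (List Bool) :=
  map (fun a => (List.range n).map a)

/-- Truncation of a term over finite words at level `n`. -/
def dn (n : ℕ) : Tm (List Bool) → Tm (List Bool) :=
  map (List.take n)

theorem dn_tr {n m : ℕ} (h : n ≤ m) (t : Tm (ℕ → Bool)) : dn n (tr m t) = tr n t := by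
  unfold dn tr
  rw [map_map]
  congr 1
  funext a
  simp only [Function.comp]
  rw [← List.map_take, List.take_range, min_eq_left h]

theorem size_tr (n : ℕ) (t : Tm (ℕ → Bool)) : size (tr n t) = size t := size_map _ _

theorem mem_subs_tr {n : ℕ} {t : Tm (ℕ → Bool)} {u : Tm (List Bool)} :
    u ∈ subs (tr n t) ↔ ∃ w ∈ subs t, tr n w = u := mem_subs_map

theorem tr_mem {n : ℕ} {s t : Tm (ℕ → Bool)} (h : s ∈ subs t) : tr n s ∈ subs (tr n t) :=
  mem_subs_tr.2 ⟨s, h, rfl⟩

theorem tr_mono {n m : ℕ} (h : n ≤ m) {s t : Tm (ℕ → Bool)} (e : tr m s = tr m t) :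
    tr n s = tr n t := by
  rw [← dn_tr h s, ← dn_tr h t, e]

theorem tr_ext {s t : Tm (ℕ → Bool)} (h : ∀ n, tr n s = tr n t) : s = t := by
  induction s generalizing t with
  | leaf a =>
    cases t with
    | leaf b =>
      congr 1
      funext i
      have := h (i + 1)
      simp only [tr, map, leaf.injEq] at this
      rw [List.map_inj_left] at this
      exact this i (List.mem_range.2 (Nat.lt_succ_self i))
    | node l r => have := h 0; simp [tr, map] at this
  | node l r hl hr =>
    cases t with
    | leaf b => have := h 0; simp [tr, map] at this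
    | node l' r' =>
      have h1 : ∀ n, tr n l = tr n l' := fun n => by
        have := h n; simp only [tr, map, node.injEq] at this; exact this.1
      have h2 : ∀ n, tr n r = tr n r' := fun n => by
        have := h n; simp only [tr, map, node.injEq] at this; exact this.2
      rw [hl h1, hr h2]

theorem exists_sep_pair (s t : Tm (ℕ → Bool)) :
    ∃ N, ∀ n, N ≤ n → tr n s = tr n t → s = t := by
  by_cases h : s = t
  · exact ⟨0, fun _ _ _ => h⟩
  · have : ∃ N, tr N s ≠ tr N t := by
      by_contra hc
      push Not at hc
      exact h (tr_ext hc)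
    obtain ⟨N, hN⟩ := this
    exact ⟨N, fun n hn e => absurd (tr_mono hn e) hN⟩

theorem exists_sep_one (s : Tm (ℕ → Bool)) (L : List (Tm (ℕ → Bool))) :
    ∃ N, ∀ n, N ≤ n → ∀ t ∈ L, tr n s = tr n t → s = t := by
  induction L with
  | nil => exact ⟨0, by simp⟩
  | cons a L ih =>
    obtain ⟨N1, h1⟩ := ih
    obtain ⟨N2, h2⟩ := exists_sep_pair s a
    refine ⟨max N1 N2, fun n hn t ht e => ?_⟩
    rcases List.mem_cons.1 ht with rfl | ht
    · exact h2 n (le_trans (le_max_right _ _) hn) e
    · exact h1 n (le_trans (le_max_left _ _) hn) t ht e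

theorem exists_sep (L : List (Tm (ℕ → Bool))) :
    ∃ N, ∀ n, N ≤ n → ∀ s ∈ L, ∀ t ∈ L, tr n s = tr n t → s = t := by
  have key : ∀ L' : List (Tm (ℕ → Bool)),
      ∃ N, ∀ n, N ≤ n → ∀ s ∈ L', ∀ t ∈ L, tr n s = tr n t → s = t := by
    intro L'
    induction L' with
    | nil => exact ⟨0, by simp⟩
    | cons a L' ih =>
      obtain ⟨N1, h1⟩ := ih
      obtain ⟨N2, h2⟩ := exists_sep_one a L
      refine ⟨max N1 N2, fun n hn s hs t ht e => ?_⟩
      rcases List.mem_cons.1 hs with rfl | hs
      · exact h2 n (le_trans (le_max_right _ _) hn) t ht e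
      · exact h1 n (le_trans (le_max_left _ _) hn) s hs t ht e
  exact key L

/-- A list that infinitely often contains a term agreeing with `t` up to level `n k`
contains `t`. -/
theorem lim_mem {n : ℕ → ℕ} (hn : ∀ k, k ≤ n k) (S : List (Tm (ℕ → Bool)))
    (t : Tm (ℕ → Bool)) (h : ∀ K, ∃ k, K ≤ k ∧ ∃ t' ∈ S, tr (n k) t' = tr (n k) t) :
    t ∈ S := by
  obtain ⟨N, hN⟩ := exists_sep_one t S
  obtain ⟨k, hk, t', ht', e⟩ := h N
  have := hN (n k) (le_trans hk (hn k)) t' ht' e.symm
  rw [this]; exact ht'

/-- Coherent sequences of terms converge. -/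
theorem exists_limit (n : ℕ → ℕ) (hn : ∀ k, n k < n (k + 1)) (v : Tm (ℕ → Bool)) :
    ∀ (W : ℕ → Tm (ℕ → Bool)), W 0 = v →
      (∀ k, tr (n k) (W (k + 1)) = tr (n k) (W k)) →
      ∃ s, ∀ k, tr (n k) s = tr (n k) (W k) := by
  have hmono : StrictMono n := strictMono_nat_of_lt_succ hn
  have agree : ∀ (W : ℕ → Tm (ℕ → Bool)),
      (∀ k, tr (n k) (W (k + 1)) = tr (n k) (W k)) →
      ∀ j k, j ≤ k → tr (n j) (W k) = tr (n j) (W j) := by
    intro W hW j k hjk
    induction k, hjk using Nat.le_induction with
    | base => rfl
    | succ k hk ih =>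
      rw [← ih]
      exact tr_mono (hmono.monotone hk) (hW k)
  induction v with
  | leaf a =>
    intro W h0 hW
    have hleaf : ∀ k, ∃ b, W k = leaf b := by
      intro k
      induction k with
      | zero => exact ⟨a, h0⟩
      | succ k ih =>
        obtain ⟨b, hb⟩ := ih
        have := hW k
        rw [hb] at this
        cases hc : W (k + 1) with
        | leaf c => exact ⟨c, rfl⟩
        | node l r => rw [hc] at this; simp [tr, map] at this
    choose A hA using hleaf
    refine ⟨leaf (fun i => A (i + 1) i), fun k => ?_⟩
    rw [hA k]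
    simp only [tr, map, leaf.injEq]
    rw [List.map_inj_left]
    intro i hi
    rw [List.mem_range] at hi
    have hi' : i < n (i + 1) := lt_of_lt_of_le (Nat.lt_succ_self i) (hmono.le_apply)
    have key : ∀ j k, j ≤ k → i < n j → A k i = A j i := by
      intro j k hjk hij
      have := agree W hW j k hjk
      rw [hA k, hA j] at this
      simp only [tr, map, leaf.injEq] at this
      rw [List.map_inj_left] at this
      exact this i (List.mem_range.2 hij)
    rcases le_total (i + 1) k with h | h
    · exact (key (i + 1) k h hi').symm
    · exact key k (i + 1) h hi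
  | node l r hl hr =>
    intro W h0 hW
    have hnode : ∀ k, ∃ b c, W k = node b c := by
      intro k
      induction k with
      | zero => exact ⟨l, r, h0⟩
      | succ k ih =>
        obtain ⟨b, c, hb⟩ := ih
        have := hW k
        rw [hb] at this
        cases hc : W (k + 1) with
        | leaf c => rw [hc] at this; simp [tr, map] at this
        | node l r => exact ⟨l, r, rfl⟩
    choose B C hBC using hnode
    have e0 : node (B 0) (C 0) = node l r := by rw [← hBC 0]; exact h0
    simp only [node.injEq] at e0
    have hB : ∀ k, tr (n k) (B (k + 1)) = tr (n k) (B k) := by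
      intro k
      have := hW k
      rw [hBC k, hBC (k + 1)] at this
      simp only [tr, map, node.injEq] at this
      exact this.1
    have hC : ∀ k, tr (n k) (C (k + 1)) = tr (n k) (C k) := by
      intro k
      have := hW k
      rw [hBC k, hBC (k + 1)] at this
      simp only [tr, map, node.injEq] at this
      exact this.2
    obtain ⟨s1, h1⟩ := hl B e0.1 hB
    obtain ⟨s2, h2⟩ := hr C e0.2 hC
    refine ⟨node s1 s2, fun k => ?_⟩
    rw [hBC k]
    have a1 := h1 k
    have a2 := h2 k
    simp only [tr, map] at a1 a2 ⊢
    rw [a1, a2]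

end Tm

end Pool.Agent.H138R3
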