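import Pool.Agent.H138R3.SFTerms

/-!
# Types and points

A type is a finite approximation to a closed set of terms.  A valid sequence of types
determines a closed set of terms (its carrier) which is closed under subterms and in which
every member is a proper subterm of another member.
-/

namespace Pool.Agent.H138R3

open Tm

/-- Finite approximations. -/
structure Ty where
  n : ℕ
  top : Tm (List Bool)
  D : List (Tm (List Bool))
  G : List (Tm (List Bool) × Tm (List Bool))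

namespace Ty

instance : Countable Ty := by
  have : Function.Injective
      (fun τ : Ty => (τ.n, τ.top, τ.D, τ.G)) := by
    intro a b h
    cases a; cases b
    simp only [Prod.mk.injEq] at h
    obtain ⟨h1, h2, h3, h4⟩ := h
    subst h1 h2 h3 h4
    rfl
  exact this.countable

instance : Nonempty Ty := ⟨⟨0, .leaf [], [], []⟩⟩

end Ty

/-- Local requirements on a type. -/
def WF (τ : Ty) : Prop :=
  (∃ p : Tm (ℕ → Bool), tr τ.n p = τ.top) ∧
  (∀ u ∈ subs τ.top, u ≠ τ.top → ∃ s ∈ subs τ.top, u ∈ subs s ∧ u ≠ s ∧ (u, s) ∈ τ.G) ∧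
  (∀ u s s', (u, s) ∈ τ.G → (u, s') ∈ τ.G → s = s')

/-- `τ'` refines `τ`. -/
def Ext (τ τ' : Ty) : Prop :=
  τ.n < τ'.n ∧ size τ.top < size τ'.top ∧
  ∀ u ∈ subs τ'.top, size u < size τ.top →
    dn τ.n u ∈ subs τ.top ∧ (u ∈ τ'.D → dn τ.n u ∈ τ.D) ∧
    ((∀ s, (u, s) ∈ τ'.G → (dn τ.n u, dn τ.n s) ∈ τ.G) ∨ (dn τ.n u ∈ τ.D ∧ u ∉ τ'.D))

/-- Valid sequences of types. -/
def Valid (x : ℕ → Ty) : Prop := (∀ k, WF (x k)) ∧ ∀ k, Ext (x k) (x (k + 1))

/-- The closed set of terms determined by a sequence of types. -/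
def Car (x : ℕ → Ty) : Set (Tm (ℕ → Bool)) :=
  {t | ∀ k, size t < size (x k).top → tr (x k).n t ∈ subs (x k).top}

section basic

variable {x : ℕ → Ty}

theorem Valid.size_ge (hx : Valid x) : ∀ k, k < size (x k).top
  | 0 => size_pos _
  | k + 1 => lt_of_le_of_lt (Nat.succ_le_of_lt (hx.size_ge k)) (hx.2 k).2.1

theorem Valid.n_mono (hx : Valid x) : StrictMono (fun k => (x k).n) :=
  strictMono_nat_of_lt_succ fun k => (hx.2 k).1

theorem Valid.n_ge (hx : Valid x) (k : ℕ) : k ≤ (x k).n := hx.n_mono.le_apply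

theorem Valid.size_mono (hx : Valid x) : StrictMono (fun k => size (x k).top) :=
  strictMono_nat_of_lt_succ fun k => (hx.2 k).2.1

theorem Valid.down (hx : Valid x) {t : Tm (ℕ → Bool)} {j : ℕ}
    (hj : size t < size (x j).top) :
    ∀ k, j ≤ k → tr (x k).n t ∈ subs (x k).top → tr (x j).n t ∈ subs (x j).top := by
  intro k hjk
  induction k, hjk using Nat.le_induction with
  | base => exact id
  | succ k hk ih =>
    intro h
    apply ih
    have h1 : size (tr (x (k + 1)).n t) < size (x k).top := by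
      rw [size_tr]
      exact lt_of_lt_of_le hj (hx.size_mono.monotone hk)
    have := ((hx.2 k).2.2 _ h h1).1
    rwa [dn_tr (le_of_lt (hx.2 k).1)] at this

theorem Valid.mem_car (hx : Valid x) {t : Tm (ℕ → Bool)}
    (h : ∀ K, ∃ k, K ≤ k ∧ tr (x k).n t ∈ subs (x k).top) : t ∈ Car x := by
  intro j hj
  obtain ⟨k, hk, hm⟩ := h j
  exact hx.down hj k hk hm

theorem Valid.car_subs (hx : Valid x) {t w : Tm (ℕ → Bool)} (ht : t ∈ Car x)
    (hw : w ∈ subs t) : w ∈ Car x := by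
  apply hx.mem_car
  intro K
  refine ⟨max K (size t), le_max_left _ _, ?_⟩
  have h1 : size t < size (x (max K (size t))).top :=
    lt_of_le_of_lt (le_max_right _ _) (hx.size_ge _)
  exact subs_trans (tr_mem hw) (ht _ h1)

/-- Every member of the carrier is a proper subterm of another one. -/
theorem Valid.exists_super (hx : Valid x) {t : Tm (ℕ → Bool)} (ht : t ∈ Car x) :
    ∃ s ∈ Car x, t ∈ subs s ∧ t ≠ s := by
  set k0 := size t with hk0
  have hsz : ∀ k, k0 ≤ k → size t < size (x k).top := fun k hk =>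
    lt_of_le_of_lt hk (hx.size_ge k)
  have hu : ∀ k, k0 ≤ k → tr (x k).n t ∈ subs (x k).top := fun k hk => ht k (hsz k hk)
  have hS : ∀ k, ∃ s : Tm (List Bool), k0 ≤ k → s ∈ subs (x k).top ∧
      tr (x k).n t ∈ subs s ∧ tr (x k).n t ≠ s ∧ (tr (x k).n t, s) ∈ (x k).G := by
    intro k
    by_cases hk : k0 ≤ k
    · have hne : tr (x k).n t ≠ (x k).top := by
        intro e
        have := hsz k hk
        rw [← e, size_tr] at this
        omega
      obtain ⟨s, h1, h2, h3, h4⟩ := (hx.1 k).2.1 _ (hu k hk) hne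
      exact ⟨s, fun _ => ⟨h1, h2, h3, h4⟩⟩
    · exact ⟨.leaf [], fun h => absurd h hk⟩
  choose S hS using hS
  -- eventual coherence
  have hD : ∀ k, k0 ≤ k → tr (x (k + 1)).n t ∈ (x (k + 1)).D → tr (x k).n t ∈ (x k).D := by
    intro k hk h
    have h1 : size (tr (x (k + 1)).n t) < size (x k).top := by rw [size_tr]; exact hsz k hk
    have := ((hx.2 k).2.2 _ (hu (k + 1) (by omega)) h1).2.1 h
    rwa [dn_tr (le_of_lt (hx.2 k).1)] at this
  have hcase : ∀ k, k0 ≤ k → dn (x k).n (S (k + 1)) = S k ∨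
      (tr (x k).n t ∈ (x k).D ∧ tr (x (k + 1)).n t ∉ (x (k + 1)).D) := by
    intro k hk
    have h1 : size (tr (x (k + 1)).n t) < size (x k).top := by rw [size_tr]; exact hsz k hk
    have h2 := ((hx.2 k).2.2 _ (hu (k + 1) (by omega)) h1).2.2
    rw [dn_tr (le_of_lt (hx.2 k).1)] at h2
    rcases h2 with h2 | h2
    · left
      have h3 := h2 _ (hS (k + 1) (by omega)).2.2.2
      exact (hx.1 k).2.2 _ _ _ h3 (hS k hk).2.2.2
    · right; exact h2
  have hev : ∃ k1, k0 ≤ k1 ∧ ∀ k, k1 ≤ k → dn (x k).n (S (k + 1)) = S k := by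
    by_cases hex : ∃ k, k0 ≤ k ∧
        (tr (x k).n t ∈ (x k).D ∧ tr (x (k + 1)).n t ∉ (x (k + 1)).D)
    · obtain ⟨k, hk, -, hk2⟩ := hex
      refine ⟨k + 1, by omega, fun j hj => ?_⟩
      have hnot : tr (x j).n t ∉ (x j).D := by
        induction j, hj using Nat.le_induction with
        | base => exact hk2
        | succ j hj ih => exact fun h => ih (hD j (by omega) h)
      rcases hcase j (by omega) with h | h
      · exact h
      · exact absurd h.1 hnot
    · push Not at hex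
      refine ⟨k0, le_rfl, fun j hj => ?_⟩
      rcases hcase j hj with h | h
      · exact h
      · exact absurd (hex j hj h.1) h.2
  obtain ⟨k1, hk1, hcoh⟩ := hev
  -- lift to terms over the Cantor space
  have hW : ∀ k, ∃ w : Tm (ℕ → Bool), k0 ≤ k → tr (x k).n w = S k := by
    intro k
    by_cases hk : k0 ≤ k
    · obtain ⟨p, hp⟩ := (hx.1 k).1
      have := (hS k hk).1
      rw [← hp, mem_subs_tr] at this
      obtain ⟨w, -, hw⟩ := this
      exact ⟨w, fun _ => hw⟩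
    · exact ⟨.leaf (fun _ => false), fun h => absurd h hk⟩
  choose W hW using hW
  obtain ⟨s, hs⟩ := exists_limit (fun k => (x (k1 + k)).n)
    (fun k => (hx.2 (k1 + k)).1) (W (k1 + 0)) (fun k => W (k1 + k)) rfl (by
      intro k
      have h1 : tr (x (k1 + k)).n (W (k1 + (k + 1))) =
          dn (x (k1 + k)).n (tr (x (k1 + k + 1)).n (W (k1 + k + 1))) := by
        rw [dn_tr (le_of_lt (hx.2 (k1 + k)).1)]; rfl
      show tr (x (k1 + k)).n (W (k1 + (k + 1))) = tr (x (k1 + k)).n (W (k1 + k))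
      rw [h1, hW (k1 + k + 1) (by omega), hcoh (k1 + k) (by omega), hW (k1 + k) (by omega)])
  have hs' : ∀ k, k1 ≤ k → tr (x k).n s = S k := by
    intro k hk
    obtain ⟨d, rfl⟩ := Nat.exists_eq_add_of_le hk
    have := hs d
    rw [this, hW (k1 + d) (by omega)]
  refine ⟨s, ?_, ?_, ?_⟩
  · apply hx.mem_car
    intro K
    refine ⟨max K k1, le_max_left _ _, ?_⟩
    rw [hs' _ (le_max_right _ _)]
    exact (hS _ (le_trans hk1 (le_max_right _ _))).1
  · apply lim_mem (n := fun k => (x k).n) (fun k => hx.n_ge k)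
    intro K
    refine ⟨max K k1, le_max_left _ _, ?_⟩
    have h1 := (hS _ (le_trans hk1 (le_max_right K k1))).2.1
    rw [← hs' _ (le_max_right K k1), mem_subs_tr] at h1
    exact h1
  · intro e
    have h1 := (hS k1 hk1).2.2.1
    rw [← hs' k1 le_rfl, e] at h1
    exact h1 rfl

end basic

/-- `b` may be added at the type `τ`. -/
def Adm (τ : Ty) (b : Tm (ℕ → Bool)) : Prop :=
  ∀ t ∈ subs b, size t < size τ.top → tr τ.n t ∈ subs τ.top ∧
    (tr τ.n t ∈ τ.D ∨ ∃ s ∈ subs b, t ∈ subs s ∧ t ≠ s ∧ (tr τ.n t, tr τ.n s) ∈ τ.G)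

/-- `τ` is a type of the term `p`. -/
def Cond (τ : Ty) (p : Tm (ℕ → Bool)) : Prop :=
  tr τ.n p = τ.top ∧
  (∀ s ∈ subs p, ∀ t ∈ subs p, tr τ.n s = tr τ.n t → s = t) ∧
  (∀ t ∈ subs p, t ≠ p → ∃ s ∈ subs p, t ∈ subs s ∧ t ≠ s ∧ (tr τ.n t, tr τ.n s) ∈ τ.G) ∧
  (∀ u s s', (u, s) ∈ τ.G → (u, s') ∈ τ.G → s = s')

theorem Cond.size_top {τ : Ty} {p : Tm (ℕ → Bool)} (h : Cond τ p) :
    size τ.top = size p := by rw [← h.1, size_tr]

theorem Cond.wf {τ : Ty} {p : Tm (ℕ → Bool)} (h : Cond τ p) : WF τ := by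
  refine ⟨⟨p, h.1⟩, fun u hu hne => ?_, h.2.2.2⟩
  rw [← h.1, mem_subs_tr] at hu
  obtain ⟨t, ht, rfl⟩ := hu
  have htp : t ≠ p := by
    rintro rfl
    exact hne h.1
  obtain ⟨s, h1, h2, h3, h4⟩ := h.2.2.1 t ht htp
  refine ⟨tr τ.n s, ?_, tr_mem h2, fun e => h3 (h.2.1 t ht s h1 e), h4⟩
  rw [← h.1]; exact tr_mem h1

theorem Cond.adm {τ : Ty} {p : Tm (ℕ → Bool)} (h : Cond τ p) : Adm τ p := by
  intro t ht hsz
  refine ⟨by rw [← h.1]; exact tr_mem ht, Or.inr ?_⟩
  apply h.2.2.1 t ht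
  rintro rfl
  rw [h.size_top] at hsz
  exact lt_irrefl _ hsz

theorem Adm.of_ext {τ τ' : Ty} (he : Ext τ τ') {b : Tm (ℕ → Bool)} (h : Adm τ' b) :
    Adm τ b := by
  intro t ht hsz
  obtain ⟨h1, h2⟩ := h t ht (lt_trans hsz he.2.1)
  obtain ⟨e1, e2, e3⟩ := he.2.2 _ h1 (by rw [size_tr]; exact hsz)
  rw [dn_tr (le_of_lt he.1)] at e1 e2 e3
  refine ⟨e1, ?_⟩
  by_cases hD : tr τ.n t ∈ τ.D
  · exact Or.inl hD
  · right
    have hD' : tr τ'.n t ∉ τ'.D := fun h => hD (e2 h)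
    rcases h2 with h2 | ⟨s, s1, s2, s3, s4⟩
    · exact absurd h2 hD'
    · refine ⟨s, s1, s2, s3, ?_⟩
      rcases e3 with e3 | e3
      · have := e3 _ s4
        rwa [dn_tr (le_of_lt he.1)] at this
      · exact absurd e3.1 hD

/-- Every term has a type. -/
theorem exists_cond (p : Tm (ℕ → Bool)) : ∃ τ, Cond τ p := by
  classical
  obtain ⟨N, hN⟩ := exists_sep (subs p)
  refine ⟨⟨N, tr N p, [], ((subs p).filter (fun t => decide (t ≠ p))).map
    (fun t => (tr N t, tr N p))⟩, rfl, hN N le_rfl, ?_, ?_⟩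
  · intro t ht hne
    refine ⟨p, self_mem p, ht, hne, ?_⟩
    simp only [List.mem_map, List.mem_filter, decide_eq_true_eq]
    exact ⟨t, ⟨ht, hne⟩, rfl⟩
  · intro u s s' h1 h2
    simp only [List.mem_map, List.mem_filter, decide_eq_true_eq, Prod.mk.injEq] at h1 h2
    obtain ⟨_, _, _, h1⟩ := h1
    obtain ⟨_, _, _, h2⟩ := h2
    rw [← h1, ← h2]

/-- One-step extension. -/
theorem exists_step {τ : Ty} {p q p' : Tm (ℕ → Bool)} (hc : Cond τ p) (hq : Adm τ q)
    (hp' : p' = node p q ∨ p' = node q p) :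
    ∃ τ', Ext τ τ' ∧ Cond τ' p' ∧
      (∀ t ∈ subs p, tr τ.n t ∈ τ.D → tr τ'.n t ∈ τ'.D) ∧ tr τ'.n p ∈ τ'.D ∧
      (∀ t ∈ subs p, ∀ s ∈ subs p, t ≠ p → (tr τ.n t, tr τ.n s) ∈ τ.G →
        (tr τ'.n t, tr τ'.n s) ∈ τ'.G) := by
  classical
  have hpp : p ∈ subs p' := by
    rcases hp' with rfl | rfl <;> simp [subs, self_mem]
  have hqp : ∀ t, t ∈ subs q → t ∈ subs p' := by
    intro t ht
    rcases hp' with rfl | rfl <;> simp [subs, ht]
  have hppt : ∀ t, t ∈ subs p → t ∈ subs p' := fun t ht => subs_trans ht hpp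
  have hcases : ∀ t ∈ subs p', t = p' ∨ t ∈ subs p ∨ t ∈ subs q := by
    intro t ht
    rcases hp' with rfl | rfl
    · exact mem_subs_node.1 ht
    · rcases mem_subs_node.1 ht with h | h | h
      · exact Or.inl h
      · exact Or.inr (Or.inr h)
      · exact Or.inr (Or.inl h)
  have hsz : size p < size p' := by
    have := size_pos q
    rcases hp' with rfl | rfl <;> simp only [size] <;> omega
  have hstop : size τ.top = size p := hc.size_top
  obtain ⟨N, hN⟩ := exists_sep (subs p')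
  set n' := max N (τ.n + 1) with hn'
  have hinj : ∀ s ∈ subs p', ∀ t ∈ subs p', tr n' s = tr n' t → s = t :=
    hN n' (le_max_left _ _)
  have hnn : τ.n < n' := lt_of_lt_of_le (Nat.lt_succ_self _) (le_max_right _ _)
  -- supports
  have hsup : ∀ t : Tm (ℕ → Bool), ∃ s : Tm (ℕ → Bool), t ∈ subs p' → t ≠ p' →
      (s ∈ subs p' ∧ t ∈ subs s ∧ t ≠ s ∧
      (t ∈ subs p ∧ t ≠ p → s ∈ subs p ∧ (tr τ.n t, tr τ.n s) ∈ τ.G) ∧
      ((∃ s' ∈ subs p', t ∈ subs s' ∧ t ≠ s' ∧ (tr τ.n t, tr τ.n s') ∈ τ.G) →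
        (tr τ.n t, tr τ.n s) ∈ τ.G)) := by
    intro t
    by_cases h1 : t ∈ subs p ∧ t ≠ p
    · obtain ⟨s, s1, s2, s3, s4⟩ := hc.2.2.1 t h1.1 h1.2
      exact ⟨s, fun _ _ => ⟨hppt s s1, s2, s3, fun _ => ⟨s1, s4⟩, fun _ => s4⟩⟩
    · by_cases h2 : ∃ s' ∈ subs p', t ∈ subs s' ∧ t ≠ s' ∧ (tr τ.n t, tr τ.n s') ∈ τ.G
      · obtain ⟨s', s1, s2, s3, s4⟩ := h2
        exact ⟨s', fun _ _ => ⟨s1, s2, s3, fun h => absurd h h1, fun _ => s4⟩⟩
      · exact ⟨p', fun ht hne => ⟨self_mem _, ht, hne, fun h => absurd h h1,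
          fun h => absurd h h2⟩⟩
  choose sup hsup using hsup
  let P : Tm (ℕ → Bool) → Prop := fun t => size τ.top ≤ size t ∨
    (tr τ.n t ∈ τ.D ∧ ∃ s' ∈ subs p', t ∈ subs s' ∧ t ≠ s' ∧ (tr τ.n t, tr τ.n s') ∈ τ.G)
  let D' : List (Tm (List Bool)) := ((subs p').filter (fun t => decide (P t))).map (tr n')
  let G' : List (Tm (List Bool) × Tm (List Bool)) :=
    ((subs p').filter (fun t => decide (t ≠ p'))).map (fun t => (tr n' t, tr n' (sup t)))
  have memD : ∀ t ∈ subs p', (tr n' t ∈ D' ↔ P t) := by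
    intro t ht
    simp only [D', List.mem_map, List.mem_filter, decide_eq_true_eq]
    constructor
    · rintro ⟨t', ⟨h1, h2⟩, h3⟩
      rw [← hinj t' h1 t ht h3]; exact h2
    · intro h
      exact ⟨t, ⟨ht, h⟩, rfl⟩
  have memG : ∀ t ∈ subs p', ∀ v, ((tr n' t, v) ∈ G' ↔ t ≠ p' ∧ v = tr n' (sup t)) := by
    intro t ht v
    simp only [G', List.mem_map, List.mem_filter, decide_eq_true_eq, Prod.mk.injEq]
    constructor
    · rintro ⟨t', ⟨h1, h2⟩, h3, h4⟩
      have := hinj t' h1 t ht h3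
      subst this
      exact ⟨h2, h4.symm⟩
    · rintro ⟨h1, h2⟩
      exact ⟨t, ⟨ht, h1⟩, rfl, h2.symm⟩
  refine ⟨⟨n', tr n' p', D', G'⟩, ⟨hnn, ?_, ?_⟩, ⟨rfl, hinj, ?_, ?_⟩, ?_, ?_, ?_⟩
  · show size τ.top < size (tr n' p')
    rw [size_tr, hstop]; exact hsz
  · intro u hu hsu
    change u ∈ subs (tr n' p') at hu
    rw [mem_subs_tr] at hu
    obtain ⟨t, ht, rfl⟩ := hu
    rw [size_tr] at hsu
    rw [dn_tr (le_of_lt hnn)]
    have htp' : t ≠ p' := by rintro rfl; omega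
    have htq : t ∈ subs p ∨ t ∈ subs q := by
      rcases hcases t ht with h | h
      · exact absurd h htp'
      · exact h
    refine ⟨?_, ?_, ?_⟩
    · rcases htq with h | h
      · rw [← hc.1]; exact tr_mem h
      · exact (hq t h hsu).1
    · intro hD
      rcases (memD t ht).1 hD with h | h
      · omega
      · exact h.1
    · by_cases hs : ∃ s' ∈ subs p', t ∈ subs s' ∧ t ≠ s' ∧ (tr τ.n t, tr τ.n s') ∈ τ.G
      · left
        intro v hv
        obtain ⟨-, hv⟩ := (memG t ht v).1 hv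
        rw [hv, dn_tr (le_of_lt hnn)]
        exact (hsup t ht htp').2.2.2.2 hs
      · right
        constructor
        · rcases htq with h | h
          · exfalso
            have htp : t ≠ p := by rintro rfl; omega
            obtain ⟨s, s1, s2, s3, s4⟩ := hc.2.2.1 t h htp
            exact hs ⟨s, hppt s s1, s2, s3, s4⟩
          · rcases (hq t h hsu).2 with h' | ⟨s, s1, s2, s3, s4⟩
            · exact h'
            · exact absurd ⟨s, hqp s s1, s2, s3, s4⟩ hs
        · intro hD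
          rcases (memD t ht).1 hD with h | h
          · omega
          · exact hs h.2
  · intro t ht hne
    obtain ⟨s1, s2, s3, -, -⟩ := hsup t ht hne
    exact ⟨sup t, s1, s2, s3, (memG t ht _).2 ⟨hne, rfl⟩⟩
  · intro u s s' h1 h2
    simp only [G', List.mem_map, List.mem_filter, decide_eq_true_eq, Prod.mk.injEq] at h1 h2
    obtain ⟨t, ⟨t1, t2⟩, t3, t4⟩ := h1
    obtain ⟨t', ⟨t1', t2'⟩, t3', t4'⟩ := h2
    have : t = t' := hinj t t1 t' t1' (by rw [t3, t3'])
    subst this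
    rw [← t4, ← t4']
  · intro t ht hD
    apply (memD t (hppt t ht)).2
    by_cases htp : t = p
    · left; rw [htp, hstop]
    · right
      refine ⟨hD, ?_⟩
      obtain ⟨s, s1, s2, s3, s4⟩ := hc.2.2.1 t ht htp
      exact ⟨s, hppt s s1, s2, s3, s4⟩
  · exact (memD p hpp).2 (Or.inl (le_of_eq hstop))
  · intro t ht s hs htp hG
    have htp' : t ≠ p' := by
      rintro rfl
      have := size_le ht
      omega
    obtain ⟨-, -, -, h4, -⟩ := hsup t (hppt t ht) htp'
    obtain ⟨h5, h6⟩ := h4 ⟨ht, htp⟩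
    have e : sup t = s := hc.2.1 _ h5 _ hs (hc.2.2.2 _ _ _ h6 hG)
    exact (memG t (hppt t ht) _).2 ⟨htp', by rw [e]⟩

end Pool.Agent.H138R3
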